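import Pool.Agent.Gen.F5.X123C1Dm3.S000
import Pool.Agent.Gen.F5.X123C1Dm3.S001
import Pool.Agent.Gen.F5.X123C1Dm3.S002
import Pool.Agent.Gen.F5.X123C1Dm3.S003
import Pool.Agent.Gen.F5.X123C1Dm3.S004
import Pool.Agent.Gen.F5.X123C1Dm3.S005

set_option autoImplicit false
set_option maxRecDepth 100000

namespace Pool.Agent.Gen.F5.X123C1Dm3

open Pool.Agent.Helper72.F5

def n0 : Cl (O (nat_lit 3)) (R (nat_lit 135377))
    (p (nat_lit 0xb0014) (nat_lit 0) (p (nat_lit 0x119) (nat_lit 1) (p (nat_lit 0x20000c) (nat_lit 0) (p (nat_lit 0x200004) (nat_lit 0) (p (nat_lit 0xc9) (nat_lit 0) (p (nat_lit 0x89) (nat_lit 1) (p (nat_lit 0x109) (nat_lit 1) (p (nat_lit 0x101) (nat_lit 0) (p (nat_lit 0x111) (nat_lit 0) (p (nat_lit 0xd1) (nat_lit 1) (p (nat_lit 0x81) (nat_lit 0) (p (nat_lit 0x41) (nat_lit 1) (p (nat_lit 0x8b0a09890a9a) (nat_lit 0) (p (nat_lit 0xa8989088a1a) (nat_lit 0) (p (nat_lit 0x8a090888079a)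 (nat_lit 0) (p (nat_lit 0x9888807871a) (nat_lit 0) (p (nat_lit 0x80000800090787088a) (nat_lit 0) (p (nat_lit 0x80000800088706860a) (nat_lit 0) (p (nat_lit 0x8706860782) (nat_lit 0) (p (nat_lit 0x686058702) (nat_lit 0) (p (nat_lit 0x8605850482) (nat_lit 0) (p (nat_lit 0x585048402) (nat_lit 0) (p (nat_lit 0x160014) (nat_lit 0) (p (nat_lit 0x60592) (nat_lit 0) (p (nat_lit 0x48512) (nat_lit 0) (p (nat_lit 0x50392) (nat_lit 0) (p (nat_lit 0x38312) (nat_lit 0) (p (nat_lit 0x40212) (nat_lit 0) (p (nat_lit 0x28192) (nat_lit 0) (p (nat_lit 0x30092) (nat_lit 0) (p (nat_lit 0x18012) (nat_lit 0) pn))))))))))))))))))))))))))))))) :=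
  Cl.node (nat_lit 0xc1) (nat_lit 2) (by decide +kernel) (ClAll.succ (ClAll.succ ClAll.zero s108) s109)

def n1 : Cl (O (nat_lit 3)) (R (nat_lit 135377))
    (p (nat_lit 0xb0014) (nat_lit 0) (p (nat_lit 0x119) (nat_lit 0) (p (nat_lit 0x20000c) (nat_lit 0) (p (nat_lit 0x200004) (nat_lit 0) (p (nat_lit 0xc1) (nat_lit 0) (p (nat_lit 0x81) (nat_lit 1) (p (nat_lit 0x101) (nat_lit 1) (p (nat_lit 0x111) (nat_lit 0) (p (nat_lit 0xd1) (nat_lit 1) (p (nat_lit 0x89) (nat_lit 0) (p (nat_lit 0x41) (nat_lit 0) (p (nat_lit 0x8b0a09890a9a) (nat_lit 0) (p (nat_lit 0xa8989088a1a) (nat_lit 0) (p (nat_lit 0x8a090888079a) (nat_lit 0) (p (nat_lit 0x9888807871a) (nat_lit 0) (p (nat_lit 0x80000800090787088a) (nat_lit 0) (p (nat_lit 0x80000800088706860a) (nat_lit 0) (p (nat_lit 0x8706860782) (nat_lit 0) (p (nat_lit 0x686058702) (nat_lit 0) (p (nat_lit 0x8605850482) (nat_lit 0) (p (nat_lit 0x585048402)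 (nat_lit 0) (p (nat_lit 0x160014) (nat_lit 0) (p (nat_lit 0x60592) (nat_lit 0) (p (nat_lit 0x48512) (nat_lit 0) (p (nat_lit 0x50392) (nat_lit 0) (p (nat_lit 0x38312) (nat_lit 0) (p (nat_lit 0x40212) (nat_lit 0) (p (nat_lit 0x28192) (nat_lit 0) (p (nat_lit 0x30092) (nat_lit 0) (p (nat_lit 0x18012) (nat_lit 0) pn)))))))))))))))))))))))))))))) :=
  Cl.node (nat_lit 0x109) (nat_lit 2) (by decide +kernel) (ClAll.succ (ClAll.succ ClAll.zero s32) s33)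

def n2 : Cl (O (nat_lit 3)) (R (nat_lit 135377))
    (p (nat_lit 0xb0014) (nat_lit 0) (p (nat_lit 0x20000c) (nat_lit 0) (p (nat_lit 0x200004) (nat_lit 0) (p (nat_lit 0xc9) (nat_lit 1) (p (nat_lit 0x89) (nat_lit 1) (p (nat_lit 0xc1) (nat_lit 0) (p (nat_lit 0x101) (nat_lit 1) (p (nat_lit 0x119) (nat_lit 0) (p (nat_lit 0xd1) (nat_lit 0) (p (nat_lit 0x81) (nat_lit 0) (p (nat_lit 0x41) (nat_lit 1) (p (nat_lit 0x8b0a09890a9a) (nat_lit 0) (p (nat_lit 0xa8989088a1a) (nat_lit 0) (p (nat_lit 0x8a090888079a) (nat_lit 0) (p (nat_lit 0x9888807871a) (nat_lit 0) (p (nat_lit 0x80000800090787088a) (nat_lit 0) (p (nat_lit 0x80000800088706860a) (nat_lit 0) (p (nat_lit 0x8706860782) (nat_lit 0) (p (nat_lit 0x686058702) (nat_lit 0) (p (nat_lit 0x8605850482) (nat_lit 0) (p (nat_lit 0x585048402) (nat_lit 0) (p (nat_lit 0x160014) (nat_lit 0) (p (nat_lit 0x60592) (nat_lit 0) (p (nat_lit 0x48512) (nat_lit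 0) (p (nat_lit 0x50392) (nat_lit 0) (p (nat_lit 0x38312) (nat_lit 0) (p (nat_lit 0x40212) (nat_lit 0) (p (nat_lit 0x28192) (nat_lit 0) (p (nat_lit 0x30092) (nat_lit 0) (p (nat_lit 0x18012) (nat_lit 0) pn)))))))))))))))))))))))))))))) :=
  Cl.node (nat_lit 0x109) (nat_lit 2) (by decide +kernel) (ClAll.succ (ClAll.succ ClAll.zero s71) s72)

def n3 : Cl (O (nat_lit 3)) (R (nat_lit 135377))
    (p (nat_lit 0x109) (nat_lit 0) (p (nat_lit 0xb0014) (nat_lit 0) (p (nat_lit 0x20000c) (nat_lit 0) (p (nat_lit 0x200004) (nat_lit 0) (p (nat_lit 0x89) (nat_lit 1) (p (nat_lit 0xc1) (nat_lit 1) (p (nat_lit 0x101) (nat_lit 1) (p (nat_lit 0x119) (nat_lit 0) (p (nat_lit 0xd1) (nat_lit 0) (p (nat_lit 0x81) (nat_lit 0) (p (nat_lit 0x41) (nat_lit 1) (p (nat_lit 0x8b0a09890a9a) (nat_lit 0) (p (nat_lit 0xa8989088a1a) (nat_lit 0) (p (nat_lit 0x8a090888079a) (nat_lit 0) (p (nat_lit 0x9888807871a) (nat_lit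 0) (p (nat_lit 0x80000800090787088a) (nat_lit 0) (p (nat_lit 0x80000800088706860a) (nat_lit 0) (p (nat_lit 0x8706860782) (nat_lit 0) (p (nat_lit 0x686058702) (nat_lit 0) (p (nat_lit 0x8605850482) (nat_lit 0) (p (nat_lit 0x585048402) (nat_lit 0) (p (nat_lit 0x160014) (nat_lit 0) (p (nat_lit 0x60592) (nat_lit 0) (p (nat_lit 0x48512) (nat_lit 0) (p (nat_lit 0x50392) (nat_lit 0) (p (nat_lit 0x38312) (nat_lit 0) (p (nat_lit 0x40212) (nat_lit 0) (p (nat_lit 0x28192) (nat_lit 0) (p (nat_lit 0x30092) (nat_lit 0) (p (nat_lit 0x18012) (nat_lit 0) pn)))))))))))))))))))))))))))))) :=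
  Cl.node (nat_lit 0x101) (nat_lit 2) (by decide +kernel) (ClAll.succ (ClAll.succ ClAll.zero s77) s78)

def n4 : Cl (O (nat_lit 3)) (R (nat_lit 135377))
    (p (nat_lit 0x109) (nat_lit 1) (p (nat_lit 0xb0014) (nat_lit 0) (p (nat_lit 0x20000c) (nat_lit 0) (p (nat_lit 0x200004) (nat_lit 0) (p (nat_lit 0x89) (nat_lit 1) (p (nat_lit 0xc1) (nat_lit 1) (p (nat_lit 0x101) (nat_lit 1) (p (nat_lit 0x119) (nat_lit 0) (p (nat_lit 0xd1) (nat_lit 0) (p (nat_lit 0x81) (nat_lit 0) (p (nat_lit 0x41) (nat_lit 1) (p (nat_lit 0x8b0a09890a9a) (nat_lit 0) (p (nat_lit 0xa8989088a1a) (nat_lit 0) (p (nat_lit 0x8a090888079a) (nat_lit 0) (p (nat_lit 0x9888807871a) (nat_lit 0) (p (nat_lit 0x80000800090787088a) (nat_lit 0) (p (nat_lit 0x80000800088706860a) (nat_lit 0) (p (nat_lit 0x8706860782) (nat_lit 0) (p (nat_lit 0x686058702) (nat_lit 0) (p (nat_lit 0x8605850482) (nat_lit 0) (p (nat_lit 0x585048402)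 (nat_lit 0) (p (nat_lit 0x160014) (nat_lit 0) (p (nat_lit 0x60592) (nat_lit 0) (p (nat_lit 0x48512) (nat_lit 0) (p (nat_lit 0x50392) (nat_lit 0) (p (nat_lit 0x38312) (nat_lit 0) (p (nat_lit 0x40212) (nat_lit 0) (p (nat_lit 0x28192) (nat_lit 0) (p (nat_lit 0x30092) (nat_lit 0) (p (nat_lit 0x18012) (nat_lit 0) pn)))))))))))))))))))))))))))))) :=
  Cl.node (nat_lit 0x41) (nat_lit 2) (by decide +kernel) (ClAll.succ (ClAll.succ ClAll.zero s79) s80)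

def n5 : Cl (O (nat_lit 3)) (R (nat_lit 135377))
    (p (nat_lit 0xc9) (nat_lit 1) (p (nat_lit 0xb0014) (nat_lit 0) (p (nat_lit 0x20000c) (nat_lit 0) (p (nat_lit 0x200004) (nat_lit 0) (p (nat_lit 0x89) (nat_lit 1) (p (nat_lit 0x101) (nat_lit 1) (p (nat_lit 0xc1) (nat_lit 1) (p (nat_lit 0x119) (nat_lit 1) (p (nat_lit 0xd1) (nat_lit 0) (p (nat_lit 0x81) (nat_lit 0) (p (nat_lit 0x41) (nat_lit 1) (p (nat_lit 0x8b0a09890a9a) (nat_lit 0) (p (nat_lit 0xa8989088a1a) (nat_lit 0) (p (nat_lit 0x8a090888079a) (nat_lit 0) (p (nat_lit 0x9888807871a) (nat_lit 0) (p (nat_lit 0x80000800090787088a) (nat_lit 0) (p (nat_lit 0x80000800088706860a) (nat_lit 0) (p (nat_lit 0x8706860782) (nat_lit 0) (p (nat_lit 0x686058702) (nat_lit 0) (p (nat_lit 0x8605850482) (nat_lit 0) (p (nat_lit 0x585048402) (nat_lit 0) (p (nat_lit 0x160014) (nat_lit 0) (p (nat_lit 0x60592) (nat_lit 0) (p (nat_lit 0x48512) (nat_lit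 0) (p (nat_lit 0x50392) (nat_lit 0) (p (nat_lit 0x38312) (nat_lit 0) (p (nat_lit 0x40212) (nat_lit 0) (p (nat_lit 0x28192) (nat_lit 0) (p (nat_lit 0x30092) (nat_lit 0) (p (nat_lit 0x18012) (nat_lit 0) pn)))))))))))))))))))))))))))))) :=
  Cl.node (nat_lit 0x41) (nat_lit 2) (by decide +kernel) (ClAll.succ (ClAll.succ ClAll.zero s100) s101)

def n6 : Cl (O (nat_lit 3)) (R (nat_lit 135377))
    (p (nat_lit 0x119) (nat_lit 1) (p (nat_lit 0x20000c) (nat_lit 0) (p (nat_lit 0x200004) (nat_lit 0) (p (nat_lit 0xc9) (nat_lit 0) (p (nat_lit 0x89) (nat_lit 1) (p (nat_lit 0x109) (nat_lit 1) (p (nat_lit 0x101) (nat_lit 0) (p (nat_lit 0x111) (nat_lit 0) (p (nat_lit 0xd1) (nat_lit 1) (p (nat_lit 0x81) (nat_lit 0) (p (nat_lit 0x41) (nat_lit 1) (p (nat_lit 0x8b0a09890a9a) (nat_lit 0) (p (nat_lit 0xa8989088a1a) (nat_lit 0) (p (nat_lit 0x8a090888079a) (nat_lit 0) (p (nat_lit 0x9888807871a) (nat_lit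 0) (p (nat_lit 0x80000800090787088a) (nat_lit 0) (p (nat_lit 0x80000800088706860a) (nat_lit 0) (p (nat_lit 0x8706860782) (nat_lit 0) (p (nat_lit 0x686058702) (nat_lit 0) (p (nat_lit 0x8605850482) (nat_lit 0) (p (nat_lit 0x585048402) (nat_lit 0) (p (nat_lit 0x160014) (nat_lit 0) (p (nat_lit 0x60592) (nat_lit 0) (p (nat_lit 0x48512) (nat_lit 0) (p (nat_lit 0x50392) (nat_lit 0) (p (nat_lit 0x38312) (nat_lit 0) (p (nat_lit 0x40212) (nat_lit 0) (p (nat_lit 0x28192) (nat_lit 0) (p (nat_lit 0x30092) (nat_lit 0) (p (nat_lit 0x18012) (nat_lit 0) pn)))))))))))))))))))))))))))))) :=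
  Cl.node (nat_lit 0xb0014) (nat_lit 2) (by decide +kernel) (ClAll.succ (ClAll.succ ClAll.zero n0) s110)

def n7 : Cl (O (nat_lit 3)) (R (nat_lit 135377))
    (p (nat_lit 0x119) (nat_lit 1) (p (nat_lit 0xb0014) (nat_lit 0) (p (nat_lit 0x20000c) (nat_lit 0) (p (nat_lit 0x200004) (nat_lit 0) (p (nat_lit 0xc9) (nat_lit 0) (p (nat_lit 0x89) (nat_lit 1) (p (nat_lit 0x101) (nat_lit 1) (p (nat_lit 0x111) (nat_lit 0) (p (nat_lit 0xd1) (nat_lit 1) (p (nat_lit 0x81) (nat_lit 0) (p (nat_lit 0x41) (nat_lit 1) (p (nat_lit 0x8b0a09890a9a) (nat_lit 0) (p (nat_lit 0xa8989088a1a) (nat_lit 0) (p (nat_lit 0x8a090888079a) (nat_lit 0) (p (nat_lit 0x9888807871a) (nat_lit 0) (p (nat_lit 0x80000800090787088a) (nat_lit 0) (p (nat_lit 0x80000800088706860a) (nat_lit 0) (p (nat_lit 0x8706860782) (nat_lit 0) (p (nat_lit 0x686058702) (nat_lit 0) (p (nat_lit 0x8605850482) (nat_lit 0) (p (nat_lit 0x585048402)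 (nat_lit 0) (p (nat_lit 0x160014) (nat_lit 0) (p (nat_lit 0x60592) (nat_lit 0) (p (nat_lit 0x48512) (nat_lit 0) (p (nat_lit 0x50392) (nat_lit 0) (p (nat_lit 0x38312) (nat_lit 0) (p (nat_lit 0x40212) (nat_lit 0) (p (nat_lit 0x28192) (nat_lit 0) (p (nat_lit 0x30092) (nat_lit 0) (p (nat_lit 0x18012) (nat_lit 0) pn)))))))))))))))))))))))))))))) :=
  Cl.node (nat_lit 0xc1) (nat_lit 2) (by decide +kernel) (ClAll.succ (ClAll.succ ClAll.zero s117) s118)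

def n8 : Cl (O (nat_lit 3)) (R (nat_lit 135377))
    (p (nat_lit 0x111) (nat_lit 0) (p (nat_lit 0x20000c) (nat_lit 0) (p (nat_lit 0x200004) (nat_lit 0) (p (nat_lit 0xc9) (nat_lit 1) (p (nat_lit 0x81) (nat_lit 0) (p (nat_lit 0x101) (nat_lit 1) (p (nat_lit 0x119) (nat_lit 0) (p (nat_lit 0xd1) (nat_lit 0) (p (nat_lit 0x89) (nat_lit 0) (p (nat_lit 0x41) (nat_lit 0) (p (nat_lit 0x8b0a09890a9a) (nat_lit 0) (p (nat_lit 0xa8989088a1a) (nat_lit 0) (p (nat_lit 0x8a090888079a) (nat_lit 0) (p (nat_lit 0x9888807871a) (nat_lit 0) (p (nat_lit 0x80000800090787088a) (nat_lit 0) (p (nat_lit 0x80000800088706860a) (nat_lit 0) (p (nat_lit 0x8706860782) (nat_lit 0) (p (nat_lit 0x686058702) (nat_lit 0) (p (nat_lit 0x8605850482) (nat_lit 0) (p (nat_lit 0x585048402) (nat_lit 0) (p (nat_lit 0x160014) (nat_lit 0) (p (nat_lit 0x60592) (nat_lit 0) (p (nat_lit 0x48512) (nat_lit 0) (p (nat_lit 0x50392) (nat_lit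 0) (p (nat_lit 0x38312) (nat_lit 0) (p (nat_lit 0x40212) (nat_lit 0) (p (nat_lit 0x28192) (nat_lit 0) (p (nat_lit 0x30092) (nat_lit 0) (p (nat_lit 0x18012) (nat_lit 0) pn))))))))))))))))))))))))))))) :=
  Cl.node (nat_lit 0xb0014) (nat_lit 2) (by decide +kernel) (ClAll.succ (ClAll.succ ClAll.zero s4) s5)

def n9 : Cl (O (nat_lit 3)) (R (nat_lit 135377))
    (p (nat_lit 0x20000c) (nat_lit 0) (p (nat_lit 0x200004) (nat_lit 0) (p (nat_lit 0xc9) (nat_lit 1) (p (nat_lit 0xc1) (nat_lit 0) (p (nat_lit 0x81) (nat_lit 1) (p (nat_lit 0x101) (nat_lit 1) (p (nat_lit 0x119) (nat_lit 0) (p (nat_lit 0xd1) (nat_lit 0) (p (nat_lit 0x89) (nat_lit 0) (p (nat_lit 0x41) (nat_lit 0) (p (nat_lit 0x8b0a09890a9a) (nat_lit 0) (p (nat_lit 0xa8989088a1a) (nat_lit 0) (p (nat_lit 0x8a090888079a) (nat_lit 0) (p (nat_lit 0x9888807871a) (nat_lit 0) (p (nat_lit 0x80000800090787088a) (nat_lit 0) (p (nat_lit 0x80000800088706860a)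 (nat_lit 0) (p (nat_lit 0x8706860782) (nat_lit 0) (p (nat_lit 0x686058702) (nat_lit 0) (p (nat_lit 0x8605850482) (nat_lit 0) (p (nat_lit 0x585048402) (nat_lit 0) (p (nat_lit 0x160014) (nat_lit 0) (p (nat_lit 0x60592) (nat_lit 0) (p (nat_lit 0x48512) (nat_lit 0) (p (nat_lit 0x50392) (nat_lit 0) (p (nat_lit 0x38312) (nat_lit 0) (p (nat_lit 0x40212) (nat_lit 0) (p (nat_lit 0x28192) (nat_lit 0) (p (nat_lit 0x30092) (nat_lit 0) (p (nat_lit 0x18012) (nat_lit 0) pn))))))))))))))))))))))))))))) :=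
  Cl.node (nat_lit 0xb0014) (nat_lit 2) (by decide +kernel) (ClAll.succ (ClAll.succ ClAll.zero s10) s11)

def n10 : Cl (O (nat_lit 3)) (R (nat_lit 135377))
    (p (nat_lit 0x119) (nat_lit 0) (p (nat_lit 0x20000c) (nat_lit 0) (p (nat_lit 0x200004) (nat_lit 0) (p (nat_lit 0xc1) (nat_lit 0) (p (nat_lit 0x81) (nat_lit 1) (p (nat_lit 0x101) (nat_lit 1) (p (nat_lit 0x111) (nat_lit 0) (p (nat_lit 0xd1) (nat_lit 1) (p (nat_lit 0x89) (nat_lit 0) (p (nat_lit 0x41) (nat_lit 0) (p (nat_lit 0x8b0a09890a9a) (nat_lit 0) (p (nat_lit 0xa8989088a1a) (nat_lit 0) (p (nat_lit 0x8a090888079a) (nat_lit 0) (p (nat_lit 0x9888807871a) (nat_lit 0) (p (nat_lit 0x80000800090787088a) (nat_lit 0) (p (nat_lit 0x80000800088706860a) (nat_lit 0) (p (nat_lit 0x8706860782) (nat_lit 0) (p (nat_lit 0x686058702) (nat_lit 0) (p (nat_lit 0x8605850482) (nat_lit 0) (p (nat_lit 0x585048402) (nat_lit 0) (p (nat_lit 0x160014)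 (nat_lit 0) (p (nat_lit 0x60592) (nat_lit 0) (p (nat_lit 0x48512) (nat_lit 0) (p (nat_lit 0x50392) (nat_lit 0) (p (nat_lit 0x38312) (nat_lit 0) (p (nat_lit 0x40212) (nat_lit 0) (p (nat_lit 0x28192) (nat_lit 0) (p (nat_lit 0x30092) (nat_lit 0) (p (nat_lit 0x18012) (nat_lit 0) pn))))))))))))))))))))))))))))) :=
  Cl.node (nat_lit 0xb0014) (nat_lit 2) (by decide +kernel) (ClAll.succ (ClAll.succ ClAll.zero n1) s34)

def n11 : Cl (O (nat_lit 3)) (R (nat_lit 135377))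
    (p (nat_lit 0x20000c) (nat_lit 0) (p (nat_lit 0x200004) (nat_lit 0) (p (nat_lit 0xc9) (nat_lit 1) (p (nat_lit 0x89) (nat_lit 1) (p (nat_lit 0xc1) (nat_lit 0) (p (nat_lit 0x101) (nat_lit 1) (p (nat_lit 0x119) (nat_lit 0) (p (nat_lit 0xd1) (nat_lit 0) (p (nat_lit 0x81) (nat_lit 0) (p (nat_lit 0x41) (nat_lit 1) (p (nat_lit 0x8b0a09890a9a) (nat_lit 0) (p (nat_lit 0xa8989088a1a) (nat_lit 0) (p (nat_lit 0x8a090888079a) (nat_lit 0) (p (nat_lit 0x9888807871a) (nat_lit 0) (p (nat_lit 0x80000800090787088a) (nat_lit 0) (p (nat_lit 0x80000800088706860a) (nat_lit 0) (p (nat_lit 0x8706860782) (nat_lit 0) (p (nat_lit 0x686058702) (nat_lit 0) (p (nat_lit 0x8605850482) (nat_lit 0) (p (nat_lit 0x585048402) (nat_lit 0) (p (nat_lit 0x160014) (nat_lit 0) (p (nat_lit 0x60592) (nat_lit 0) (p (nat_lit 0x48512) (nat_lit 0) (p (nat_lit 0x50392) (nat_lit 0) (p (nat_lit 0x38312) (nat_lit 0) (p (nat_lit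 0x40212) (nat_lit 0) (p (nat_lit 0x28192) (nat_lit 0) (p (nat_lit 0x30092) (nat_lit 0) (p (nat_lit 0x18012) (nat_lit 0) pn))))))))))))))))))))))))))))) :=
  Cl.node (nat_lit 0xb0014) (nat_lit 2) (by decide +kernel) (ClAll.succ (ClAll.succ ClAll.zero n2) s73)

def n12 : Cl (O (nat_lit 3)) (R (nat_lit 135377))
    (p (nat_lit 0xb0014) (nat_lit 0) (p (nat_lit 0x20000c) (nat_lit 0) (p (nat_lit 0x200004) (nat_lit 0) (p (nat_lit 0x89) (nat_lit 1) (p (nat_lit 0xc1) (nat_lit 1) (p (nat_lit 0x101) (nat_lit 1) (p (nat_lit 0x119) (nat_lit 0) (p (nat_lit 0xd1) (nat_lit 0) (p (nat_lit 0x81) (nat_lit 0) (p (nat_lit 0x41) (nat_lit 1) (p (nat_lit 0x8b0a09890a9a) (nat_lit 0) (p (nat_lit 0xa8989088a1a) (nat_lit 0) (p (nat_lit 0x8a090888079a) (nat_lit 0) (p (nat_lit 0x9888807871a) (nat_lit 0) (p (nat_lit 0x80000800090787088a) (nat_lit 0) (p (nat_lit 0x80000800088706860a) (nat_lit 0) (p (nat_lit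 0x8706860782) (nat_lit 0) (p (nat_lit 0x686058702) (nat_lit 0) (p (nat_lit 0x8605850482) (nat_lit 0) (p (nat_lit 0x585048402) (nat_lit 0) (p (nat_lit 0x160014) (nat_lit 0) (p (nat_lit 0x60592) (nat_lit 0) (p (nat_lit 0x48512) (nat_lit 0) (p (nat_lit 0x50392) (nat_lit 0) (p (nat_lit 0x38312) (nat_lit 0) (p (nat_lit 0x40212) (nat_lit 0) (p (nat_lit 0x28192) (nat_lit 0) (p (nat_lit 0x30092) (nat_lit 0) (p (nat_lit 0x18012) (nat_lit 0) pn))))))))))))))))))))))))))))) :=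
  Cl.node (nat_lit 0x109) (nat_lit 2) (by decide +kernel) (ClAll.succ (ClAll.succ ClAll.zero n3) n4)

def n13 : Cl (O (nat_lit 3)) (R (nat_lit 135377))
    (p (nat_lit 0x20000c) (nat_lit 0) (p (nat_lit 0xb0014) (nat_lit 0) (p (nat_lit 0x200004) (nat_lit 1) (p (nat_lit 0x89) (nat_lit 1) (p (nat_lit 0xc1) (nat_lit 1) (p (nat_lit 0x101) (nat_lit 1) (p (nat_lit 0x119) (nat_lit 0) (p (nat_lit 0xd1) (nat_lit 0) (p (nat_lit 0x81) (nat_lit 0) (p (nat_lit 0x41) (nat_lit 1) (p (nat_lit 0x8b0a09890a9a) (nat_lit 0) (p (nat_lit 0xa8989088a1a) (nat_lit 0) (p (nat_lit 0x8a090888079a) (nat_lit 0) (p (nat_lit 0x9888807871a) (nat_lit 0) (p (nat_lit 0x80000800090787088a) (nat_lit 0) (p (nat_lit 0x80000800088706860a) (nat_lit 0) (p (nat_lit 0x8706860782) (nat_lit 0) (p (nat_lit 0x686058702) (nat_lit 0) (p (nat_lit 0x8605850482) (nat_lit 0) (p (nat_lit 0x585048402) (nat_lit 0) (p (nat_lit 0x160014)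 (nat_lit 0) (p (nat_lit 0x60592) (nat_lit 0) (p (nat_lit 0x48512) (nat_lit 0) (p (nat_lit 0x50392) (nat_lit 0) (p (nat_lit 0x38312) (nat_lit 0) (p (nat_lit 0x40212) (nat_lit 0) (p (nat_lit 0x28192) (nat_lit 0) (p (nat_lit 0x30092) (nat_lit 0) (p (nat_lit 0x18012) (nat_lit 0) pn))))))))))))))))))))))))))))) :=
  Cl.node (nat_lit 0x109) (nat_lit 2) (by decide +kernel) (ClAll.succ (ClAll.succ ClAll.zero s83) s84)

def n14 : Cl (O (nat_lit 3)) (R (nat_lit 135377))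
    (p (nat_lit 0x20000c) (nat_lit 0) (p (nat_lit 0x200004) (nat_lit 0) (p (nat_lit 0x109) (nat_lit 1) (p (nat_lit 0x89) (nat_lit 1) (p (nat_lit 0x101) (nat_lit 0) (p (nat_lit 0xc1) (nat_lit 1) (p (nat_lit 0x119) (nat_lit 1) (p (nat_lit 0xd1) (nat_lit 0) (p (nat_lit 0x81) (nat_lit 0) (p (nat_lit 0x41) (nat_lit 1) (p (nat_lit 0x8b0a09890a9a) (nat_lit 0) (p (nat_lit 0xa8989088a1a) (nat_lit 0) (p (nat_lit 0x8a090888079a) (nat_lit 0) (p (nat_lit 0x9888807871a) (nat_lit 0) (p (nat_lit 0x80000800090787088a) (nat_lit 0) (p (nat_lit 0x80000800088706860a) (nat_lit 0) (p (nat_lit 0x8706860782) (nat_lit 0) (p (nat_lit 0x686058702) (nat_lit 0) (p (nat_lit 0x8605850482) (nat_lit 0) (p (nat_lit 0x585048402) (nat_lit 0) (p (nat_lit 0x160014) (nat_lit 0) (p (nat_lit 0x60592) (nat_lit 0) (p (nat_lit 0x48512) (nat_lit 0) (p (nat_lit 0x50392) (nat_lit 0) (p (nat_lit 0x38312) (nat_lit 0) (p (nat_lit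 0x40212) (nat_lit 0) (p (nat_lit 0x28192) (nat_lit 0) (p (nat_lit 0x30092) (nat_lit 0) (p (nat_lit 0x18012) (nat_lit 0) pn))))))))))))))))))))))))))))) :=
  Cl.node (nat_lit 0xb0014) (nat_lit 2) (by decide +kernel) (ClAll.succ (ClAll.succ ClAll.zero s94) s95)

def n15 : Cl (O (nat_lit 3)) (R (nat_lit 135377))
    (p (nat_lit 0xb0014) (nat_lit 0) (p (nat_lit 0x20000c) (nat_lit 0) (p (nat_lit 0x200004) (nat_lit 0) (p (nat_lit 0x89) (nat_lit 1) (p (nat_lit 0x101) (nat_lit 1) (p (nat_lit 0xc1) (nat_lit 1) (p (nat_lit 0x119) (nat_lit 1) (p (nat_lit 0xd1) (nat_lit 0) (p (nat_lit 0x81) (nat_lit 0) (p (nat_lit 0x41) (nat_lit 1) (p (nat_lit 0x8b0a09890a9a) (nat_lit 0) (p (nat_lit 0xa8989088a1a) (nat_lit 0) (p (nat_lit 0x8a090888079a) (nat_lit 0) (p (nat_lit 0x9888807871a) (nat_lit 0) (p (nat_lit 0x80000800090787088a) (nat_lit 0) (p (nat_lit 0x80000800088706860a) (nat_lit 0) (p (nat_lit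 0x8706860782) (nat_lit 0) (p (nat_lit 0x686058702) (nat_lit 0) (p (nat_lit 0x8605850482) (nat_lit 0) (p (nat_lit 0x585048402) (nat_lit 0) (p (nat_lit 0x160014) (nat_lit 0) (p (nat_lit 0x60592) (nat_lit 0) (p (nat_lit 0x48512) (nat_lit 0) (p (nat_lit 0x50392) (nat_lit 0) (p (nat_lit 0x38312) (nat_lit 0) (p (nat_lit 0x40212) (nat_lit 0) (p (nat_lit 0x28192) (nat_lit 0) (p (nat_lit 0x30092) (nat_lit 0) (p (nat_lit 0x18012) (nat_lit 0) pn))))))))))))))))))))))))))))) :=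
  Cl.node (nat_lit 0xc9) (nat_lit 2) (by decide +kernel) (ClAll.succ (ClAll.succ ClAll.zero s99) n5)

def n16 : Cl (O (nat_lit 3)) (R (nat_lit 135377))
    (p (nat_lit 0x20000c) (nat_lit 0) (p (nat_lit 0x200004) (nat_lit 0) (p (nat_lit 0xc9) (nat_lit 0) (p (nat_lit 0x89) (nat_lit 1) (p (nat_lit 0x109) (nat_lit 1) (p (nat_lit 0x101) (nat_lit 0) (p (nat_lit 0x111) (nat_lit 0) (p (nat_lit 0xd1) (nat_lit 1) (p (nat_lit 0x81) (nat_lit 0) (p (nat_lit 0x41) (nat_lit 1) (p (nat_lit 0x8b0a09890a9a) (nat_lit 0) (p (nat_lit 0xa8989088a1a) (nat_lit 0) (p (nat_lit 0x8a090888079a) (nat_lit 0) (p (nat_lit 0x9888807871a) (nat_lit 0) (p (nat_lit 0x80000800090787088a) (nat_lit 0) (p (nat_lit 0x80000800088706860a) (nat_lit 0) (p (nat_lit 0x8706860782) (nat_lit 0) (p (nat_lit 0x686058702) (nat_lit 0) (p (nat_lit 0x8605850482) (nat_lit 0) (p (nat_lit 0x585048402) (nat_lit 0) (p (nat_lit 0x160014)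 (nat_lit 0) (p (nat_lit 0x60592) (nat_lit 0) (p (nat_lit 0x48512) (nat_lit 0) (p (nat_lit 0x50392) (nat_lit 0) (p (nat_lit 0x38312) (nat_lit 0) (p (nat_lit 0x40212) (nat_lit 0) (p (nat_lit 0x28192) (nat_lit 0) (p (nat_lit 0x30092) (nat_lit 0) (p (nat_lit 0x18012) (nat_lit 0) pn))))))))))))))))))))))))))))) :=
  Cl.node (nat_lit 0x119) (nat_lit 2) (by decide +kernel) (ClAll.succ (ClAll.succ ClAll.zero s107) n6)

def n17 : Cl (O (nat_lit 3)) (R (nat_lit 135377))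
    (p (nat_lit 0xb0014) (nat_lit 0) (p (nat_lit 0x20000c) (nat_lit 0) (p (nat_lit 0x200004) (nat_lit 0) (p (nat_lit 0xc9) (nat_lit 0) (p (nat_lit 0x89) (nat_lit 1) (p (nat_lit 0x101) (nat_lit 1) (p (nat_lit 0x111) (nat_lit 0) (p (nat_lit 0xd1) (nat_lit 1) (p (nat_lit 0x81) (nat_lit 0) (p (nat_lit 0x41) (nat_lit 1) (p (nat_lit 0x8b0a09890a9a) (nat_lit 0) (p (nat_lit 0xa8989088a1a) (nat_lit 0) (p (nat_lit 0x8a090888079a) (nat_lit 0) (p (nat_lit 0x9888807871a) (nat_lit 0) (p (nat_lit 0x80000800090787088a) (nat_lit 0) (p (nat_lit 0x80000800088706860a) (nat_lit 0) (p (nat_lit 0x8706860782) (nat_lit 0) (p (nat_lit 0x686058702) (nat_lit 0) (p (nat_lit 0x8605850482) (nat_lit 0) (p (nat_lit 0x585048402) (nat_lit 0) (p (nat_lit 0x160014) (nat_lit 0) (p (nat_lit 0x60592) (nat_lit 0) (p (nat_lit 0x48512) (nat_lit 0) (p (nat_lit 0x50392) (nat_lit 0) (p (nat_lit 0x38312) (nat_lit 0) (p (nat_lit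 0x40212) (nat_lit 0) (p (nat_lit 0x28192) (nat_lit 0) (p (nat_lit 0x30092) (nat_lit 0) (p (nat_lit 0x18012) (nat_lit 0) pn))))))))))))))))))))))))))))) :=
  Cl.node (nat_lit 0x119) (nat_lit 2) (by decide +kernel) (ClAll.succ (ClAll.succ ClAll.zero s116) n7)

def n18 : Cl (O (nat_lit 3)) (R (nat_lit 135377))
    (p (nat_lit 0x20000c) (nat_lit 0) (p (nat_lit 0x200004) (nat_lit 0) (p (nat_lit 0xc9) (nat_lit 1) (p (nat_lit 0x81) (nat_lit 0) (p (nat_lit 0x101) (nat_lit 1) (p (nat_lit 0x119) (nat_lit 0) (p (nat_lit 0xd1) (nat_lit 0) (p (nat_lit 0x89) (nat_lit 0) (p (nat_lit 0x41) (nat_lit 0) (p (nat_lit 0x8b0a09890a9a) (nat_lit 0) (p (nat_lit 0xa8989088a1a) (nat_lit 0) (p (nat_lit 0x8a090888079a) (nat_lit 0) (p (nat_lit 0x9888807871a) (nat_lit 0) (p (nat_lit 0x80000800090787088a) (nat_lit 0) (p (nat_lit 0x80000800088706860a) (nat_lit 0) (p (nat_lit 0x8706860782) (nat_lit 0) (p (nat_lit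 0x686058702) (nat_lit 0) (p (nat_lit 0x8605850482) (nat_lit 0) (p (nat_lit 0x585048402) (nat_lit 0) (p (nat_lit 0x160014) (nat_lit 0) (p (nat_lit 0x60592) (nat_lit 0) (p (nat_lit 0x48512) (nat_lit 0) (p (nat_lit 0x50392) (nat_lit 0) (p (nat_lit 0x38312) (nat_lit 0) (p (nat_lit 0x40212) (nat_lit 0) (p (nat_lit 0x28192) (nat_lit 0) (p (nat_lit 0x30092) (nat_lit 0) (p (nat_lit 0x18012) (nat_lit 0) pn)))))))))))))))))))))))))))) :=
  Cl.node (nat_lit 0x111) (nat_lit 2) (by decide +kernel) (ClAll.succ (ClAll.succ ClAll.zero n8) s6)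

def n19 : Cl (O (nat_lit 3)) (R (nat_lit 135377))
    (p (nat_lit 0x200004) (nat_lit 0) (p (nat_lit 0xc9) (nat_lit 1) (p (nat_lit 0xc1) (nat_lit 0) (p (nat_lit 0x81) (nat_lit 1) (p (nat_lit 0x101) (nat_lit 1) (p (nat_lit 0x119) (nat_lit 0) (p (nat_lit 0xd1) (nat_lit 0) (p (nat_lit 0x89) (nat_lit 0) (p (nat_lit 0x41) (nat_lit 0) (p (nat_lit 0x8b0a09890a9a) (nat_lit 0) (p (nat_lit 0xa8989088a1a) (nat_lit 0) (p (nat_lit 0x8a090888079a) (nat_lit 0) (p (nat_lit 0x9888807871a) (nat_lit 0) (p (nat_lit 0x80000800090787088a) (nat_lit 0) (p (nat_lit 0x80000800088706860a) (nat_lit 0) (p (nat_lit 0x8706860782) (nat_lit 0) (p (nat_lit 0x686058702) (nat_lit 0) (p (nat_lit 0x8605850482) (nat_lit 0) (p (nat_lit 0x585048402) (nat_lit 0) (p (nat_lit 0x160014) (nat_lit 0) (p (nat_lit 0x60592) (nat_lit 0) (p (nat_lit 0x48512) (nat_lit 0) (p (nat_lit 0x50392) (nat_lit 0) (p (nat_lit 0x38312) (nat_lit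 0) (p (nat_lit 0x40212) (nat_lit 0) (p (nat_lit 0x28192) (nat_lit 0) (p (nat_lit 0x30092) (nat_lit 0) (p (nat_lit 0x18012) (nat_lit 0) pn)))))))))))))))))))))))))))) :=
  Cl.node (nat_lit 0x20000c) (nat_lit 2) (by decide +kernel) (ClAll.succ (ClAll.succ ClAll.zero n9) s12)

def n20 : Cl (O (nat_lit 3)) (R (nat_lit 135377))
    (p (nat_lit 0x200004) (nat_lit 0) (p (nat_lit 0x109) (nat_lit 1) (p (nat_lit 0x101) (nat_lit 0) (p (nat_lit 0x81) (nat_lit 1) (p (nat_lit 0xc1) (nat_lit 1) (p (nat_lit 0x119) (nat_lit 1) (p (nat_lit 0xd1) (nat_lit 0) (p (nat_lit 0x89) (nat_lit 0) (p (nat_lit 0x41) (nat_lit 0) (p (nat_lit 0x8b0a09890a9a) (nat_lit 0) (p (nat_lit 0xa8989088a1a) (nat_lit 0) (p (nat_lit 0x8a090888079a) (nat_lit 0) (p (nat_lit 0x9888807871a) (nat_lit 0) (p (nat_lit 0x80000800090787088a) (nat_lit 0) (p (nat_lit 0x80000800088706860a) (nat_lit 0) (p (nat_lit 0x8706860782) (nat_lit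 0) (p (nat_lit 0x686058702) (nat_lit 0) (p (nat_lit 0x8605850482) (nat_lit 0) (p (nat_lit 0x585048402) (nat_lit 0) (p (nat_lit 0x160014) (nat_lit 0) (p (nat_lit 0x60592) (nat_lit 0) (p (nat_lit 0x48512) (nat_lit 0) (p (nat_lit 0x50392) (nat_lit 0) (p (nat_lit 0x38312) (nat_lit 0) (p (nat_lit 0x40212) (nat_lit 0) (p (nat_lit 0x28192) (nat_lit 0) (p (nat_lit 0x30092) (nat_lit 0) (p (nat_lit 0x18012) (nat_lit 0) pn)))))))))))))))))))))))))))) :=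
  Cl.node (nat_lit 0x20000c) (nat_lit 2) (by decide +kernel) (ClAll.succ (ClAll.succ ClAll.zero s22) s23)

def n21 : Cl (O (nat_lit 3)) (R (nat_lit 135377))
    (p (nat_lit 0x20000c) (nat_lit 0) (p (nat_lit 0x200004) (nat_lit 0) (p (nat_lit 0xc1) (nat_lit 0) (p (nat_lit 0x81) (nat_lit 1) (p (nat_lit 0x101) (nat_lit 1) (p (nat_lit 0x111) (nat_lit 0) (p (nat_lit 0xd1) (nat_lit 1) (p (nat_lit 0x89) (nat_lit 0) (p (nat_lit 0x41) (nat_lit 0) (p (nat_lit 0x8b0a09890a9a) (nat_lit 0) (p (nat_lit 0xa8989088a1a) (nat_lit 0) (p (nat_lit 0x8a090888079a) (nat_lit 0) (p (nat_lit 0x9888807871a) (nat_lit 0) (p (nat_lit 0x80000800090787088a) (nat_lit 0) (p (nat_lit 0x80000800088706860a) (nat_lit 0) (p (nat_lit 0x8706860782) (nat_lit 0) (p (nat_lit 0x686058702) (nat_lit 0) (p (nat_lit 0x8605850482) (nat_lit 0) (p (nat_lit 0x585048402) (nat_lit 0) (p (nat_lit 0x160014) (nat_lit 0) (p (nat_lit 0x60592)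 (nat_lit 0) (p (nat_lit 0x48512) (nat_lit 0) (p (nat_lit 0x50392) (nat_lit 0) (p (nat_lit 0x38312) (nat_lit 0) (p (nat_lit 0x40212) (nat_lit 0) (p (nat_lit 0x28192) (nat_lit 0) (p (nat_lit 0x30092) (nat_lit 0) (p (nat_lit 0x18012) (nat_lit 0) pn)))))))))))))))))))))))))))) :=
  Cl.node (nat_lit 0x119) (nat_lit 2) (by decide +kernel) (ClAll.succ (ClAll.succ ClAll.zero n10) s35)

def n22 : Cl (O (nat_lit 3)) (R (nat_lit 135377))
    (p (nat_lit 0x200004) (nat_lit 0) (p (nat_lit 0xc9) (nat_lit 1) (p (nat_lit 0x89) (nat_lit 1) (p (nat_lit 0xc1) (nat_lit 0) (p (nat_lit 0x101) (nat_lit 1) (p (nat_lit 0x119) (nat_lit 0) (p (nat_lit 0xd1) (nat_lit 0) (p (nat_lit 0x81) (nat_lit 0) (p (nat_lit 0x41) (nat_lit 1) (p (nat_lit 0x8b0a09890a9a) (nat_lit 0) (p (nat_lit 0xa8989088a1a) (nat_lit 0) (p (nat_lit 0x8a090888079a) (nat_lit 0) (p (nat_lit 0x9888807871a) (nat_lit 0) (p (nat_lit 0x80000800090787088a)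 (nat_lit 0) (p (nat_lit 0x80000800088706860a) (nat_lit 0) (p (nat_lit 0x8706860782) (nat_lit 0) (p (nat_lit 0x686058702) (nat_lit 0) (p (nat_lit 0x8605850482) (nat_lit 0) (p (nat_lit 0x585048402) (nat_lit 0) (p (nat_lit 0x160014) (nat_lit 0) (p (nat_lit 0x60592) (nat_lit 0) (p (nat_lit 0x48512) (nat_lit 0) (p (nat_lit 0x50392) (nat_lit 0) (p (nat_lit 0x38312) (nat_lit 0) (p (nat_lit 0x40212) (nat_lit 0) (p (nat_lit 0x28192) (nat_lit 0) (p (nat_lit 0x30092) (nat_lit 0) (p (nat_lit 0x18012) (nat_lit 0) pn)))))))))))))))))))))))))))) :=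
  Cl.node (nat_lit 0x20000c) (nat_lit 2) (by decide +kernel) (ClAll.succ (ClAll.succ ClAll.zero n11) s74)

def n23 : Cl (O (nat_lit 3)) (R (nat_lit 135377))
    (p (nat_lit 0x20000c) (nat_lit 0) (p (nat_lit 0x200004) (nat_lit 0) (p (nat_lit 0x89) (nat_lit 1) (p (nat_lit 0xc1) (nat_lit 1) (p (nat_lit 0x101) (nat_lit 1) (p (nat_lit 0x119) (nat_lit 0) (p (nat_lit 0xd1) (nat_lit 0) (p (nat_lit 0x81) (nat_lit 0) (p (nat_lit 0x41) (nat_lit 1) (p (nat_lit 0x8b0a09890a9a) (nat_lit 0) (p (nat_lit 0xa8989088a1a) (nat_lit 0) (p (nat_lit 0x8a090888079a) (nat_lit 0) (p (nat_lit 0x9888807871a) (nat_lit 0) (p (nat_lit 0x80000800090787088a) (nat_lit 0) (p (nat_lit 0x80000800088706860a) (nat_lit 0) (p (nat_lit 0x8706860782) (nat_lit 0) (p (nat_lit 0x686058702) (nat_lit 0) (p (nat_lit 0x8605850482) (nat_lit 0) (p (nat_lit 0x585048402) (nat_lit 0) (p (nat_lit 0x160014) (nat_lit 0) (p (nat_lit 0x60592)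 (nat_lit 0) (p (nat_lit 0x48512) (nat_lit 0) (p (nat_lit 0x50392) (nat_lit 0) (p (nat_lit 0x38312) (nat_lit 0) (p (nat_lit 0x40212) (nat_lit 0) (p (nat_lit 0x28192) (nat_lit 0) (p (nat_lit 0x30092) (nat_lit 0) (p (nat_lit 0x18012) (nat_lit 0) pn)))))))))))))))))))))))))))) :=
  Cl.node (nat_lit 0xb0014) (nat_lit 2) (by decide +kernel) (ClAll.succ (ClAll.succ ClAll.zero n12) s81)

def n24 : Cl (O (nat_lit 3)) (R (nat_lit 135377))
    (p (nat_lit 0xb0014) (nat_lit 0) (p (nat_lit 0x200004) (nat_lit 1) (p (nat_lit 0x89) (nat_lit 1) (p (nat_lit 0xc1) (nat_lit 1) (p (nat_lit 0x101) (nat_lit 1) (p (nat_lit 0x119) (nat_lit 0) (p (nat_lit 0xd1) (nat_lit 0) (p (nat_lit 0x81) (nat_lit 0) (p (nat_lit 0x41) (nat_lit 1) (p (nat_lit 0x8b0a09890a9a) (nat_lit 0) (p (nat_lit 0xa8989088a1a) (nat_lit 0) (p (nat_lit 0x8a090888079a) (nat_lit 0) (p (nat_lit 0x9888807871a) (nat_lit 0) (p (nat_lit 0x80000800090787088a)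 (nat_lit 0) (p (nat_lit 0x80000800088706860a) (nat_lit 0) (p (nat_lit 0x8706860782) (nat_lit 0) (p (nat_lit 0x686058702) (nat_lit 0) (p (nat_lit 0x8605850482) (nat_lit 0) (p (nat_lit 0x585048402) (nat_lit 0) (p (nat_lit 0x160014) (nat_lit 0) (p (nat_lit 0x60592) (nat_lit 0) (p (nat_lit 0x48512) (nat_lit 0) (p (nat_lit 0x50392) (nat_lit 0) (p (nat_lit 0x38312) (nat_lit 0) (p (nat_lit 0x40212) (nat_lit 0) (p (nat_lit 0x28192) (nat_lit 0) (p (nat_lit 0x30092) (nat_lit 0) (p (nat_lit 0x18012) (nat_lit 0) pn)))))))))))))))))))))))))))) :=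
  Cl.node (nat_lit 0x20000c) (nat_lit 2) (by decide +kernel) (ClAll.succ (ClAll.succ ClAll.zero n13) s85)

def n25 : Cl (O (nat_lit 3)) (R (nat_lit 135377))
    (p (nat_lit 0x200004) (nat_lit 0) (p (nat_lit 0x109) (nat_lit 1) (p (nat_lit 0x89) (nat_lit 1) (p (nat_lit 0x101) (nat_lit 0) (p (nat_lit 0xc1) (nat_lit 1) (p (nat_lit 0x119) (nat_lit 1) (p (nat_lit 0xd1) (nat_lit 0) (p (nat_lit 0x81) (nat_lit 0) (p (nat_lit 0x41) (nat_lit 1) (p (nat_lit 0x8b0a09890a9a) (nat_lit 0) (p (nat_lit 0xa8989088a1a) (nat_lit 0) (p (nat_lit 0x8a090888079a) (nat_lit 0) (p (nat_lit 0x9888807871a) (nat_lit 0) (p (nat_lit 0x80000800090787088a) (nat_lit 0) (p (nat_lit 0x80000800088706860a) (nat_lit 0) (p (nat_lit 0x8706860782) (nat_lit 0) (p (nat_lit 0x686058702) (nat_lit 0) (p (nat_lit 0x8605850482) (nat_lit 0) (p (nat_lit 0x585048402) (nat_lit 0) (p (nat_lit 0x160014) (nat_lit 0) (p (nat_lit 0x60592)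 (nat_lit 0) (p (nat_lit 0x48512) (nat_lit 0) (p (nat_lit 0x50392) (nat_lit 0) (p (nat_lit 0x38312) (nat_lit 0) (p (nat_lit 0x40212) (nat_lit 0) (p (nat_lit 0x28192) (nat_lit 0) (p (nat_lit 0x30092) (nat_lit 0) (p (nat_lit 0x18012) (nat_lit 0) pn)))))))))))))))))))))))))))) :=
  Cl.node (nat_lit 0x20000c) (nat_lit 2) (by decide +kernel) (ClAll.succ (ClAll.succ ClAll.zero n14) s96)

def n26 : Cl (O (nat_lit 3)) (R (nat_lit 135377))
    (p (nat_lit 0x20000c) (nat_lit 0) (p (nat_lit 0x200004) (nat_lit 0) (p (nat_lit 0x89) (nat_lit 1) (p (nat_lit 0x101) (nat_lit 1) (p (nat_lit 0xc1) (nat_lit 1) (p (nat_lit 0x119) (nat_lit 1) (p (nat_lit 0xd1) (nat_lit 0) (p (nat_lit 0x81) (nat_lit 0) (p (nat_lit 0x41) (nat_lit 1) (p (nat_lit 0x8b0a09890a9a) (nat_lit 0) (p (nat_lit 0xa8989088a1a) (nat_lit 0) (p (nat_lit 0x8a090888079a) (nat_lit 0) (p (nat_lit 0x9888807871a) (nat_lit 0) (p (nat_lit 0x80000800090787088a)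 (nat_lit 0) (p (nat_lit 0x80000800088706860a) (nat_lit 0) (p (nat_lit 0x8706860782) (nat_lit 0) (p (nat_lit 0x686058702) (nat_lit 0) (p (nat_lit 0x8605850482) (nat_lit 0) (p (nat_lit 0x585048402) (nat_lit 0) (p (nat_lit 0x160014) (nat_lit 0) (p (nat_lit 0x60592) (nat_lit 0) (p (nat_lit 0x48512) (nat_lit 0) (p (nat_lit 0x50392) (nat_lit 0) (p (nat_lit 0x38312) (nat_lit 0) (p (nat_lit 0x40212) (nat_lit 0) (p (nat_lit 0x28192) (nat_lit 0) (p (nat_lit 0x30092) (nat_lit 0) (p (nat_lit 0x18012) (nat_lit 0) pn)))))))))))))))))))))))))))) :=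
  Cl.node (nat_lit 0xb0014) (nat_lit 2) (by decide +kernel) (ClAll.succ (ClAll.succ ClAll.zero n15) s102)

def n27 : Cl (O (nat_lit 3)) (R (nat_lit 135377))
    (p (nat_lit 0x200004) (nat_lit 0) (p (nat_lit 0xc9) (nat_lit 0) (p (nat_lit 0x89) (nat_lit 1) (p (nat_lit 0x109) (nat_lit 1) (p (nat_lit 0x101) (nat_lit 0) (p (nat_lit 0x111) (nat_lit 0) (p (nat_lit 0xd1) (nat_lit 1) (p (nat_lit 0x81) (nat_lit 0) (p (nat_lit 0x41) (nat_lit 1) (p (nat_lit 0x8b0a09890a9a) (nat_lit 0) (p (nat_lit 0xa8989088a1a) (nat_lit 0) (p (nat_lit 0x8a090888079a) (nat_lit 0) (p (nat_lit 0x9888807871a) (nat_lit 0) (p (nat_lit 0x80000800090787088a) (nat_lit 0) (p (nat_lit 0x80000800088706860a) (nat_lit 0) (p (nat_lit 0x8706860782) (nat_lit 0) (p (nat_lit 0x686058702) (nat_lit 0) (p (nat_lit 0x8605850482) (nat_lit 0) (p (nat_lit 0x585048402) (nat_lit 0) (p (nat_lit 0x160014) (nat_lit 0) (p (nat_lit 0x60592)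 (nat_lit 0) (p (nat_lit 0x48512) (nat_lit 0) (p (nat_lit 0x50392) (nat_lit 0) (p (nat_lit 0x38312) (nat_lit 0) (p (nat_lit 0x40212) (nat_lit 0) (p (nat_lit 0x28192) (nat_lit 0) (p (nat_lit 0x30092) (nat_lit 0) (p (nat_lit 0x18012) (nat_lit 0) pn)))))))))))))))))))))))))))) :=
  Cl.node (nat_lit 0x20000c) (nat_lit 2) (by decide +kernel) (ClAll.succ (ClAll.succ ClAll.zero n16) s111)

def n28 : Cl (O (nat_lit 3)) (R (nat_lit 135377))
    (p (nat_lit 0x20000c) (nat_lit 0) (p (nat_lit 0x200004) (nat_lit 0) (p (nat_lit 0xc9) (nat_lit 0) (p (nat_lit 0x89) (nat_lit 1) (p (nat_lit 0x101) (nat_lit 1) (p (nat_lit 0x111) (nat_lit 0) (p (nat_lit 0xd1) (nat_lit 1) (p (nat_lit 0x81) (nat_lit 0) (p (nat_lit 0x41) (nat_lit 1) (p (nat_lit 0x8b0a09890a9a) (nat_lit 0) (p (nat_lit 0xa8989088a1a) (nat_lit 0) (p (nat_lit 0x8a090888079a) (nat_lit 0) (p (nat_lit 0x9888807871a) (nat_lit 0) (p (nat_lit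 0x80000800090787088a) (nat_lit 0) (p (nat_lit 0x80000800088706860a) (nat_lit 0) (p (nat_lit 0x8706860782) (nat_lit 0) (p (nat_lit 0x686058702) (nat_lit 0) (p (nat_lit 0x8605850482) (nat_lit 0) (p (nat_lit 0x585048402) (nat_lit 0) (p (nat_lit 0x160014) (nat_lit 0) (p (nat_lit 0x60592) (nat_lit 0) (p (nat_lit 0x48512) (nat_lit 0) (p (nat_lit 0x50392) (nat_lit 0) (p (nat_lit 0x38312) (nat_lit 0) (p (nat_lit 0x40212) (nat_lit 0) (p (nat_lit 0x28192) (nat_lit 0) (p (nat_lit 0x30092) (nat_lit 0) (p (nat_lit 0x18012) (nat_lit 0) pn)))))))))))))))))))))))))))) :=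
  Cl.node (nat_lit 0xb0014) (nat_lit 2) (by decide +kernel) (ClAll.succ (ClAll.succ ClAll.zero n17) s119)

def n29 : Cl (O (nat_lit 3)) (R (nat_lit 135377))
    (p (nat_lit 0xb0014) (nat_lit 0) (p (nat_lit 0x200004) (nat_lit 1) (p (nat_lit 0xc9) (nat_lit 0) (p (nat_lit 0x89) (nat_lit 1) (p (nat_lit 0x101) (nat_lit 1) (p (nat_lit 0x111) (nat_lit 0) (p (nat_lit 0xd1) (nat_lit 1) (p (nat_lit 0x81) (nat_lit 0) (p (nat_lit 0x41) (nat_lit 1) (p (nat_lit 0x8b0a09890a9a) (nat_lit 0) (p (nat_lit 0xa8989088a1a) (nat_lit 0) (p (nat_lit 0x8a090888079a) (nat_lit 0) (p (nat_lit 0x9888807871a) (nat_lit 0) (p (nat_lit 0x80000800090787088a) (nat_lit 0) (p (nat_lit 0x80000800088706860a) (nat_lit 0) (p (nat_lit 0x8706860782) (nat_lit 0) (p (nat_lit 0x686058702) (nat_lit 0) (p (nat_lit 0x8605850482) (nat_lit 0) (p (nat_lit 0x585048402) (nat_lit 0) (p (nat_lit 0x160014) (nat_lit 0) (p (nat_lit 0x60592)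 (nat_lit 0) (p (nat_lit 0x48512) (nat_lit 0) (p (nat_lit 0x50392) (nat_lit 0) (p (nat_lit 0x38312) (nat_lit 0) (p (nat_lit 0x40212) (nat_lit 0) (p (nat_lit 0x28192) (nat_lit 0) (p (nat_lit 0x30092) (nat_lit 0) (p (nat_lit 0x18012) (nat_lit 0) pn)))))))))))))))))))))))))))) :=
  Cl.node (nat_lit 0x20000c) (nat_lit 2) (by decide +kernel) (ClAll.succ (ClAll.succ ClAll.zero s121) s122)

def n30 : Cl (O (nat_lit 3)) (R (nat_lit 135377))
    (p (nat_lit 0x200004) (nat_lit 0) (p (nat_lit 0xc9) (nat_lit 1) (p (nat_lit 0x81) (nat_lit 0) (p (nat_lit 0x101) (nat_lit 1) (p (nat_lit 0x119) (nat_lit 0) (p (nat_lit 0xd1) (nat_lit 0) (p (nat_lit 0x89) (nat_lit 0) (p (nat_lit 0x41) (nat_lit 0) (p (nat_lit 0x8b0a09890a9a) (nat_lit 0) (p (nat_lit 0xa8989088a1a) (nat_lit 0) (p (nat_lit 0x8a090888079a) (nat_lit 0) (p (nat_lit 0x9888807871a) (nat_lit 0) (p (nat_lit 0x80000800090787088a) (nat_lit 0)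 (p (nat_lit 0x80000800088706860a) (nat_lit 0) (p (nat_lit 0x8706860782) (nat_lit 0) (p (nat_lit 0x686058702) (nat_lit 0) (p (nat_lit 0x8605850482) (nat_lit 0) (p (nat_lit 0x585048402) (nat_lit 0) (p (nat_lit 0x160014) (nat_lit 0) (p (nat_lit 0x60592) (nat_lit 0) (p (nat_lit 0x48512) (nat_lit 0) (p (nat_lit 0x50392) (nat_lit 0) (p (nat_lit 0x38312) (nat_lit 0) (p (nat_lit 0x40212) (nat_lit 0) (p (nat_lit 0x28192) (nat_lit 0) (p (nat_lit 0x30092) (nat_lit 0) (p (nat_lit 0x18012) (nat_lit 0) pn))))))))))))))))))))))))))) :=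
  Cl.node (nat_lit 0x20000c) (nat_lit 2) (by decide +kernel) (ClAll.succ (ClAll.succ ClAll.zero n18) s7)

def n31 : Cl (O (nat_lit 3)) (R (nat_lit 135377))
    (p (nat_lit 0xc9) (nat_lit 1) (p (nat_lit 0xc1) (nat_lit 0) (p (nat_lit 0x81) (nat_lit 1) (p (nat_lit 0x101) (nat_lit 1) (p (nat_lit 0x119) (nat_lit 0) (p (nat_lit 0xd1) (nat_lit 0) (p (nat_lit 0x89) (nat_lit 0) (p (nat_lit 0x41) (nat_lit 0) (p (nat_lit 0x8b0a09890a9a) (nat_lit 0) (p (nat_lit 0xa8989088a1a) (nat_lit 0) (p (nat_lit 0x8a090888079a) (nat_lit 0) (p (nat_lit 0x9888807871a) (nat_lit 0) (p (nat_lit 0x80000800090787088a) (nat_lit 0) (p (nat_lit 0x80000800088706860a) (nat_lit 0) (p (nat_lit 0x8706860782) (nat_lit 0) (p (nat_lit 0x686058702) (nat_lit 0) (p (nat_lit 0x8605850482) (nat_lit 0) (p (nat_lit 0x585048402) (nat_lit 0) (p (nat_lit 0x160014) (nat_lit 0) (p (nat_lit 0x60592) (nat_lit 0) (p (nat_lit 0x48512)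 (nat_lit 0) (p (nat_lit 0x50392) (nat_lit 0) (p (nat_lit 0x38312) (nat_lit 0) (p (nat_lit 0x40212) (nat_lit 0) (p (nat_lit 0x28192) (nat_lit 0) (p (nat_lit 0x30092) (nat_lit 0) (p (nat_lit 0x18012) (nat_lit 0) pn))))))))))))))))))))))))))) :=
  Cl.node (nat_lit 0x200004) (nat_lit 2) (by decide +kernel) (ClAll.succ (ClAll.succ ClAll.zero n19) s13)

def n32 : Cl (O (nat_lit 3)) (R (nat_lit 135377))
    (p (nat_lit 0x109) (nat_lit 1) (p (nat_lit 0x101) (nat_lit 0) (p (nat_lit 0x81) (nat_lit 1) (p (nat_lit 0xc1) (nat_lit 1) (p (nat_lit 0x119) (nat_lit 1) (p (nat_lit 0xd1) (nat_lit 0) (p (nat_lit 0x89) (nat_lit 0) (p (nat_lit 0x41) (nat_lit 0) (p (nat_lit 0x8b0a09890a9a) (nat_lit 0) (p (nat_lit 0xa8989088a1a) (nat_lit 0) (p (nat_lit 0x8a090888079a) (nat_lit 0) (p (nat_lit 0x9888807871a) (nat_lit 0) (p (nat_lit 0x80000800090787088a) (nat_lit 0) (p (nat_lit 0x80000800088706860a) (nat_lit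 0) (p (nat_lit 0x8706860782) (nat_lit 0) (p (nat_lit 0x686058702) (nat_lit 0) (p (nat_lit 0x8605850482) (nat_lit 0) (p (nat_lit 0x585048402) (nat_lit 0) (p (nat_lit 0x160014) (nat_lit 0) (p (nat_lit 0x60592) (nat_lit 0) (p (nat_lit 0x48512) (nat_lit 0) (p (nat_lit 0x50392) (nat_lit 0) (p (nat_lit 0x38312) (nat_lit 0) (p (nat_lit 0x40212) (nat_lit 0) (p (nat_lit 0x28192) (nat_lit 0) (p (nat_lit 0x30092) (nat_lit 0) (p (nat_lit 0x18012) (nat_lit 0) pn))))))))))))))))))))))))))) :=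
  Cl.node (nat_lit 0x200004) (nat_lit 2) (by decide +kernel) (ClAll.succ (ClAll.succ ClAll.zero n20) s24)

def n33 : Cl (O (nat_lit 3)) (R (nat_lit 135377))
    (p (nat_lit 0x200004) (nat_lit 0) (p (nat_lit 0xc1) (nat_lit 0) (p (nat_lit 0x81) (nat_lit 1) (p (nat_lit 0x101) (nat_lit 1) (p (nat_lit 0x111) (nat_lit 0) (p (nat_lit 0xd1) (nat_lit 1) (p (nat_lit 0x89) (nat_lit 0) (p (nat_lit 0x41) (nat_lit 0) (p (nat_lit 0x8b0a09890a9a) (nat_lit 0) (p (nat_lit 0xa8989088a1a) (nat_lit 0) (p (nat_lit 0x8a090888079a) (nat_lit 0) (p (nat_lit 0x9888807871a) (nat_lit 0) (p (nat_lit 0x80000800090787088a) (nat_lit 0) (p (nat_lit 0x80000800088706860a) (nat_lit 0) (p (nat_lit 0x8706860782) (nat_lit 0) (p (nat_lit 0x686058702) (nat_lit 0) (p (nat_lit 0x8605850482) (nat_lit 0) (p (nat_lit 0x585048402) (nat_lit 0) (p (nat_lit 0x160014) (nat_lit 0) (p (nat_lit 0x60592) (nat_lit 0) (p (nat_lit 0x48512)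 (nat_lit 0) (p (nat_lit 0x50392) (nat_lit 0) (p (nat_lit 0x38312) (nat_lit 0) (p (nat_lit 0x40212) (nat_lit 0) (p (nat_lit 0x28192) (nat_lit 0) (p (nat_lit 0x30092) (nat_lit 0) (p (nat_lit 0x18012) (nat_lit 0) pn))))))))))))))))))))))))))) :=
  Cl.node (nat_lit 0x20000c) (nat_lit 2) (by decide +kernel) (ClAll.succ (ClAll.succ ClAll.zero n21) s36)

def n34 : Cl (O (nat_lit 3)) (R (nat_lit 135377))
    (p (nat_lit 0x200004) (nat_lit 0) (p (nat_lit 0xd1) (nat_lit 1) (p (nat_lit 0x109) (nat_lit 1) (p (nat_lit 0x101) (nat_lit 0) (p (nat_lit 0x119) (nat_lit 0) (p (nat_lit 0xc9) (nat_lit 0) (p (nat_lit 0x89) (nat_lit 1) (p (nat_lit 0x41) (nat_lit 0) (p (nat_lit 0x8b0a09890a9a) (nat_lit 0) (p (nat_lit 0xa8989088a1a) (nat_lit 0) (p (nat_lit 0x8a090888079a) (nat_lit 0) (p (nat_lit 0x9888807871a) (nat_lit 0) (p (nat_lit 0x80000800090787088a) (nat_lit 0) (p (nat_lit 0x80000800088706860a)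 (nat_lit 0) (p (nat_lit 0x8706860782) (nat_lit 0) (p (nat_lit 0x686058702) (nat_lit 0) (p (nat_lit 0x8605850482) (nat_lit 0) (p (nat_lit 0x585048402) (nat_lit 0) (p (nat_lit 0x160014) (nat_lit 0) (p (nat_lit 0x60592) (nat_lit 0) (p (nat_lit 0x48512) (nat_lit 0) (p (nat_lit 0x50392) (nat_lit 0) (p (nat_lit 0x38312) (nat_lit 0) (p (nat_lit 0x40212) (nat_lit 0) (p (nat_lit 0x28192) (nat_lit 0) (p (nat_lit 0x30092) (nat_lit 0) (p (nat_lit 0x18012) (nat_lit 0) pn))))))))))))))))))))))))))) :=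
  Cl.node (nat_lit 0x20000c) (nat_lit 2) (by decide +kernel) (ClAll.succ (ClAll.succ ClAll.zero s48) s49)

def n35 : Cl (O (nat_lit 3)) (R (nat_lit 135377))
    (p (nat_lit 0x200004) (nat_lit 0) (p (nat_lit 0x89) (nat_lit 0) (p (nat_lit 0x109) (nat_lit 1) (p (nat_lit 0x101) (nat_lit 0) (p (nat_lit 0x119) (nat_lit 0) (p (nat_lit 0xd1) (nat_lit 0) (p (nat_lit 0x81) (nat_lit 0) (p (nat_lit 0x41) (nat_lit 1) (p (nat_lit 0x8b0a09890a9a) (nat_lit 0) (p (nat_lit 0xa8989088a1a) (nat_lit 0) (p (nat_lit 0x8a090888079a) (nat_lit 0) (p (nat_lit 0x9888807871a) (nat_lit 0) (p (nat_lit 0x80000800090787088a) (nat_lit 0) (p (nat_lit 0x80000800088706860a) (nat_lit 0) (p (nat_lit 0x8706860782) (nat_lit 0) (p (nat_lit 0x686058702) (nat_lit 0) (p (nat_lit 0x8605850482) (nat_lit 0) (p (nat_lit 0x585048402) (nat_lit 0) (p (nat_lit 0x160014) (nat_lit 0) (p (nat_lit 0x60592) (nat_lit 0) (p (nat_lit 0x48512)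 (nat_lit 0) (p (nat_lit 0x50392) (nat_lit 0) (p (nat_lit 0x38312) (nat_lit 0) (p (nat_lit 0x40212) (nat_lit 0) (p (nat_lit 0x28192) (nat_lit 0) (p (nat_lit 0x30092) (nat_lit 0) (p (nat_lit 0x18012) (nat_lit 0) pn))))))))))))))))))))))))))) :=
  Cl.node (nat_lit 0x20000c) (nat_lit 2) (by decide +kernel) (ClAll.succ (ClAll.succ ClAll.zero s63) s64)

def n36 : Cl (O (nat_lit 3)) (R (nat_lit 135377))
    (p (nat_lit 0xc9) (nat_lit 0) (p (nat_lit 0x89) (nat_lit 1) (p (nat_lit 0x109) (nat_lit 1) (p (nat_lit 0x101) (nat_lit 0) (p (nat_lit 0x119) (nat_lit 0) (p (nat_lit 0xd1) (nat_lit 0) (p (nat_lit 0x81) (nat_lit 0) (p (nat_lit 0x41) (nat_lit 1) (p (nat_lit 0x8b0a09890a9a) (nat_lit 0) (p (nat_lit 0xa8989088a1a) (nat_lit 0) (p (nat_lit 0x8a090888079a) (nat_lit 0) (p (nat_lit 0x9888807871a) (nat_lit 0) (p (nat_lit 0x80000800090787088a) (nat_lit 0) (p (nat_lit 0x80000800088706860a) (nat_lit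 0) (p (nat_lit 0x8706860782) (nat_lit 0) (p (nat_lit 0x686058702) (nat_lit 0) (p (nat_lit 0x8605850482) (nat_lit 0) (p (nat_lit 0x585048402) (nat_lit 0) (p (nat_lit 0x160014) (nat_lit 0) (p (nat_lit 0x60592) (nat_lit 0) (p (nat_lit 0x48512) (nat_lit 0) (p (nat_lit 0x50392) (nat_lit 0) (p (nat_lit 0x38312) (nat_lit 0) (p (nat_lit 0x40212) (nat_lit 0) (p (nat_lit 0x28192) (nat_lit 0) (p (nat_lit 0x30092) (nat_lit 0) (p (nat_lit 0x18012) (nat_lit 0) pn))))))))))))))))))))))))))) :=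
  Cl.node (nat_lit 0x200004) (nat_lit 2) (by decide +kernel) (ClAll.succ (ClAll.succ ClAll.zero s66) s67)

def n37 : Cl (O (nat_lit 3)) (R (nat_lit 135377))
    (p (nat_lit 0xc9) (nat_lit 1) (p (nat_lit 0x89) (nat_lit 1) (p (nat_lit 0xc1) (nat_lit 0) (p (nat_lit 0x101) (nat_lit 1) (p (nat_lit 0x119) (nat_lit 0) (p (nat_lit 0xd1) (nat_lit 0) (p (nat_lit 0x81) (nat_lit 0) (p (nat_lit 0x41) (nat_lit 1) (p (nat_lit 0x8b0a09890a9a) (nat_lit 0) (p (nat_lit 0xa8989088a1a) (nat_lit 0) (p (nat_lit 0x8a090888079a) (nat_lit 0) (p (nat_lit 0x9888807871a) (nat_lit 0) (p (nat_lit 0x80000800090787088a) (nat_lit 0) (p (nat_lit 0x80000800088706860a) (nat_lit 0) (p (nat_lit 0x8706860782) (nat_lit 0) (p (nat_lit 0x686058702) (nat_lit 0) (p (nat_lit 0x8605850482) (nat_lit 0) (p (nat_lit 0x585048402) (nat_lit 0) (p (nat_lit 0x160014) (nat_lit 0) (p (nat_lit 0x60592) (nat_lit 0) (p (nat_lit 0x48512)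 (nat_lit 0) (p (nat_lit 0x50392) (nat_lit 0) (p (nat_lit 0x38312) (nat_lit 0) (p (nat_lit 0x40212) (nat_lit 0) (p (nat_lit 0x28192) (nat_lit 0) (p (nat_lit 0x30092) (nat_lit 0) (p (nat_lit 0x18012) (nat_lit 0) pn))))))))))))))))))))))))))) :=
  Cl.node (nat_lit 0x200004) (nat_lit 2) (by decide +kernel) (ClAll.succ (ClAll.succ ClAll.zero n22) s75)

def n38 : Cl (O (nat_lit 3)) (R (nat_lit 135377))
    (p (nat_lit 0x200004) (nat_lit 0) (p (nat_lit 0x89) (nat_lit 1) (p (nat_lit 0xc1) (nat_lit 1) (p (nat_lit 0x101) (nat_lit 1) (p (nat_lit 0x119) (nat_lit 0) (p (nat_lit 0xd1) (nat_lit 0) (p (nat_lit 0x81) (nat_lit 0) (p (nat_lit 0x41) (nat_lit 1) (p (nat_lit 0x8b0a09890a9a) (nat_lit 0) (p (nat_lit 0xa8989088a1a) (nat_lit 0) (p (nat_lit 0x8a090888079a) (nat_lit 0) (p (nat_lit 0x9888807871a) (nat_lit 0) (p (nat_lit 0x80000800090787088a) (nat_lit 0) (p (nat_lit 0x80000800088706860a) (nat_lit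 0) (p (nat_lit 0x8706860782) (nat_lit 0) (p (nat_lit 0x686058702) (nat_lit 0) (p (nat_lit 0x8605850482) (nat_lit 0) (p (nat_lit 0x585048402) (nat_lit 0) (p (nat_lit 0x160014) (nat_lit 0) (p (nat_lit 0x60592) (nat_lit 0) (p (nat_lit 0x48512) (nat_lit 0) (p (nat_lit 0x50392) (nat_lit 0) (p (nat_lit 0x38312) (nat_lit 0) (p (nat_lit 0x40212) (nat_lit 0) (p (nat_lit 0x28192) (nat_lit 0) (p (nat_lit 0x30092) (nat_lit 0) (p (nat_lit 0x18012) (nat_lit 0) pn))))))))))))))))))))))))))) :=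
  Cl.node (nat_lit 0x20000c) (nat_lit 2) (by decide +kernel) (ClAll.succ (ClAll.succ ClAll.zero n23) s82)

def n39 : Cl (O (nat_lit 3)) (R (nat_lit 135377))
    (p (nat_lit 0x200004) (nat_lit 1) (p (nat_lit 0x89) (nat_lit 1) (p (nat_lit 0xc1) (nat_lit 1) (p (nat_lit 0x101) (nat_lit 1) (p (nat_lit 0x119) (nat_lit 0) (p (nat_lit 0xd1) (nat_lit 0) (p (nat_lit 0x81) (nat_lit 0) (p (nat_lit 0x41) (nat_lit 1) (p (nat_lit 0x8b0a09890a9a) (nat_lit 0) (p (nat_lit 0xa8989088a1a) (nat_lit 0) (p (nat_lit 0x8a090888079a) (nat_lit 0) (p (nat_lit 0x9888807871a) (nat_lit 0) (p (nat_lit 0x80000800090787088a) (nat_lit 0) (p (nat_lit 0x80000800088706860a) (nat_lit 0) (p (nat_lit 0x8706860782) (nat_lit 0) (p (nat_lit 0x686058702) (nat_lit 0) (p (nat_lit 0x8605850482) (nat_lit 0) (p (nat_lit 0x585048402) (nat_lit 0) (p (nat_lit 0x160014) (nat_lit 0) (p (nat_lit 0x60592) (nat_lit 0) (p (nat_lit 0x48512)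 (nat_lit 0) (p (nat_lit 0x50392) (nat_lit 0) (p (nat_lit 0x38312) (nat_lit 0) (p (nat_lit 0x40212) (nat_lit 0) (p (nat_lit 0x28192) (nat_lit 0) (p (nat_lit 0x30092) (nat_lit 0) (p (nat_lit 0x18012) (nat_lit 0) pn))))))))))))))))))))))))))) :=
  Cl.node (nat_lit 0xb0014) (nat_lit 2) (by decide +kernel) (ClAll.succ (ClAll.succ ClAll.zero n24) s86)

def n40 : Cl (O (nat_lit 3)) (R (nat_lit 135377))
    (p (nat_lit 0x109) (nat_lit 1) (p (nat_lit 0x89) (nat_lit 1) (p (nat_lit 0xc9) (nat_lit 1) (p (nat_lit 0xc1) (nat_lit 0) (p (nat_lit 0x119) (nat_lit 1) (p (nat_lit 0xd1) (nat_lit 0) (p (nat_lit 0x81) (nat_lit 0) (p (nat_lit 0x41) (nat_lit 1) (p (nat_lit 0x8b0a09890a9a) (nat_lit 0) (p (nat_lit 0xa8989088a1a) (nat_lit 0) (p (nat_lit 0x8a090888079a) (nat_lit 0) (p (nat_lit 0x9888807871a) (nat_lit 0) (p (nat_lit 0x80000800090787088a) (nat_lit 0) (p (nat_lit 0x80000800088706860a) (nat_lit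 0) (p (nat_lit 0x8706860782) (nat_lit 0) (p (nat_lit 0x686058702) (nat_lit 0) (p (nat_lit 0x8605850482) (nat_lit 0) (p (nat_lit 0x585048402) (nat_lit 0) (p (nat_lit 0x160014) (nat_lit 0) (p (nat_lit 0x60592) (nat_lit 0) (p (nat_lit 0x48512) (nat_lit 0) (p (nat_lit 0x50392) (nat_lit 0) (p (nat_lit 0x38312) (nat_lit 0) (p (nat_lit 0x40212) (nat_lit 0) (p (nat_lit 0x28192) (nat_lit 0) (p (nat_lit 0x30092) (nat_lit 0) (p (nat_lit 0x18012) (nat_lit 0) pn))))))))))))))))))))))))))) :=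
  Cl.node (nat_lit 0x200004) (nat_lit 2) (by decide +kernel) (ClAll.succ (ClAll.succ ClAll.zero s90) s91)

def n41 : Cl (O (nat_lit 3)) (R (nat_lit 135377))
    (p (nat_lit 0x109) (nat_lit 1) (p (nat_lit 0x89) (nat_lit 1) (p (nat_lit 0x101) (nat_lit 0) (p (nat_lit 0xc1) (nat_lit 1) (p (nat_lit 0x119) (nat_lit 1) (p (nat_lit 0xd1) (nat_lit 0) (p (nat_lit 0x81) (nat_lit 0) (p (nat_lit 0x41) (nat_lit 1) (p (nat_lit 0x8b0a09890a9a) (nat_lit 0) (p (nat_lit 0xa8989088a1a) (nat_lit 0) (p (nat_lit 0x8a090888079a) (nat_lit 0) (p (nat_lit 0x9888807871a) (nat_lit 0) (p (nat_lit 0x80000800090787088a) (nat_lit 0) (p (nat_lit 0x80000800088706860a) (nat_lit 0) (p (nat_lit 0x8706860782) (nat_lit 0) (p (nat_lit 0x686058702) (nat_lit 0) (p (nat_lit 0x8605850482) (nat_lit 0) (p (nat_lit 0x585048402) (nat_lit 0) (p (nat_lit 0x160014) (nat_lit 0) (p (nat_lit 0x60592) (nat_lit 0) (p (nat_lit 0x48512)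 (nat_lit 0) (p (nat_lit 0x50392) (nat_lit 0) (p (nat_lit 0x38312) (nat_lit 0) (p (nat_lit 0x40212) (nat_lit 0) (p (nat_lit 0x28192) (nat_lit 0) (p (nat_lit 0x30092) (nat_lit 0) (p (nat_lit 0x18012) (nat_lit 0) pn))))))))))))))))))))))))))) :=
  Cl.node (nat_lit 0x200004) (nat_lit 2) (by decide +kernel) (ClAll.succ (ClAll.succ ClAll.zero n25) s97)

def n42 : Cl (O (nat_lit 3)) (R (nat_lit 135377))
    (p (nat_lit 0x200004) (nat_lit 0) (p (nat_lit 0x89) (nat_lit 1) (p (nat_lit 0x101) (nat_lit 1) (p (nat_lit 0xc1) (nat_lit 1) (p (nat_lit 0x119) (nat_lit 1) (p (nat_lit 0xd1) (nat_lit 0) (p (nat_lit 0x81) (nat_lit 0) (p (nat_lit 0x41) (nat_lit 1) (p (nat_lit 0x8b0a09890a9a) (nat_lit 0) (p (nat_lit 0xa8989088a1a) (nat_lit 0) (p (nat_lit 0x8a090888079a) (nat_lit 0) (p (nat_lit 0x9888807871a) (nat_lit 0) (p (nat_lit 0x80000800090787088a) (nat_lit 0) (p (nat_lit 0x80000800088706860a) (nat_lit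 0) (p (nat_lit 0x8706860782) (nat_lit 0) (p (nat_lit 0x686058702) (nat_lit 0) (p (nat_lit 0x8605850482) (nat_lit 0) (p (nat_lit 0x585048402) (nat_lit 0) (p (nat_lit 0x160014) (nat_lit 0) (p (nat_lit 0x60592) (nat_lit 0) (p (nat_lit 0x48512) (nat_lit 0) (p (nat_lit 0x50392) (nat_lit 0) (p (nat_lit 0x38312) (nat_lit 0) (p (nat_lit 0x40212) (nat_lit 0) (p (nat_lit 0x28192) (nat_lit 0) (p (nat_lit 0x30092) (nat_lit 0) (p (nat_lit 0x18012) (nat_lit 0) pn))))))))))))))))))))))))))) :=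
  Cl.node (nat_lit 0x20000c) (nat_lit 2) (by decide +kernel) (ClAll.succ (ClAll.succ ClAll.zero n26) s103)

def n43 : Cl (O (nat_lit 3)) (R (nat_lit 135377))
    (p (nat_lit 0xc9) (nat_lit 0) (p (nat_lit 0x89) (nat_lit 1) (p (nat_lit 0x109) (nat_lit 1) (p (nat_lit 0x101) (nat_lit 0) (p (nat_lit 0x111) (nat_lit 0) (p (nat_lit 0xd1) (nat_lit 1) (p (nat_lit 0x81) (nat_lit 0) (p (nat_lit 0x41) (nat_lit 1) (p (nat_lit 0x8b0a09890a9a) (nat_lit 0) (p (nat_lit 0xa8989088a1a) (nat_lit 0) (p (nat_lit 0x8a090888079a) (nat_lit 0) (p (nat_lit 0x9888807871a) (nat_lit 0) (p (nat_lit 0x80000800090787088a) (nat_lit 0) (p (nat_lit 0x80000800088706860a) (nat_lit 0) (p (nat_lit 0x8706860782) (nat_lit 0) (p (nat_lit 0x686058702) (nat_lit 0) (p (nat_lit 0x8605850482) (nat_lit 0) (p (nat_lit 0x585048402) (nat_lit 0) (p (nat_lit 0x160014) (nat_lit 0) (p (nat_lit 0x60592) (nat_lit 0) (p (nat_lit 0x48512)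 (nat_lit 0) (p (nat_lit 0x50392) (nat_lit 0) (p (nat_lit 0x38312) (nat_lit 0) (p (nat_lit 0x40212) (nat_lit 0) (p (nat_lit 0x28192) (nat_lit 0) (p (nat_lit 0x30092) (nat_lit 0) (p (nat_lit 0x18012) (nat_lit 0) pn))))))))))))))))))))))))))) :=
  Cl.node (nat_lit 0x200004) (nat_lit 2) (by decide +kernel) (ClAll.succ (ClAll.succ ClAll.zero n27) s112)

def n44 : Cl (O (nat_lit 3)) (R (nat_lit 135377))
    (p (nat_lit 0x200004) (nat_lit 0) (p (nat_lit 0xc9) (nat_lit 0) (p (nat_lit 0x89) (nat_lit 1) (p (nat_lit 0x101) (nat_lit 1) (p (nat_lit 0x111) (nat_lit 0) (p (nat_lit 0xd1) (nat_lit 1) (p (nat_lit 0x81) (nat_lit 0) (p (nat_lit 0x41) (nat_lit 1) (p (nat_lit 0x8b0a09890a9a) (nat_lit 0) (p (nat_lit 0xa8989088a1a) (nat_lit 0) (p (nat_lit 0x8a090888079a) (nat_lit 0) (p (nat_lit 0x9888807871a) (nat_lit 0) (p (nat_lit 0x80000800090787088a) (nat_lit 0) (p (nat_lit 0x80000800088706860a)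 (nat_lit 0) (p (nat_lit 0x8706860782) (nat_lit 0) (p (nat_lit 0x686058702) (nat_lit 0) (p (nat_lit 0x8605850482) (nat_lit 0) (p (nat_lit 0x585048402) (nat_lit 0) (p (nat_lit 0x160014) (nat_lit 0) (p (nat_lit 0x60592) (nat_lit 0) (p (nat_lit 0x48512) (nat_lit 0) (p (nat_lit 0x50392) (nat_lit 0) (p (nat_lit 0x38312) (nat_lit 0) (p (nat_lit 0x40212) (nat_lit 0) (p (nat_lit 0x28192) (nat_lit 0) (p (nat_lit 0x30092) (nat_lit 0) (p (nat_lit 0x18012) (nat_lit 0) pn))))))))))))))))))))))))))) :=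
  Cl.node (nat_lit 0x20000c) (nat_lit 2) (by decide +kernel) (ClAll.succ (ClAll.succ ClAll.zero n28) s120)

def n45 : Cl (O (nat_lit 3)) (R (nat_lit 135377))
    (p (nat_lit 0x200004) (nat_lit 1) (p (nat_lit 0xc9) (nat_lit 0) (p (nat_lit 0x89) (nat_lit 1) (p (nat_lit 0x101) (nat_lit 1) (p (nat_lit 0x111) (nat_lit 0) (p (nat_lit 0xd1) (nat_lit 1) (p (nat_lit 0x81) (nat_lit 0) (p (nat_lit 0x41) (nat_lit 1) (p (nat_lit 0x8b0a09890a9a) (nat_lit 0) (p (nat_lit 0xa8989088a1a) (nat_lit 0) (p (nat_lit 0x8a090888079a) (nat_lit 0) (p (nat_lit 0x9888807871a) (nat_lit 0) (p (nat_lit 0x80000800090787088a) (nat_lit 0) (p (nat_lit 0x80000800088706860a) (nat_lit 0) (p (nat_lit 0x8706860782) (nat_lit 0) (p (nat_lit 0x686058702) (nat_lit 0) (p (nat_lit 0x8605850482) (nat_lit 0) (p (nat_lit 0x585048402) (nat_lit 0) (p (nat_lit 0x160014) (nat_lit 0) (p (nat_lit 0x60592) (nat_lit 0) (p (nat_lit 0x48512)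 (nat_lit 0) (p (nat_lit 0x50392) (nat_lit 0) (p (nat_lit 0x38312) (nat_lit 0) (p (nat_lit 0x40212) (nat_lit 0) (p (nat_lit 0x28192) (nat_lit 0) (p (nat_lit 0x30092) (nat_lit 0) (p (nat_lit 0x18012) (nat_lit 0) pn))))))))))))))))))))))))))) :=
  Cl.node (nat_lit 0xb0014) (nat_lit 2) (by decide +kernel) (ClAll.succ (ClAll.succ ClAll.zero n29) s123)

def n46 : Cl (O (nat_lit 3)) (R (nat_lit 135377))
    (p (nat_lit 0xd1) (nat_lit 1) (p (nat_lit 0x111) (nat_lit 1) (p (nat_lit 0x109) (nat_lit 0) (p (nat_lit 0x101) (nat_lit 0) (p (nat_lit 0x119) (nat_lit 0) (p (nat_lit 0xc1) (nat_lit 0) (p (nat_lit 0x81) (nat_lit 1) (p (nat_lit 0x41) (nat_lit 1) (p (nat_lit 0x8b0a09890a9a) (nat_lit 0) (p (nat_lit 0xa8989088a1a) (nat_lit 0) (p (nat_lit 0x8a090888079a) (nat_lit 0) (p (nat_lit 0x9888807871a) (nat_lit 0) (p (nat_lit 0x80000800090787088a) (nat_lit 0) (p (nat_lit 0x80000800088706860a) (nat_lit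 0) (p (nat_lit 0x8706860782) (nat_lit 0) (p (nat_lit 0x686058702) (nat_lit 0) (p (nat_lit 0x8605850482) (nat_lit 0) (p (nat_lit 0x585048402) (nat_lit 0) (p (nat_lit 0x160014) (nat_lit 0) (p (nat_lit 0x60592) (nat_lit 0) (p (nat_lit 0x48512) (nat_lit 0) (p (nat_lit 0x50392) (nat_lit 0) (p (nat_lit 0x38312) (nat_lit 0) (p (nat_lit 0x40212) (nat_lit 0) (p (nat_lit 0x28192) (nat_lit 0) (p (nat_lit 0x30092) (nat_lit 0) (p (nat_lit 0x18012) (nat_lit 0) pn))))))))))))))))))))))))))) :=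
  Cl.node (nat_lit 0x200004) (nat_lit 2) (by decide +kernel) (ClAll.succ (ClAll.succ ClAll.zero s132) s133)

def n47 : Cl (O (nat_lit 3)) (R (nat_lit 135377))
    (p (nat_lit 0xd1) (nat_lit 1) (p (nat_lit 0xc9) (nat_lit 0) (p (nat_lit 0x109) (nat_lit 1) (p (nat_lit 0x101) (nat_lit 0) (p (nat_lit 0x119) (nat_lit 0) (p (nat_lit 0xc1) (nat_lit 0) (p (nat_lit 0x81) (nat_lit 1) (p (nat_lit 0x41) (nat_lit 1) (p (nat_lit 0x8b0a09890a9a) (nat_lit 0) (p (nat_lit 0xa8989088a1a) (nat_lit 0) (p (nat_lit 0x8a090888079a) (nat_lit 0) (p (nat_lit 0x9888807871a) (nat_lit 0) (p (nat_lit 0x80000800090787088a) (nat_lit 0) (p (nat_lit 0x80000800088706860a) (nat_lit 0) (p (nat_lit 0x8706860782) (nat_lit 0) (p (nat_lit 0x686058702) (nat_lit 0) (p (nat_lit 0x8605850482) (nat_lit 0) (p (nat_lit 0x585048402) (nat_lit 0) (p (nat_lit 0x160014) (nat_lit 0) (p (nat_lit 0x60592) (nat_lit 0) (p (nat_lit 0x48512)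 (nat_lit 0) (p (nat_lit 0x50392) (nat_lit 0) (p (nat_lit 0x38312) (nat_lit 0) (p (nat_lit 0x40212) (nat_lit 0) (p (nat_lit 0x28192) (nat_lit 0) (p (nat_lit 0x30092) (nat_lit 0) (p (nat_lit 0x18012) (nat_lit 0) pn))))))))))))))))))))))))))) :=
  Cl.node (nat_lit 0x200004) (nat_lit 2) (by decide +kernel) (ClAll.succ (ClAll.succ ClAll.zero s135) s136)

def n48 : Cl (O (nat_lit 3)) (R (nat_lit 135377))
    (p (nat_lit 0x200004) (nat_lit 0) (p (nat_lit 0x111) (nat_lit 1) (p (nat_lit 0xd1) (nat_lit 1) (p (nat_lit 0xc9) (nat_lit 0) (p (nat_lit 0x119) (nat_lit 1) (p (nat_lit 0xc1) (nat_lit 0) (p (nat_lit 0x81) (nat_lit 1) (p (nat_lit 0x41) (nat_lit 1) (p (nat_lit 0x8b0a09890a9a) (nat_lit 0) (p (nat_lit 0xa8989088a1a) (nat_lit 0) (p (nat_lit 0x8a090888079a) (nat_lit 0) (p (nat_lit 0x9888807871a) (nat_lit 0) (p (nat_lit 0x80000800090787088a) (nat_lit 0) (p (nat_lit 0x80000800088706860a)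 (nat_lit 0) (p (nat_lit 0x8706860782) (nat_lit 0) (p (nat_lit 0x686058702) (nat_lit 0) (p (nat_lit 0x8605850482) (nat_lit 0) (p (nat_lit 0x585048402) (nat_lit 0) (p (nat_lit 0x160014) (nat_lit 0) (p (nat_lit 0x60592) (nat_lit 0) (p (nat_lit 0x48512) (nat_lit 0) (p (nat_lit 0x50392) (nat_lit 0) (p (nat_lit 0x38312) (nat_lit 0) (p (nat_lit 0x40212) (nat_lit 0) (p (nat_lit 0x28192) (nat_lit 0) (p (nat_lit 0x30092) (nat_lit 0) (p (nat_lit 0x18012) (nat_lit 0) pn))))))))))))))))))))))))))) :=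
  Cl.node (nat_lit 0x20000c) (nat_lit 2) (by decide +kernel) (ClAll.succ (ClAll.succ ClAll.zero s144) s145)

def n49 : Cl (O (nat_lit 3)) (R (nat_lit 135377))
    (p (nat_lit 0xc9) (nat_lit 1) (p (nat_lit 0x81) (nat_lit 0) (p (nat_lit 0x101) (nat_lit 1) (p (nat_lit 0x119) (nat_lit 0) (p (nat_lit 0xd1) (nat_lit 0) (p (nat_lit 0x89) (nat_lit 0) (p (nat_lit 0x41) (nat_lit 0) (p (nat_lit 0x8b0a09890a9a) (nat_lit 0) (p (nat_lit 0xa8989088a1a) (nat_lit 0) (p (nat_lit 0x8a090888079a) (nat_lit 0) (p (nat_lit 0x9888807871a) (nat_lit 0) (p (nat_lit 0x80000800090787088a) (nat_lit 0) (p (nat_lit 0x80000800088706860a) (nat_lit 0) (p (nat_lit 0x8706860782) (nat_lit 0) (p (nat_lit 0x686058702) (nat_lit 0) (p (nat_lit 0x8605850482) (nat_lit 0) (p (nat_lit 0x585048402) (nat_lit 0) (p (nat_lit 0x160014) (nat_lit 0) (p (nat_lit 0x60592) (nat_lit 0) (p (nat_lit 0x48512) (nat_lit 0) (p (nat_lit 0x50392)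 (nat_lit 0) (p (nat_lit 0x38312) (nat_lit 0) (p (nat_lit 0x40212) (nat_lit 0) (p (nat_lit 0x28192) (nat_lit 0) (p (nat_lit 0x30092) (nat_lit 0) (p (nat_lit 0x18012) (nat_lit 0) pn)))))))))))))))))))))))))) :=
  Cl.node (nat_lit 0x200004) (nat_lit 2) (by decide +kernel) (ClAll.succ (ClAll.succ ClAll.zero n30) s8)

def n50 : Cl (O (nat_lit 3)) (R (nat_lit 135377))
    (p (nat_lit 0xc1) (nat_lit 0) (p (nat_lit 0x81) (nat_lit 1) (p (nat_lit 0x101) (nat_lit 1) (p (nat_lit 0x119) (nat_lit 0) (p (nat_lit 0xd1) (nat_lit 0) (p (nat_lit 0x89) (nat_lit 0) (p (nat_lit 0x41) (nat_lit 0) (p (nat_lit 0x8b0a09890a9a) (nat_lit 0) (p (nat_lit 0xa8989088a1a) (nat_lit 0) (p (nat_lit 0x8a090888079a) (nat_lit 0) (p (nat_lit 0x9888807871a) (nat_lit 0) (p (nat_lit 0x80000800090787088a) (nat_lit 0) (p (nat_lit 0x80000800088706860a) (nat_lit 0) (p (nat_lit 0x8706860782) (nat_lit 0) (p (nat_lit 0x686058702)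 (nat_lit 0) (p (nat_lit 0x8605850482) (nat_lit 0) (p (nat_lit 0x585048402) (nat_lit 0) (p (nat_lit 0x160014) (nat_lit 0) (p (nat_lit 0x60592) (nat_lit 0) (p (nat_lit 0x48512) (nat_lit 0) (p (nat_lit 0x50392) (nat_lit 0) (p (nat_lit 0x38312) (nat_lit 0) (p (nat_lit 0x40212) (nat_lit 0) (p (nat_lit 0x28192) (nat_lit 0) (p (nat_lit 0x30092) (nat_lit 0) (p (nat_lit 0x18012) (nat_lit 0) pn)))))))))))))))))))))))))) :=
  Cl.node (nat_lit 0xc9) (nat_lit 2) (by decide +kernel) (ClAll.succ (ClAll.succ ClAll.zero s9) n31)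

def n51 : Cl (O (nat_lit 3)) (R (nat_lit 135377))
    (p (nat_lit 0x109) (nat_lit 1) (p (nat_lit 0xc9) (nat_lit 1) (p (nat_lit 0xc1) (nat_lit 0) (p (nat_lit 0x119) (nat_lit 1) (p (nat_lit 0xd1) (nat_lit 0) (p (nat_lit 0x89) (nat_lit 0) (p (nat_lit 0x41) (nat_lit 0) (p (nat_lit 0x8b0a09890a9a) (nat_lit 0) (p (nat_lit 0xa8989088a1a) (nat_lit 0) (p (nat_lit 0x8a090888079a) (nat_lit 0) (p (nat_lit 0x9888807871a) (nat_lit 0) (p (nat_lit 0x80000800090787088a) (nat_lit 0) (p (nat_lit 0x80000800088706860a) (nat_lit 0) (p (nat_lit 0x8706860782) (nat_lit 0) (p (nat_lit 0x686058702) (nat_lit 0) (p (nat_lit 0x8605850482) (nat_lit 0) (p (nat_lit 0x585048402) (nat_lit 0) (p (nat_lit 0x160014) (nat_lit 0) (p (nat_lit 0x60592) (nat_lit 0) (p (nat_lit 0x48512) (nat_lit 0) (p (nat_lit 0x50392) (nat_lit 0) (p (nat_lit 0x38312) (nat_lit 0) (p (nat_lit 0x40212) (nat_lit 0) (p (nat_lit 0x28192) (nat_lit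 0) (p (nat_lit 0x30092) (nat_lit 0) (p (nat_lit 0x18012) (nat_lit 0) pn)))))))))))))))))))))))))) :=
  Cl.node (nat_lit 0x200004) (nat_lit 2) (by decide +kernel) (ClAll.succ (ClAll.succ ClAll.zero s17) s18)

def n52 : Cl (O (nat_lit 3)) (R (nat_lit 135377))
    (p (nat_lit 0x101) (nat_lit 0) (p (nat_lit 0x81) (nat_lit 1) (p (nat_lit 0xc1) (nat_lit 1) (p (nat_lit 0x119) (nat_lit 1) (p (nat_lit 0xd1) (nat_lit 0) (p (nat_lit 0x89) (nat_lit 0) (p (nat_lit 0x41) (nat_lit 0) (p (nat_lit 0x8b0a09890a9a) (nat_lit 0) (p (nat_lit 0xa8989088a1a) (nat_lit 0) (p (nat_lit 0x8a090888079a) (nat_lit 0) (p (nat_lit 0x9888807871a) (nat_lit 0) (p (nat_lit 0x80000800090787088a) (nat_lit 0) (p (nat_lit 0x80000800088706860a) (nat_lit 0) (p (nat_lit 0x8706860782) (nat_lit 0) (p (nat_lit 0x686058702) (nat_lit 0) (p (nat_lit 0x8605850482) (nat_lit 0) (p (nat_lit 0x585048402) (nat_lit 0) (p (nat_lit 0x160014)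 (nat_lit 0) (p (nat_lit 0x60592) (nat_lit 0) (p (nat_lit 0x48512) (nat_lit 0) (p (nat_lit 0x50392) (nat_lit 0) (p (nat_lit 0x38312) (nat_lit 0) (p (nat_lit 0x40212) (nat_lit 0) (p (nat_lit 0x28192) (nat_lit 0) (p (nat_lit 0x30092) (nat_lit 0) (p (nat_lit 0x18012) (nat_lit 0) pn)))))))))))))))))))))))))) :=
  Cl.node (nat_lit 0x109) (nat_lit 2) (by decide +kernel) (ClAll.succ (ClAll.succ ClAll.zero s21) n32)

def n53 : Cl (O (nat_lit 3)) (R (nat_lit 135377))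
    (p (nat_lit 0x200004) (nat_lit 0) (p (nat_lit 0x81) (nat_lit 0) (p (nat_lit 0x101) (nat_lit 1) (p (nat_lit 0x111) (nat_lit 0) (p (nat_lit 0xd1) (nat_lit 1) (p (nat_lit 0x89) (nat_lit 0) (p (nat_lit 0x41) (nat_lit 0) (p (nat_lit 0x8b0a09890a9a) (nat_lit 0) (p (nat_lit 0xa8989088a1a) (nat_lit 0) (p (nat_lit 0x8a090888079a) (nat_lit 0) (p (nat_lit 0x9888807871a) (nat_lit 0) (p (nat_lit 0x80000800090787088a) (nat_lit 0) (p (nat_lit 0x80000800088706860a) (nat_lit 0) (p (nat_lit 0x8706860782) (nat_lit 0) (p (nat_lit 0x686058702) (nat_lit 0) (p (nat_lit 0x8605850482) (nat_lit 0) (p (nat_lit 0x585048402) (nat_lit 0) (p (nat_lit 0x160014) (nat_lit 0) (p (nat_lit 0x60592) (nat_lit 0) (p (nat_lit 0x48512) (nat_lit 0) (p (nat_lit 0x50392) (nat_lit 0) (p (nat_lit 0x38312) (nat_lit 0) (p (nat_lit 0x40212) (nat_lit 0) (p (nat_lit 0x28192) (nat_lit 0) (p (nat_lit 0x30092) (nat_lit 0) (p (nat_lit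 0x18012) (nat_lit 0) pn)))))))))))))))))))))))))) :=
  Cl.node (nat_lit 0x20000c) (nat_lit 2) (by decide +kernel) (ClAll.succ (ClAll.succ ClAll.zero s29) s30)

def n54 : Cl (O (nat_lit 3)) (R (nat_lit 135377))
    (p (nat_lit 0xc1) (nat_lit 0) (p (nat_lit 0x81) (nat_lit 1) (p (nat_lit 0x101) (nat_lit 1) (p (nat_lit 0x111) (nat_lit 0) (p (nat_lit 0xd1) (nat_lit 1) (p (nat_lit 0x89) (nat_lit 0) (p (nat_lit 0x41) (nat_lit 0) (p (nat_lit 0x8b0a09890a9a) (nat_lit 0) (p (nat_lit 0xa8989088a1a) (nat_lit 0) (p (nat_lit 0x8a090888079a) (nat_lit 0) (p (nat_lit 0x9888807871a) (nat_lit 0) (p (nat_lit 0x80000800090787088a) (nat_lit 0) (p (nat_lit 0x80000800088706860a) (nat_lit 0) (p (nat_lit 0x8706860782) (nat_lit 0) (p (nat_lit 0x686058702) (nat_lit 0) (p (nat_lit 0x8605850482) (nat_lit 0) (p (nat_lit 0x585048402) (nat_lit 0) (p (nat_lit 0x160014) (nat_lit 0) (p (nat_lit 0x60592) (nat_lit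 0) (p (nat_lit 0x48512) (nat_lit 0) (p (nat_lit 0x50392) (nat_lit 0) (p (nat_lit 0x38312) (nat_lit 0) (p (nat_lit 0x40212) (nat_lit 0) (p (nat_lit 0x28192) (nat_lit 0) (p (nat_lit 0x30092) (nat_lit 0) (p (nat_lit 0x18012) (nat_lit 0) pn)))))))))))))))))))))))))) :=
  Cl.node (nat_lit 0x200004) (nat_lit 2) (by decide +kernel) (ClAll.succ (ClAll.succ ClAll.zero n33) s37)

def n55 : Cl (O (nat_lit 3)) (R (nat_lit 135377))
    (p (nat_lit 0x101) (nat_lit 0) (p (nat_lit 0xc1) (nat_lit 1) (p (nat_lit 0x81) (nat_lit 1) (p (nat_lit 0x111) (nat_lit 1) (p (nat_lit 0xd1) (nat_lit 1) (p (nat_lit 0x89) (nat_lit 0) (p (nat_lit 0x41) (nat_lit 0) (p (nat_lit 0x8b0a09890a9a) (nat_lit 0) (p (nat_lit 0xa8989088a1a) (nat_lit 0) (p (nat_lit 0x8a090888079a) (nat_lit 0) (p (nat_lit 0x9888807871a) (nat_lit 0) (p (nat_lit 0x80000800090787088a) (nat_lit 0) (p (nat_lit 0x80000800088706860a) (nat_lit 0)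 (p (nat_lit 0x8706860782) (nat_lit 0) (p (nat_lit 0x686058702) (nat_lit 0) (p (nat_lit 0x8605850482) (nat_lit 0) (p (nat_lit 0x585048402) (nat_lit 0) (p (nat_lit 0x160014) (nat_lit 0) (p (nat_lit 0x60592) (nat_lit 0) (p (nat_lit 0x48512) (nat_lit 0) (p (nat_lit 0x50392) (nat_lit 0) (p (nat_lit 0x38312) (nat_lit 0) (p (nat_lit 0x40212) (nat_lit 0) (p (nat_lit 0x28192) (nat_lit 0) (p (nat_lit 0x30092) (nat_lit 0) (p (nat_lit 0x18012) (nat_lit 0) pn)))))))))))))))))))))))))) :=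
  Cl.node (nat_lit 0x200004) (nat_lit 2) (by decide +kernel) (ClAll.succ (ClAll.succ ClAll.zero s41) s42)

def n56 : Cl (O (nat_lit 3)) (R (nat_lit 135377))
    (p (nat_lit 0x111) (nat_lit 1) (p (nat_lit 0x109) (nat_lit 0) (p (nat_lit 0x101) (nat_lit 0) (p (nat_lit 0x119) (nat_lit 0) (p (nat_lit 0xc9) (nat_lit 0) (p (nat_lit 0x89) (nat_lit 1) (p (nat_lit 0x41) (nat_lit 0) (p (nat_lit 0x8b0a09890a9a) (nat_lit 0) (p (nat_lit 0xa8989088a1a) (nat_lit 0) (p (nat_lit 0x8a090888079a) (nat_lit 0) (p (nat_lit 0x9888807871a) (nat_lit 0) (p (nat_lit 0x80000800090787088a) (nat_lit 0) (p (nat_lit 0x80000800088706860a) (nat_lit 0) (p (nat_lit 0x8706860782) (nat_lit 0) (p (nat_lit 0x686058702) (nat_lit 0) (p (nat_lit 0x8605850482) (nat_lit 0) (p (nat_lit 0x585048402) (nat_lit 0) (p (nat_lit 0x160014) (nat_lit 0) (p (nat_lit 0x60592) (nat_lit 0) (p (nat_lit 0x48512) (nat_lit 0) (p (nat_lit 0x50392)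 (nat_lit 0) (p (nat_lit 0x38312) (nat_lit 0) (p (nat_lit 0x40212) (nat_lit 0) (p (nat_lit 0x28192) (nat_lit 0) (p (nat_lit 0x30092) (nat_lit 0) (p (nat_lit 0x18012) (nat_lit 0) pn)))))))))))))))))))))))))) :=
  Cl.node (nat_lit 0xd1) (nat_lit 2) (by decide +kernel) (ClAll.succ (ClAll.succ ClAll.zero s45) s46)

def n57 : Cl (O (nat_lit 3)) (R (nat_lit 135377))
    (p (nat_lit 0xd1) (nat_lit 1) (p (nat_lit 0x109) (nat_lit 1) (p (nat_lit 0x101) (nat_lit 0) (p (nat_lit 0x119) (nat_lit 0) (p (nat_lit 0xc9) (nat_lit 0) (p (nat_lit 0x89) (nat_lit 1) (p (nat_lit 0x41) (nat_lit 0) (p (nat_lit 0x8b0a09890a9a) (nat_lit 0) (p (nat_lit 0xa8989088a1a) (nat_lit 0) (p (nat_lit 0x8a090888079a) (nat_lit 0) (p (nat_lit 0x9888807871a) (nat_lit 0) (p (nat_lit 0x80000800090787088a) (nat_lit 0) (p (nat_lit 0x80000800088706860a) (nat_lit 0) (p (nat_lit 0x8706860782) (nat_lit 0) (p (nat_lit 0x686058702)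 (nat_lit 0) (p (nat_lit 0x8605850482) (nat_lit 0) (p (nat_lit 0x585048402) (nat_lit 0) (p (nat_lit 0x160014) (nat_lit 0) (p (nat_lit 0x60592) (nat_lit 0) (p (nat_lit 0x48512) (nat_lit 0) (p (nat_lit 0x50392) (nat_lit 0) (p (nat_lit 0x38312) (nat_lit 0) (p (nat_lit 0x40212) (nat_lit 0) (p (nat_lit 0x28192) (nat_lit 0) (p (nat_lit 0x30092) (nat_lit 0) (p (nat_lit 0x18012) (nat_lit 0) pn)))))))))))))))))))))))))) :=
  Cl.node (nat_lit 0x200004) (nat_lit 2) (by decide +kernel) (ClAll.succ (ClAll.succ ClAll.zero n34) s50)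

def n58 : Cl (O (nat_lit 3)) (R (nat_lit 135377))
    (p (nat_lit 0x111) (nat_lit 1) (p (nat_lit 0xd1) (nat_lit 1) (p (nat_lit 0xc1) (nat_lit 0) (p (nat_lit 0x119) (nat_lit 1) (p (nat_lit 0xc9) (nat_lit 0) (p (nat_lit 0x89) (nat_lit 1) (p (nat_lit 0x41) (nat_lit 0) (p (nat_lit 0x8b0a09890a9a) (nat_lit 0) (p (nat_lit 0xa8989088a1a) (nat_lit 0) (p (nat_lit 0x8a090888079a) (nat_lit 0) (p (nat_lit 0x9888807871a) (nat_lit 0) (p (nat_lit 0x80000800090787088a) (nat_lit 0) (p (nat_lit 0x80000800088706860a) (nat_lit 0) (p (nat_lit 0x8706860782) (nat_lit 0) (p (nat_lit 0x686058702) (nat_lit 0) (p (nat_lit 0x8605850482) (nat_lit 0) (p (nat_lit 0x585048402) (nat_lit 0) (p (nat_lit 0x160014) (nat_lit 0) (p (nat_lit 0x60592) (nat_lit 0) (p (nat_lit 0x48512) (nat_lit 0) (p (nat_lit 0x50392) (nat_lit 0) (p (nat_lit 0x38312) (nat_lit 0) (p (nat_lit 0x40212) (nat_lit 0) (p (nat_lit 0x28192) (nat_lit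 0) (p (nat_lit 0x30092) (nat_lit 0) (p (nat_lit 0x18012) (nat_lit 0) pn)))))))))))))))))))))))))) :=
  Cl.node (nat_lit 0x200004) (nat_lit 2) (by decide +kernel) (ClAll.succ (ClAll.succ ClAll.zero s56) s57)

def n59 : Cl (O (nat_lit 3)) (R (nat_lit 135377))
    (p (nat_lit 0x89) (nat_lit 0) (p (nat_lit 0x109) (nat_lit 1) (p (nat_lit 0x101) (nat_lit 0) (p (nat_lit 0x119) (nat_lit 0) (p (nat_lit 0xd1) (nat_lit 0) (p (nat_lit 0x81) (nat_lit 0) (p (nat_lit 0x41) (nat_lit 1) (p (nat_lit 0x8b0a09890a9a) (nat_lit 0) (p (nat_lit 0xa8989088a1a) (nat_lit 0) (p (nat_lit 0x8a090888079a) (nat_lit 0) (p (nat_lit 0x9888807871a) (nat_lit 0) (p (nat_lit 0x80000800090787088a) (nat_lit 0) (p (nat_lit 0x80000800088706860a) (nat_lit 0) (p (nat_lit 0x8706860782) (nat_lit 0) (p (nat_lit 0x686058702) (nat_lit 0) (p (nat_lit 0x8605850482) (nat_lit 0) (p (nat_lit 0x585048402) (nat_lit 0) (p (nat_lit 0x160014)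 (nat_lit 0) (p (nat_lit 0x60592) (nat_lit 0) (p (nat_lit 0x48512) (nat_lit 0) (p (nat_lit 0x50392) (nat_lit 0) (p (nat_lit 0x38312) (nat_lit 0) (p (nat_lit 0x40212) (nat_lit 0) (p (nat_lit 0x28192) (nat_lit 0) (p (nat_lit 0x30092) (nat_lit 0) (p (nat_lit 0x18012) (nat_lit 0) pn)))))))))))))))))))))))))) :=
  Cl.node (nat_lit 0x200004) (nat_lit 2) (by decide +kernel) (ClAll.succ (ClAll.succ ClAll.zero n35) s65)

def n60 : Cl (O (nat_lit 3)) (R (nat_lit 135377))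
    (p (nat_lit 0x89) (nat_lit 1) (p (nat_lit 0x109) (nat_lit 1) (p (nat_lit 0x101) (nat_lit 0) (p (nat_lit 0x119) (nat_lit 0) (p (nat_lit 0xd1) (nat_lit 0) (p (nat_lit 0x81) (nat_lit 0) (p (nat_lit 0x41) (nat_lit 1) (p (nat_lit 0x8b0a09890a9a) (nat_lit 0) (p (nat_lit 0xa8989088a1a) (nat_lit 0) (p (nat_lit 0x8a090888079a) (nat_lit 0) (p (nat_lit 0x9888807871a) (nat_lit 0) (p (nat_lit 0x80000800090787088a) (nat_lit 0) (p (nat_lit 0x80000800088706860a) (nat_lit 0) (p (nat_lit 0x8706860782) (nat_lit 0) (p (nat_lit 0x686058702) (nat_lit 0) (p (nat_lit 0x8605850482) (nat_lit 0) (p (nat_lit 0x585048402) (nat_lit 0) (p (nat_lit 0x160014) (nat_lit 0) (p (nat_lit 0x60592) (nat_lit 0) (p (nat_lit 0x48512) (nat_lit 0) (p (nat_lit 0x50392) (nat_lit 0) (p (nat_lit 0x38312) (nat_lit 0) (p (nat_lit 0x40212) (nat_lit 0) (p (nat_lit 0x28192) (nat_lit 0) (p (nat_lit 0x30092) (nat_lit 0) (p (nat_lit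 0x18012) (nat_lit 0) pn)))))))))))))))))))))))))) :=
  Cl.node (nat_lit 0xc9) (nat_lit 2) (by decide +kernel) (ClAll.succ (ClAll.succ ClAll.zero n36) s68)

def n61 : Cl (O (nat_lit 3)) (R (nat_lit 135377))
    (p (nat_lit 0x89) (nat_lit 1) (p (nat_lit 0xc1) (nat_lit 0) (p (nat_lit 0x101) (nat_lit 1) (p (nat_lit 0x119) (nat_lit 0) (p (nat_lit 0xd1) (nat_lit 0) (p (nat_lit 0x81) (nat_lit 0) (p (nat_lit 0x41) (nat_lit 1) (p (nat_lit 0x8b0a09890a9a) (nat_lit 0) (p (nat_lit 0xa8989088a1a) (nat_lit 0) (p (nat_lit 0x8a090888079a) (nat_lit 0) (p (nat_lit 0x9888807871a) (nat_lit 0) (p (nat_lit 0x80000800090787088a) (nat_lit 0) (p (nat_lit 0x80000800088706860a) (nat_lit 0) (p (nat_lit 0x8706860782) (nat_lit 0) (p (nat_lit 0x686058702) (nat_lit 0) (p (nat_lit 0x8605850482) (nat_lit 0) (p (nat_lit 0x585048402) (nat_lit 0) (p (nat_lit 0x160014) (nat_lit 0) (p (nat_lit 0x60592) (nat_lit 0)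 (p (nat_lit 0x48512) (nat_lit 0) (p (nat_lit 0x50392) (nat_lit 0) (p (nat_lit 0x38312) (nat_lit 0) (p (nat_lit 0x40212) (nat_lit 0) (p (nat_lit 0x28192) (nat_lit 0) (p (nat_lit 0x30092) (nat_lit 0) (p (nat_lit 0x18012) (nat_lit 0) pn)))))))))))))))))))))))))) :=
  Cl.node (nat_lit 0xc9) (nat_lit 2) (by decide +kernel) (ClAll.succ (ClAll.succ ClAll.zero s70) n37)

def n62 : Cl (O (nat_lit 3)) (R (nat_lit 135377))
    (p (nat_lit 0x89) (nat_lit 1) (p (nat_lit 0xc1) (nat_lit 1) (p (nat_lit 0x101) (nat_lit 1) (p (nat_lit 0x119) (nat_lit 0) (p (nat_lit 0xd1) (nat_lit 0) (p (nat_lit 0x81) (nat_lit 0) (p (nat_lit 0x41) (nat_lit 1) (p (nat_lit 0x8b0a09890a9a) (nat_lit 0) (p (nat_lit 0xa8989088a1a) (nat_lit 0) (p (nat_lit 0x8a090888079a) (nat_lit 0) (p (nat_lit 0x9888807871a) (nat_lit 0) (p (nat_lit 0x80000800090787088a) (nat_lit 0) (p (nat_lit 0x80000800088706860a) (nat_lit 0) (p (nat_lit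 0x8706860782) (nat_lit 0) (p (nat_lit 0x686058702) (nat_lit 0) (p (nat_lit 0x8605850482) (nat_lit 0) (p (nat_lit 0x585048402) (nat_lit 0) (p (nat_lit 0x160014) (nat_lit 0) (p (nat_lit 0x60592) (nat_lit 0) (p (nat_lit 0x48512) (nat_lit 0) (p (nat_lit 0x50392) (nat_lit 0) (p (nat_lit 0x38312) (nat_lit 0) (p (nat_lit 0x40212) (nat_lit 0) (p (nat_lit 0x28192) (nat_lit 0) (p (nat_lit 0x30092) (nat_lit 0) (p (nat_lit 0x18012) (nat_lit 0) pn)))))))))))))))))))))))))) :=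
  Cl.node (nat_lit 0x200004) (nat_lit 2) (by decide +kernel) (ClAll.succ (ClAll.succ ClAll.zero n38) n39)

def n63 : Cl (O (nat_lit 3)) (R (nat_lit 135377))
    (p (nat_lit 0x89) (nat_lit 1) (p (nat_lit 0xc9) (nat_lit 1) (p (nat_lit 0xc1) (nat_lit 0) (p (nat_lit 0x119) (nat_lit 1) (p (nat_lit 0xd1) (nat_lit 0) (p (nat_lit 0x81) (nat_lit 0) (p (nat_lit 0x41) (nat_lit 1) (p (nat_lit 0x8b0a09890a9a) (nat_lit 0) (p (nat_lit 0xa8989088a1a) (nat_lit 0) (p (nat_lit 0x8a090888079a) (nat_lit 0) (p (nat_lit 0x9888807871a) (nat_lit 0) (p (nat_lit 0x80000800090787088a) (nat_lit 0) (p (nat_lit 0x80000800088706860a) (nat_lit 0) (p (nat_lit 0x8706860782) (nat_lit 0) (p (nat_lit 0x686058702) (nat_lit 0) (p (nat_lit 0x8605850482) (nat_lit 0) (p (nat_lit 0x585048402) (nat_lit 0) (p (nat_lit 0x160014) (nat_lit 0) (p (nat_lit 0x60592) (nat_lit 0) (p (nat_lit 0x48512) (nat_lit 0) (p (nat_lit 0x50392)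 (nat_lit 0) (p (nat_lit 0x38312) (nat_lit 0) (p (nat_lit 0x40212) (nat_lit 0) (p (nat_lit 0x28192) (nat_lit 0) (p (nat_lit 0x30092) (nat_lit 0) (p (nat_lit 0x18012) (nat_lit 0) pn)))))))))))))))))))))))))) :=
  Cl.node (nat_lit 0x109) (nat_lit 2) (by decide +kernel) (ClAll.succ (ClAll.succ ClAll.zero s89) n40)

def n64 : Cl (O (nat_lit 3)) (R (nat_lit 135377))
    (p (nat_lit 0x89) (nat_lit 1) (p (nat_lit 0x101) (nat_lit 0) (p (nat_lit 0xc1) (nat_lit 1) (p (nat_lit 0x119) (nat_lit 1) (p (nat_lit 0xd1) (nat_lit 0) (p (nat_lit 0x81) (nat_lit 0) (p (nat_lit 0x41) (nat_lit 1) (p (nat_lit 0x8b0a09890a9a) (nat_lit 0) (p (nat_lit 0xa8989088a1a) (nat_lit 0) (p (nat_lit 0x8a090888079a) (nat_lit 0) (p (nat_lit 0x9888807871a) (nat_lit 0) (p (nat_lit 0x80000800090787088a) (nat_lit 0) (p (nat_lit 0x80000800088706860a) (nat_lit 0) (p (nat_lit 0x8706860782) (nat_lit 0) (p (nat_lit 0x686058702)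 (nat_lit 0) (p (nat_lit 0x8605850482) (nat_lit 0) (p (nat_lit 0x585048402) (nat_lit 0) (p (nat_lit 0x160014) (nat_lit 0) (p (nat_lit 0x60592) (nat_lit 0) (p (nat_lit 0x48512) (nat_lit 0) (p (nat_lit 0x50392) (nat_lit 0) (p (nat_lit 0x38312) (nat_lit 0) (p (nat_lit 0x40212) (nat_lit 0) (p (nat_lit 0x28192) (nat_lit 0) (p (nat_lit 0x30092) (nat_lit 0) (p (nat_lit 0x18012) (nat_lit 0) pn)))))))))))))))))))))))))) :=
  Cl.node (nat_lit 0x109) (nat_lit 2) (by decide +kernel) (ClAll.succ (ClAll.succ ClAll.zero s93) n41)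

def n65 : Cl (O (nat_lit 3)) (R (nat_lit 135377))
    (p (nat_lit 0x89) (nat_lit 1) (p (nat_lit 0x101) (nat_lit 1) (p (nat_lit 0xc1) (nat_lit 1) (p (nat_lit 0x119) (nat_lit 1) (p (nat_lit 0xd1) (nat_lit 0) (p (nat_lit 0x81) (nat_lit 0) (p (nat_lit 0x41) (nat_lit 1) (p (nat_lit 0x8b0a09890a9a) (nat_lit 0) (p (nat_lit 0xa8989088a1a) (nat_lit 0) (p (nat_lit 0x8a090888079a) (nat_lit 0) (p (nat_lit 0x9888807871a) (nat_lit 0) (p (nat_lit 0x80000800090787088a) (nat_lit 0) (p (nat_lit 0x80000800088706860a) (nat_lit 0) (p (nat_lit 0x8706860782) (nat_lit 0) (p (nat_lit 0x686058702) (nat_lit 0) (p (nat_lit 0x8605850482) (nat_lit 0) (p (nat_lit 0x585048402) (nat_lit 0) (p (nat_lit 0x160014) (nat_lit 0) (p (nat_lit 0x60592) (nat_lit 0) (p (nat_lit 0x48512) (nat_lit 0) (p (nat_lit 0x50392) (nat_lit 0) (p (nat_lit 0x38312) (nat_lit 0) (p (nat_lit 0x40212) (nat_lit 0) (p (nat_lit 0x28192) (nat_lit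 0) (p (nat_lit 0x30092) (nat_lit 0) (p (nat_lit 0x18012) (nat_lit 0) pn)))))))))))))))))))))))))) :=
  Cl.node (nat_lit 0x200004) (nat_lit 2) (by decide +kernel) (ClAll.succ (ClAll.succ ClAll.zero n42) s104)

def n66 : Cl (O (nat_lit 3)) (R (nat_lit 135377))
    (p (nat_lit 0x89) (nat_lit 1) (p (nat_lit 0x109) (nat_lit 1) (p (nat_lit 0x101) (nat_lit 0) (p (nat_lit 0x111) (nat_lit 0) (p (nat_lit 0xd1) (nat_lit 1) (p (nat_lit 0x81) (nat_lit 0) (p (nat_lit 0x41) (nat_lit 1) (p (nat_lit 0x8b0a09890a9a) (nat_lit 0) (p (nat_lit 0xa8989088a1a) (nat_lit 0) (p (nat_lit 0x8a090888079a) (nat_lit 0) (p (nat_lit 0x9888807871a) (nat_lit 0) (p (nat_lit 0x80000800090787088a) (nat_lit 0) (p (nat_lit 0x80000800088706860a) (nat_lit 0) (p (nat_lit 0x8706860782) (nat_lit 0) (p (nat_lit 0x686058702) (nat_lit 0) (p (nat_lit 0x8605850482) (nat_lit 0) (p (nat_lit 0x585048402) (nat_lit 0) (p (nat_lit 0x160014)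 (nat_lit 0) (p (nat_lit 0x60592) (nat_lit 0) (p (nat_lit 0x48512) (nat_lit 0) (p (nat_lit 0x50392) (nat_lit 0) (p (nat_lit 0x38312) (nat_lit 0) (p (nat_lit 0x40212) (nat_lit 0) (p (nat_lit 0x28192) (nat_lit 0) (p (nat_lit 0x30092) (nat_lit 0) (p (nat_lit 0x18012) (nat_lit 0) pn)))))))))))))))))))))))))) :=
  Cl.node (nat_lit 0xc9) (nat_lit 2) (by decide +kernel) (ClAll.succ (ClAll.succ ClAll.zero n43) s113)

def n67 : Cl (O (nat_lit 3)) (R (nat_lit 135377))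
    (p (nat_lit 0xc9) (nat_lit 0) (p (nat_lit 0x89) (nat_lit 1) (p (nat_lit 0x101) (nat_lit 1) (p (nat_lit 0x111) (nat_lit 0) (p (nat_lit 0xd1) (nat_lit 1) (p (nat_lit 0x81) (nat_lit 0) (p (nat_lit 0x41) (nat_lit 1) (p (nat_lit 0x8b0a09890a9a) (nat_lit 0) (p (nat_lit 0xa8989088a1a) (nat_lit 0) (p (nat_lit 0x8a090888079a) (nat_lit 0) (p (nat_lit 0x9888807871a) (nat_lit 0) (p (nat_lit 0x80000800090787088a) (nat_lit 0) (p (nat_lit 0x80000800088706860a) (nat_lit 0) (p (nat_lit 0x8706860782) (nat_lit 0) (p (nat_lit 0x686058702) (nat_lit 0) (p (nat_lit 0x8605850482) (nat_lit 0) (p (nat_lit 0x585048402) (nat_lit 0) (p (nat_lit 0x160014) (nat_lit 0) (p (nat_lit 0x60592) (nat_lit 0) (p (nat_lit 0x48512) (nat_lit 0) (p (nat_lit 0x50392) (nat_lit 0) (p (nat_lit 0x38312) (nat_lit 0) (p (nat_lit 0x40212) (nat_lit 0) (p (nat_lit 0x28192) (nat_lit 0) (p (nat_lit 0x30092) (nat_lit 0) (p (nat_lit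 0x18012) (nat_lit 0) pn)))))))))))))))))))))))))) :=
  Cl.node (nat_lit 0x200004) (nat_lit 2) (by decide +kernel) (ClAll.succ (ClAll.succ ClAll.zero n44) n45)

def n68 : Cl (O (nat_lit 3)) (R (nat_lit 135377))
    (p (nat_lit 0x109) (nat_lit 0) (p (nat_lit 0xc9) (nat_lit 1) (p (nat_lit 0x89) (nat_lit 1) (p (nat_lit 0x111) (nat_lit 1) (p (nat_lit 0xd1) (nat_lit 1) (p (nat_lit 0x81) (nat_lit 0) (p (nat_lit 0x41) (nat_lit 1) (p (nat_lit 0x8b0a09890a9a) (nat_lit 0) (p (nat_lit 0xa8989088a1a) (nat_lit 0) (p (nat_lit 0x8a090888079a) (nat_lit 0) (p (nat_lit 0x9888807871a) (nat_lit 0) (p (nat_lit 0x80000800090787088a) (nat_lit 0) (p (nat_lit 0x80000800088706860a) (nat_lit 0) (p (nat_lit 0x8706860782) (nat_lit 0) (p (nat_lit 0x686058702) (nat_lit 0) (p (nat_lit 0x8605850482) (nat_lit 0) (p (nat_lit 0x585048402) (nat_lit 0) (p (nat_lit 0x160014) (nat_lit 0) (p (nat_lit 0x60592) (nat_lit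 0) (p (nat_lit 0x48512) (nat_lit 0) (p (nat_lit 0x50392) (nat_lit 0) (p (nat_lit 0x38312) (nat_lit 0) (p (nat_lit 0x40212) (nat_lit 0) (p (nat_lit 0x28192) (nat_lit 0) (p (nat_lit 0x30092) (nat_lit 0) (p (nat_lit 0x18012) (nat_lit 0) pn)))))))))))))))))))))))))) :=
  Cl.node (nat_lit 0x200004) (nat_lit 2) (by decide +kernel) (ClAll.succ (ClAll.succ ClAll.zero s127) s128)

def n69 : Cl (O (nat_lit 3)) (R (nat_lit 135377))
    (p (nat_lit 0x111) (nat_lit 1) (p (nat_lit 0x109) (nat_lit 0) (p (nat_lit 0x101) (nat_lit 0) (p (nat_lit 0x119) (nat_lit 0) (p (nat_lit 0xc1) (nat_lit 0) (p (nat_lit 0x81) (nat_lit 1) (p (nat_lit 0x41) (nat_lit 1) (p (nat_lit 0x8b0a09890a9a) (nat_lit 0) (p (nat_lit 0xa8989088a1a) (nat_lit 0) (p (nat_lit 0x8a090888079a) (nat_lit 0) (p (nat_lit 0x9888807871a) (nat_lit 0) (p (nat_lit 0x80000800090787088a) (nat_lit 0) (p (nat_lit 0x80000800088706860a) (nat_lit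 0) (p (nat_lit 0x8706860782) (nat_lit 0) (p (nat_lit 0x686058702) (nat_lit 0) (p (nat_lit 0x8605850482) (nat_lit 0) (p (nat_lit 0x585048402) (nat_lit 0) (p (nat_lit 0x160014) (nat_lit 0) (p (nat_lit 0x60592) (nat_lit 0) (p (nat_lit 0x48512) (nat_lit 0) (p (nat_lit 0x50392) (nat_lit 0) (p (nat_lit 0x38312) (nat_lit 0) (p (nat_lit 0x40212) (nat_lit 0) (p (nat_lit 0x28192) (nat_lit 0) (p (nat_lit 0x30092) (nat_lit 0) (p (nat_lit 0x18012) (nat_lit 0) pn)))))))))))))))))))))))))) :=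
  Cl.node (nat_lit 0xd1) (nat_lit 2) (by decide +kernel) (ClAll.succ (ClAll.succ ClAll.zero s131) n46)

def n70 : Cl (O (nat_lit 3)) (R (nat_lit 135377))
    (p (nat_lit 0xc9) (nat_lit 0) (p (nat_lit 0x109) (nat_lit 1) (p (nat_lit 0x101) (nat_lit 0) (p (nat_lit 0x119) (nat_lit 0) (p (nat_lit 0xc1) (nat_lit 0) (p (nat_lit 0x81) (nat_lit 1) (p (nat_lit 0x41) (nat_lit 1) (p (nat_lit 0x8b0a09890a9a) (nat_lit 0) (p (nat_lit 0xa8989088a1a) (nat_lit 0) (p (nat_lit 0x8a090888079a) (nat_lit 0) (p (nat_lit 0x9888807871a) (nat_lit 0) (p (nat_lit 0x80000800090787088a) (nat_lit 0) (p (nat_lit 0x80000800088706860a) (nat_lit 0) (p (nat_lit 0x8706860782) (nat_lit 0) (p (nat_lit 0x686058702) (nat_lit 0) (p (nat_lit 0x8605850482) (nat_lit 0) (p (nat_lit 0x585048402) (nat_lit 0) (p (nat_lit 0x160014) (nat_lit 0) (p (nat_lit 0x60592) (nat_lit 0) (p (nat_lit 0x48512) (nat_lit 0) (p (nat_lit 0x50392)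 (nat_lit 0) (p (nat_lit 0x38312) (nat_lit 0) (p (nat_lit 0x40212) (nat_lit 0) (p (nat_lit 0x28192) (nat_lit 0) (p (nat_lit 0x30092) (nat_lit 0) (p (nat_lit 0x18012) (nat_lit 0) pn)))))))))))))))))))))))))) :=
  Cl.node (nat_lit 0xd1) (nat_lit 2) (by decide +kernel) (ClAll.succ (ClAll.succ ClAll.zero s134) n47)

def n71 : Cl (O (nat_lit 3)) (R (nat_lit 135377))
    (p (nat_lit 0xd1) (nat_lit 1) (p (nat_lit 0xc9) (nat_lit 0) (p (nat_lit 0x101) (nat_lit 1) (p (nat_lit 0x119) (nat_lit 0) (p (nat_lit 0xc1) (nat_lit 0) (p (nat_lit 0x81) (nat_lit 1) (p (nat_lit 0x41) (nat_lit 1) (p (nat_lit 0x8b0a09890a9a) (nat_lit 0) (p (nat_lit 0xa8989088a1a) (nat_lit 0) (p (nat_lit 0x8a090888079a) (nat_lit 0) (p (nat_lit 0x9888807871a) (nat_lit 0) (p (nat_lit 0x80000800090787088a) (nat_lit 0) (p (nat_lit 0x80000800088706860a) (nat_lit 0) (p (nat_lit 0x8706860782) (nat_lit 0) (p (nat_lit 0x686058702)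 (nat_lit 0) (p (nat_lit 0x8605850482) (nat_lit 0) (p (nat_lit 0x585048402) (nat_lit 0) (p (nat_lit 0x160014) (nat_lit 0) (p (nat_lit 0x60592) (nat_lit 0) (p (nat_lit 0x48512) (nat_lit 0) (p (nat_lit 0x50392) (nat_lit 0) (p (nat_lit 0x38312) (nat_lit 0) (p (nat_lit 0x40212) (nat_lit 0) (p (nat_lit 0x28192) (nat_lit 0) (p (nat_lit 0x30092) (nat_lit 0) (p (nat_lit 0x18012) (nat_lit 0) pn)))))))))))))))))))))))))) :=
  Cl.node (nat_lit 0x200004) (nat_lit 2) (by decide +kernel) (ClAll.succ (ClAll.succ ClAll.zero s139) s140)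

def n72 : Cl (O (nat_lit 3)) (R (nat_lit 135377))
    (p (nat_lit 0x111) (nat_lit 1) (p (nat_lit 0xd1) (nat_lit 1) (p (nat_lit 0xc9) (nat_lit 0) (p (nat_lit 0x119) (nat_lit 1) (p (nat_lit 0xc1) (nat_lit 0) (p (nat_lit 0x81) (nat_lit 1) (p (nat_lit 0x41) (nat_lit 1) (p (nat_lit 0x8b0a09890a9a) (nat_lit 0) (p (nat_lit 0xa8989088a1a) (nat_lit 0) (p (nat_lit 0x8a090888079a) (nat_lit 0) (p (nat_lit 0x9888807871a) (nat_lit 0) (p (nat_lit 0x80000800090787088a) (nat_lit 0) (p (nat_lit 0x80000800088706860a) (nat_lit 0) (p (nat_lit 0x8706860782) (nat_lit 0) (p (nat_lit 0x686058702) (nat_lit 0) (p (nat_lit 0x8605850482) (nat_lit 0) (p (nat_lit 0x585048402) (nat_lit 0) (p (nat_lit 0x160014) (nat_lit 0) (p (nat_lit 0x60592) (nat_lit 0) (p (nat_lit 0x48512) (nat_lit 0) (p (nat_lit 0x50392) (nat_lit 0) (p (nat_lit 0x38312) (nat_lit 0) (p (nat_lit 0x40212) (nat_lit 0) (p (nat_lit 0x28192) (nat_lit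 0) (p (nat_lit 0x30092) (nat_lit 0) (p (nat_lit 0x18012) (nat_lit 0) pn)))))))))))))))))))))))))) :=
  Cl.node (nat_lit 0x200004) (nat_lit 2) (by decide +kernel) (ClAll.succ (ClAll.succ ClAll.zero n48) s146)

def n73 : Cl (O (nat_lit 3)) (R (nat_lit 135377))
    (p (nat_lit 0x111) (nat_lit 1) (p (nat_lit 0x109) (nat_lit 0) (p (nat_lit 0xc9) (nat_lit 1) (p (nat_lit 0x119) (nat_lit 1) (p (nat_lit 0xc1) (nat_lit 0) (p (nat_lit 0x81) (nat_lit 1) (p (nat_lit 0x41) (nat_lit 1) (p (nat_lit 0x8b0a09890a9a) (nat_lit 0) (p (nat_lit 0xa8989088a1a) (nat_lit 0) (p (nat_lit 0x8a090888079a) (nat_lit 0) (p (nat_lit 0x9888807871a) (nat_lit 0) (p (nat_lit 0x80000800090787088a) (nat_lit 0) (p (nat_lit 0x80000800088706860a) (nat_lit 0) (p (nat_lit 0x8706860782) (nat_lit 0) (p (nat_lit 0x686058702) (nat_lit 0) (p (nat_lit 0x8605850482) (nat_lit 0) (p (nat_lit 0x585048402) (nat_lit 0) (p (nat_lit 0x160014)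 (nat_lit 0) (p (nat_lit 0x60592) (nat_lit 0) (p (nat_lit 0x48512) (nat_lit 0) (p (nat_lit 0x50392) (nat_lit 0) (p (nat_lit 0x38312) (nat_lit 0) (p (nat_lit 0x40212) (nat_lit 0) (p (nat_lit 0x28192) (nat_lit 0) (p (nat_lit 0x30092) (nat_lit 0) (p (nat_lit 0x18012) (nat_lit 0) pn)))))))))))))))))))))))))) :=
  Cl.node (nat_lit 0x200004) (nat_lit 2) (by decide +kernel) (ClAll.succ (ClAll.succ ClAll.zero s148) s149)

def n74 : Cl (O (nat_lit 3)) (R (nat_lit 135377))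
    (p (nat_lit 0x109) (nat_lit 1) (p (nat_lit 0x101) (nat_lit 0) (p (nat_lit 0x119) (nat_lit 0) (p (nat_lit 0xd1) (nat_lit 0) (p (nat_lit 0x89) (nat_lit 0) (p (nat_lit 0x41) (nat_lit 0) (p (nat_lit 0x8b0a09890a9a) (nat_lit 0) (p (nat_lit 0xa8989088a1a) (nat_lit 0) (p (nat_lit 0x8a090888079a) (nat_lit 0) (p (nat_lit 0x9888807871a) (nat_lit 0) (p (nat_lit 0x80000800090787088a) (nat_lit 0) (p (nat_lit 0x80000800088706860a) (nat_lit 0) (p (nat_lit 0x8706860782) (nat_lit 0) (p (nat_lit 0x686058702) (nat_lit 0) (p (nat_lit 0x8605850482) (nat_lit 0) (p (nat_lit 0x585048402) (nat_lit 0) (p (nat_lit 0x160014) (nat_lit 0) (p (nat_lit 0x60592) (nat_lit 0) (p (nat_lit 0x48512) (nat_lit 0) (p (nat_lit 0x50392) (nat_lit 0) (p (nat_lit 0x38312) (nat_lit 0) (p (nat_lit 0x40212) (nat_lit 0) (p (nat_lit 0x28192) (nat_lit 0) (p (nat_lit 0x30092) (nat_lit 0) (p (nat_lit 0x18012) (nat_lit 0) pn)))))))))))))))))))))))))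 :=
  Cl.node (nat_lit 0xc9) (nat_lit 2) (by decide +kernel) (ClAll.succ (ClAll.succ ClAll.zero s1) s2)

def n75 : Cl (O (nat_lit 3)) (R (nat_lit 135377))
    (p (nat_lit 0x81) (nat_lit 0) (p (nat_lit 0x101) (nat_lit 1) (p (nat_lit 0x119) (nat_lit 0) (p (nat_lit 0xd1) (nat_lit 0) (p (nat_lit 0x89) (nat_lit 0) (p (nat_lit 0x41) (nat_lit 0) (p (nat_lit 0x8b0a09890a9a) (nat_lit 0) (p (nat_lit 0xa8989088a1a) (nat_lit 0) (p (nat_lit 0x8a090888079a) (nat_lit 0) (p (nat_lit 0x9888807871a) (nat_lit 0) (p (nat_lit 0x80000800090787088a) (nat_lit 0) (p (nat_lit 0x80000800088706860a) (nat_lit 0) (p (nat_lit 0x8706860782) (nat_lit 0) (p (nat_lit 0x686058702) (nat_lit 0) (p (nat_lit 0x8605850482) (nat_lit 0) (p (nat_lit 0x585048402) (nat_lit 0) (p (nat_lit 0x160014) (nat_lit 0) (p (nat_lit 0x60592) (nat_lit 0) (p (nat_lit 0x48512) (nat_lit 0) (p (nat_lit 0x50392) (nat_lit 0) (p (nat_lit 0x38312)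 (nat_lit 0) (p (nat_lit 0x40212) (nat_lit 0) (p (nat_lit 0x28192) (nat_lit 0) (p (nat_lit 0x30092) (nat_lit 0) (p (nat_lit 0x18012) (nat_lit 0) pn))))))))))))))))))))))))) :=
  Cl.node (nat_lit 0xc9) (nat_lit 2) (by decide +kernel) (ClAll.succ (ClAll.succ ClAll.zero s3) n49)

def n76 : Cl (O (nat_lit 3)) (R (nat_lit 135377))
    (p (nat_lit 0x81) (nat_lit 1) (p (nat_lit 0x101) (nat_lit 1) (p (nat_lit 0x119) (nat_lit 0) (p (nat_lit 0xd1) (nat_lit 0) (p (nat_lit 0x89) (nat_lit 0) (p (nat_lit 0x41) (nat_lit 0) (p (nat_lit 0x8b0a09890a9a) (nat_lit 0) (p (nat_lit 0xa8989088a1a) (nat_lit 0) (p (nat_lit 0x8a090888079a) (nat_lit 0) (p (nat_lit 0x9888807871a) (nat_lit 0) (p (nat_lit 0x80000800090787088a) (nat_lit 0) (p (nat_lit 0x80000800088706860a) (nat_lit 0) (p (nat_lit 0x8706860782) (nat_lit 0) (p (nat_lit 0x686058702) (nat_lit 0) (p (nat_lit 0x8605850482) (nat_lit 0) (p (nat_lit 0x585048402)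 (nat_lit 0) (p (nat_lit 0x160014) (nat_lit 0) (p (nat_lit 0x60592) (nat_lit 0) (p (nat_lit 0x48512) (nat_lit 0) (p (nat_lit 0x50392) (nat_lit 0) (p (nat_lit 0x38312) (nat_lit 0) (p (nat_lit 0x40212) (nat_lit 0) (p (nat_lit 0x28192) (nat_lit 0) (p (nat_lit 0x30092) (nat_lit 0) (p (nat_lit 0x18012) (nat_lit 0) pn))))))))))))))))))))))))) :=
  Cl.node (nat_lit 0xc1) (nat_lit 2) (by decide +kernel) (ClAll.succ (ClAll.succ ClAll.zero n50) s14)

def n77 : Cl (O (nat_lit 3)) (R (nat_lit 135377))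
    (p (nat_lit 0xc9) (nat_lit 1) (p (nat_lit 0xc1) (nat_lit 0) (p (nat_lit 0x119) (nat_lit 1) (p (nat_lit 0xd1) (nat_lit 0) (p (nat_lit 0x89) (nat_lit 0) (p (nat_lit 0x41) (nat_lit 0) (p (nat_lit 0x8b0a09890a9a) (nat_lit 0) (p (nat_lit 0xa8989088a1a) (nat_lit 0) (p (nat_lit 0x8a090888079a) (nat_lit 0) (p (nat_lit 0x9888807871a) (nat_lit 0) (p (nat_lit 0x80000800090787088a) (nat_lit 0) (p (nat_lit 0x80000800088706860a) (nat_lit 0) (p (nat_lit 0x8706860782) (nat_lit 0) (p (nat_lit 0x686058702) (nat_lit 0) (p (nat_lit 0x8605850482) (nat_lit 0) (p (nat_lit 0x585048402) (nat_lit 0) (p (nat_lit 0x160014) (nat_lit 0) (p (nat_lit 0x60592) (nat_lit 0) (p (nat_lit 0x48512) (nat_lit 0) (p (nat_lit 0x50392) (nat_lit 0) (p (nat_lit 0x38312) (nat_lit 0) (p (nat_lit 0x40212) (nat_lit 0) (p (nat_lit 0x28192) (nat_lit 0) (p (nat_lit 0x30092) (nat_lit 0) (p (nat_lit 0x18012) (nat_lit 0) pn)))))))))))))))))))))))))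 :=
  Cl.node (nat_lit 0x109) (nat_lit 2) (by decide +kernel) (ClAll.succ (ClAll.succ ClAll.zero s16) n51)

def n78 : Cl (O (nat_lit 3)) (R (nat_lit 135377))
    (p (nat_lit 0x81) (nat_lit 0) (p (nat_lit 0xc1) (nat_lit 1) (p (nat_lit 0x119) (nat_lit 1) (p (nat_lit 0xd1) (nat_lit 0) (p (nat_lit 0x89) (nat_lit 0) (p (nat_lit 0x41) (nat_lit 0) (p (nat_lit 0x8b0a09890a9a) (nat_lit 0) (p (nat_lit 0xa8989088a1a) (nat_lit 0) (p (nat_lit 0x8a090888079a) (nat_lit 0) (p (nat_lit 0x9888807871a) (nat_lit 0) (p (nat_lit 0x80000800090787088a) (nat_lit 0) (p (nat_lit 0x80000800088706860a) (nat_lit 0) (p (nat_lit 0x8706860782) (nat_lit 0) (p (nat_lit 0x686058702) (nat_lit 0) (p (nat_lit 0x8605850482) (nat_lit 0) (p (nat_lit 0x585048402) (nat_lit 0) (p (nat_lit 0x160014) (nat_lit 0) (p (nat_lit 0x60592) (nat_lit 0) (p (nat_lit 0x48512) (nat_lit 0) (p (nat_lit 0x50392) (nat_lit 0) (p (nat_lit 0x38312)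 (nat_lit 0) (p (nat_lit 0x40212) (nat_lit 0) (p (nat_lit 0x28192) (nat_lit 0) (p (nat_lit 0x30092) (nat_lit 0) (p (nat_lit 0x18012) (nat_lit 0) pn))))))))))))))))))))))))) :=
  Cl.node (nat_lit 0x109) (nat_lit 2) (by decide +kernel) (ClAll.succ (ClAll.succ ClAll.zero s19) s20)

def n79 : Cl (O (nat_lit 3)) (R (nat_lit 135377))
    (p (nat_lit 0x81) (nat_lit 1) (p (nat_lit 0xc1) (nat_lit 1) (p (nat_lit 0x119) (nat_lit 1) (p (nat_lit 0xd1) (nat_lit 0) (p (nat_lit 0x89) (nat_lit 0) (p (nat_lit 0x41) (nat_lit 0) (p (nat_lit 0x8b0a09890a9a) (nat_lit 0) (p (nat_lit 0xa8989088a1a) (nat_lit 0) (p (nat_lit 0x8a090888079a) (nat_lit 0) (p (nat_lit 0x9888807871a) (nat_lit 0) (p (nat_lit 0x80000800090787088a) (nat_lit 0) (p (nat_lit 0x80000800088706860a) (nat_lit 0) (p (nat_lit 0x8706860782) (nat_lit 0) (p (nat_lit 0x686058702) (nat_lit 0) (p (nat_lit 0x8605850482) (nat_lit 0) (p (nat_lit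 0x585048402) (nat_lit 0) (p (nat_lit 0x160014) (nat_lit 0) (p (nat_lit 0x60592) (nat_lit 0) (p (nat_lit 0x48512) (nat_lit 0) (p (nat_lit 0x50392) (nat_lit 0) (p (nat_lit 0x38312) (nat_lit 0) (p (nat_lit 0x40212) (nat_lit 0) (p (nat_lit 0x28192) (nat_lit 0) (p (nat_lit 0x30092) (nat_lit 0) (p (nat_lit 0x18012) (nat_lit 0) pn))))))))))))))))))))))))) :=
  Cl.node (nat_lit 0x101) (nat_lit 2) (by decide +kernel) (ClAll.succ (ClAll.succ ClAll.zero n52) s25)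

def n80 : Cl (O (nat_lit 3)) (R (nat_lit 135377))
    (p (nat_lit 0x109) (nat_lit 1) (p (nat_lit 0x101) (nat_lit 0) (p (nat_lit 0x111) (nat_lit 0) (p (nat_lit 0xd1) (nat_lit 1) (p (nat_lit 0x89) (nat_lit 0) (p (nat_lit 0x41) (nat_lit 0) (p (nat_lit 0x8b0a09890a9a) (nat_lit 0) (p (nat_lit 0xa8989088a1a) (nat_lit 0) (p (nat_lit 0x8a090888079a) (nat_lit 0) (p (nat_lit 0x9888807871a) (nat_lit 0) (p (nat_lit 0x80000800090787088a) (nat_lit 0) (p (nat_lit 0x80000800088706860a) (nat_lit 0) (p (nat_lit 0x8706860782) (nat_lit 0) (p (nat_lit 0x686058702) (nat_lit 0) (p (nat_lit 0x8605850482) (nat_lit 0) (p (nat_lit 0x585048402) (nat_lit 0) (p (nat_lit 0x160014) (nat_lit 0) (p (nat_lit 0x60592) (nat_lit 0) (p (nat_lit 0x48512) (nat_lit 0) (p (nat_lit 0x50392) (nat_lit 0) (p (nat_lit 0x38312) (nat_lit 0) (p (nat_lit 0x40212) (nat_lit 0) (p (nat_lit 0x28192) (nat_lit 0) (p (nat_lit 0x30092)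 (nat_lit 0) (p (nat_lit 0x18012) (nat_lit 0) pn))))))))))))))))))))))))) :=
  Cl.node (nat_lit 0x200004) (nat_lit 2) (by decide +kernel) (ClAll.succ (ClAll.succ ClAll.zero s27) s28)

def n81 : Cl (O (nat_lit 3)) (R (nat_lit 135377))
    (p (nat_lit 0x81) (nat_lit 0) (p (nat_lit 0x101) (nat_lit 1) (p (nat_lit 0x111) (nat_lit 0) (p (nat_lit 0xd1) (nat_lit 1) (p (nat_lit 0x89) (nat_lit 0) (p (nat_lit 0x41) (nat_lit 0) (p (nat_lit 0x8b0a09890a9a) (nat_lit 0) (p (nat_lit 0xa8989088a1a) (nat_lit 0) (p (nat_lit 0x8a090888079a) (nat_lit 0) (p (nat_lit 0x9888807871a) (nat_lit 0) (p (nat_lit 0x80000800090787088a) (nat_lit 0) (p (nat_lit 0x80000800088706860a) (nat_lit 0) (p (nat_lit 0x8706860782) (nat_lit 0) (p (nat_lit 0x686058702) (nat_lit 0) (p (nat_lit 0x8605850482) (nat_lit 0) (p (nat_lit 0x585048402) (nat_lit 0) (p (nat_lit 0x160014) (nat_lit 0) (p (nat_lit 0x60592) (nat_lit 0) (p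 (nat_lit 0x48512) (nat_lit 0) (p (nat_lit 0x50392) (nat_lit 0) (p (nat_lit 0x38312) (nat_lit 0) (p (nat_lit 0x40212) (nat_lit 0) (p (nat_lit 0x28192) (nat_lit 0) (p (nat_lit 0x30092) (nat_lit 0) (p (nat_lit 0x18012) (nat_lit 0) pn))))))))))))))))))))))))) :=
  Cl.node (nat_lit 0x200004) (nat_lit 2) (by decide +kernel) (ClAll.succ (ClAll.succ ClAll.zero n53) s31)

def n82 : Cl (O (nat_lit 3)) (R (nat_lit 135377))
    (p (nat_lit 0x81) (nat_lit 1) (p (nat_lit 0x101) (nat_lit 1) (p (nat_lit 0x111) (nat_lit 0) (p (nat_lit 0xd1) (nat_lit 1) (p (nat_lit 0x89) (nat_lit 0) (p (nat_lit 0x41) (nat_lit 0) (p (nat_lit 0x8b0a09890a9a) (nat_lit 0) (p (nat_lit 0xa8989088a1a) (nat_lit 0) (p (nat_lit 0x8a090888079a) (nat_lit 0) (p (nat_lit 0x9888807871a) (nat_lit 0) (p (nat_lit 0x80000800090787088a) (nat_lit 0) (p (nat_lit 0x80000800088706860a) (nat_lit 0) (p (nat_lit 0x8706860782) (nat_lit 0)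 (p (nat_lit 0x686058702) (nat_lit 0) (p (nat_lit 0x8605850482) (nat_lit 0) (p (nat_lit 0x585048402) (nat_lit 0) (p (nat_lit 0x160014) (nat_lit 0) (p (nat_lit 0x60592) (nat_lit 0) (p (nat_lit 0x48512) (nat_lit 0) (p (nat_lit 0x50392) (nat_lit 0) (p (nat_lit 0x38312) (nat_lit 0) (p (nat_lit 0x40212) (nat_lit 0) (p (nat_lit 0x28192) (nat_lit 0) (p (nat_lit 0x30092) (nat_lit 0) (p (nat_lit 0x18012) (nat_lit 0) pn))))))))))))))))))))))))) :=
  Cl.node (nat_lit 0xc1) (nat_lit 2) (by decide +kernel) (ClAll.succ (ClAll.succ ClAll.zero n54) s38)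

def n83 : Cl (O (nat_lit 3)) (R (nat_lit 135377))
    (p (nat_lit 0xc1) (nat_lit 1) (p (nat_lit 0x81) (nat_lit 1) (p (nat_lit 0x111) (nat_lit 1) (p (nat_lit 0xd1) (nat_lit 1) (p (nat_lit 0x89) (nat_lit 0) (p (nat_lit 0x41) (nat_lit 0) (p (nat_lit 0x8b0a09890a9a) (nat_lit 0) (p (nat_lit 0xa8989088a1a) (nat_lit 0) (p (nat_lit 0x8a090888079a) (nat_lit 0) (p (nat_lit 0x9888807871a) (nat_lit 0) (p (nat_lit 0x80000800090787088a) (nat_lit 0) (p (nat_lit 0x80000800088706860a) (nat_lit 0) (p (nat_lit 0x8706860782) (nat_lit 0) (p (nat_lit 0x686058702) (nat_lit 0) (p (nat_lit 0x8605850482) (nat_lit 0) (p (nat_lit 0x585048402) (nat_lit 0) (p (nat_lit 0x160014) (nat_lit 0) (p (nat_lit 0x60592) (nat_lit 0) (p (nat_lit 0x48512) (nat_lit 0) (p (nat_lit 0x50392) (nat_lit 0) (p (nat_lit 0x38312) (nat_lit 0) (p (nat_lit 0x40212) (nat_lit 0) (p (nat_lit 0x28192) (nat_lit 0) (p (nat_lit 0x30092)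 (nat_lit 0) (p (nat_lit 0x18012) (nat_lit 0) pn))))))))))))))))))))))))) :=
  Cl.node (nat_lit 0x101) (nat_lit 2) (by decide +kernel) (ClAll.succ (ClAll.succ ClAll.zero n55) s43)

def n84 : Cl (O (nat_lit 3)) (R (nat_lit 135377))
    (p (nat_lit 0x109) (nat_lit 0) (p (nat_lit 0x101) (nat_lit 0) (p (nat_lit 0x119) (nat_lit 0) (p (nat_lit 0xc9) (nat_lit 0) (p (nat_lit 0x89) (nat_lit 1) (p (nat_lit 0x41) (nat_lit 0) (p (nat_lit 0x8b0a09890a9a) (nat_lit 0) (p (nat_lit 0xa8989088a1a) (nat_lit 0) (p (nat_lit 0x8a090888079a) (nat_lit 0) (p (nat_lit 0x9888807871a) (nat_lit 0) (p (nat_lit 0x80000800090787088a) (nat_lit 0) (p (nat_lit 0x80000800088706860a) (nat_lit 0) (p (nat_lit 0x8706860782) (nat_lit 0) (p (nat_lit 0x686058702) (nat_lit 0) (p (nat_lit 0x8605850482) (nat_lit 0) (p (nat_lit 0x585048402) (nat_lit 0) (p (nat_lit 0x160014) (nat_lit 0) (p (nat_lit 0x60592) (nat_lit 0) (p (nat_lit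 0x48512) (nat_lit 0) (p (nat_lit 0x50392) (nat_lit 0) (p (nat_lit 0x38312) (nat_lit 0) (p (nat_lit 0x40212) (nat_lit 0) (p (nat_lit 0x28192) (nat_lit 0) (p (nat_lit 0x30092) (nat_lit 0) (p (nat_lit 0x18012) (nat_lit 0) pn))))))))))))))))))))))))) :=
  Cl.node (nat_lit 0x111) (nat_lit 2) (by decide +kernel) (ClAll.succ (ClAll.succ ClAll.zero s44) n56)

def n85 : Cl (O (nat_lit 3)) (R (nat_lit 135377))
    (p (nat_lit 0x109) (nat_lit 1) (p (nat_lit 0x101) (nat_lit 0) (p (nat_lit 0x119) (nat_lit 0) (p (nat_lit 0xc9) (nat_lit 0) (p (nat_lit 0x89) (nat_lit 1) (p (nat_lit 0x41) (nat_lit 0) (p (nat_lit 0x8b0a09890a9a) (nat_lit 0) (p (nat_lit 0xa8989088a1a) (nat_lit 0) (p (nat_lit 0x8a090888079a) (nat_lit 0) (p (nat_lit 0x9888807871a) (nat_lit 0) (p (nat_lit 0x80000800090787088a) (nat_lit 0) (p (nat_lit 0x80000800088706860a) (nat_lit 0) (p (nat_lit 0x8706860782) (nat_lit 0) (p (nat_lit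 0x686058702) (nat_lit 0) (p (nat_lit 0x8605850482) (nat_lit 0) (p (nat_lit 0x585048402) (nat_lit 0) (p (nat_lit 0x160014) (nat_lit 0) (p (nat_lit 0x60592) (nat_lit 0) (p (nat_lit 0x48512) (nat_lit 0) (p (nat_lit 0x50392) (nat_lit 0) (p (nat_lit 0x38312) (nat_lit 0) (p (nat_lit 0x40212) (nat_lit 0) (p (nat_lit 0x28192) (nat_lit 0) (p (nat_lit 0x30092) (nat_lit 0) (p (nat_lit 0x18012) (nat_lit 0) pn))))))))))))))))))))))))) :=
  Cl.node (nat_lit 0xd1) (nat_lit 2) (by decide +kernel) (ClAll.succ (ClAll.succ ClAll.zero s47) n57)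

def n86 : Cl (O (nat_lit 3)) (R (nat_lit 135377))
    (p (nat_lit 0xc1) (nat_lit 0) (p (nat_lit 0x101) (nat_lit 1) (p (nat_lit 0x119) (nat_lit 0) (p (nat_lit 0xc9) (nat_lit 0) (p (nat_lit 0x89) (nat_lit 1) (p (nat_lit 0x41) (nat_lit 0) (p (nat_lit 0x8b0a09890a9a) (nat_lit 0) (p (nat_lit 0xa8989088a1a) (nat_lit 0) (p (nat_lit 0x8a090888079a) (nat_lit 0) (p (nat_lit 0x9888807871a) (nat_lit 0) (p (nat_lit 0x80000800090787088a) (nat_lit 0) (p (nat_lit 0x80000800088706860a) (nat_lit 0) (p (nat_lit 0x8706860782) (nat_lit 0) (p (nat_lit 0x686058702) (nat_lit 0) (p (nat_lit 0x8605850482) (nat_lit 0) (p (nat_lit 0x585048402) (nat_lit 0) (p (nat_lit 0x160014) (nat_lit 0) (p (nat_lit 0x60592) (nat_lit 0) (p (nat_lit 0x48512) (nat_lit 0) (p (nat_lit 0x50392) (nat_lit 0) (p (nat_lit 0x38312) (nat_lit 0) (p (nat_lit 0x40212) (nat_lit 0) (p (nat_lit 0x28192) (nat_lit 0) (p (nat_lit 0x30092)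 (nat_lit 0) (p (nat_lit 0x18012) (nat_lit 0) pn))))))))))))))))))))))))) :=
  Cl.node (nat_lit 0xd1) (nat_lit 2) (by decide +kernel) (ClAll.succ (ClAll.succ ClAll.zero s51) s52)

def n87 : Cl (O (nat_lit 3)) (R (nat_lit 135377))
    (p (nat_lit 0xd1) (nat_lit 1) (p (nat_lit 0xc1) (nat_lit 0) (p (nat_lit 0x119) (nat_lit 1) (p (nat_lit 0xc9) (nat_lit 0) (p (nat_lit 0x89) (nat_lit 1) (p (nat_lit 0x41) (nat_lit 0) (p (nat_lit 0x8b0a09890a9a) (nat_lit 0) (p (nat_lit 0xa8989088a1a) (nat_lit 0) (p (nat_lit 0x8a090888079a) (nat_lit 0) (p (nat_lit 0x9888807871a) (nat_lit 0) (p (nat_lit 0x80000800090787088a) (nat_lit 0) (p (nat_lit 0x80000800088706860a) (nat_lit 0) (p (nat_lit 0x8706860782) (nat_lit 0) (p (nat_lit 0x686058702) (nat_lit 0) (p (nat_lit 0x8605850482) (nat_lit 0) (p (nat_lit 0x585048402) (nat_lit 0) (p (nat_lit 0x160014) (nat_lit 0) (p (nat_lit 0x60592) (nat_lit 0) (p (nat_lit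 0x48512) (nat_lit 0) (p (nat_lit 0x50392) (nat_lit 0) (p (nat_lit 0x38312) (nat_lit 0) (p (nat_lit 0x40212) (nat_lit 0) (p (nat_lit 0x28192) (nat_lit 0) (p (nat_lit 0x30092) (nat_lit 0) (p (nat_lit 0x18012) (nat_lit 0) pn))))))))))))))))))))))))) :=
  Cl.node (nat_lit 0x111) (nat_lit 2) (by decide +kernel) (ClAll.succ (ClAll.succ ClAll.zero s55) n58)

def n88 : Cl (O (nat_lit 3)) (R (nat_lit 135377))
    (p (nat_lit 0x101) (nat_lit 0) (p (nat_lit 0xc1) (nat_lit 1) (p (nat_lit 0x119) (nat_lit 1) (p (nat_lit 0xc9) (nat_lit 0) (p (nat_lit 0x89) (nat_lit 1) (p (nat_lit 0x41) (nat_lit 0) (p (nat_lit 0x8b0a09890a9a) (nat_lit 0) (p (nat_lit 0xa8989088a1a) (nat_lit 0) (p (nat_lit 0x8a090888079a) (nat_lit 0) (p (nat_lit 0x9888807871a) (nat_lit 0) (p (nat_lit 0x80000800090787088a) (nat_lit 0) (p (nat_lit 0x80000800088706860a) (nat_lit 0) (p (nat_lit 0x8706860782) (nat_lit 0) (p (nat_lit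 0x686058702) (nat_lit 0) (p (nat_lit 0x8605850482) (nat_lit 0) (p (nat_lit 0x585048402) (nat_lit 0) (p (nat_lit 0x160014) (nat_lit 0) (p (nat_lit 0x60592) (nat_lit 0) (p (nat_lit 0x48512) (nat_lit 0) (p (nat_lit 0x50392) (nat_lit 0) (p (nat_lit 0x38312) (nat_lit 0) (p (nat_lit 0x40212) (nat_lit 0) (p (nat_lit 0x28192) (nat_lit 0) (p (nat_lit 0x30092) (nat_lit 0) (p (nat_lit 0x18012) (nat_lit 0) pn))))))))))))))))))))))))) :=
  Cl.node (nat_lit 0x111) (nat_lit 2) (by decide +kernel) (ClAll.succ (ClAll.succ ClAll.zero s58) s59)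

def n89 : Cl (O (nat_lit 3)) (R (nat_lit 135377))
    (p (nat_lit 0x109) (nat_lit 1) (p (nat_lit 0x101) (nat_lit 0) (p (nat_lit 0x119) (nat_lit 0) (p (nat_lit 0xd1) (nat_lit 0) (p (nat_lit 0x81) (nat_lit 0) (p (nat_lit 0x41) (nat_lit 1) (p (nat_lit 0x8b0a09890a9a) (nat_lit 0) (p (nat_lit 0xa8989088a1a) (nat_lit 0) (p (nat_lit 0x8a090888079a) (nat_lit 0) (p (nat_lit 0x9888807871a) (nat_lit 0) (p (nat_lit 0x80000800090787088a) (nat_lit 0) (p (nat_lit 0x80000800088706860a) (nat_lit 0) (p (nat_lit 0x8706860782) (nat_lit 0) (p (nat_lit 0x686058702) (nat_lit 0) (p (nat_lit 0x8605850482) (nat_lit 0) (p (nat_lit 0x585048402) (nat_lit 0) (p (nat_lit 0x160014) (nat_lit 0) (p (nat_lit 0x60592) (nat_lit 0) (p (nat_lit 0x48512) (nat_lit 0) (p (nat_lit 0x50392) (nat_lit 0) (p (nat_lit 0x38312) (nat_lit 0) (p (nat_lit 0x40212) (nat_lit 0) (p (nat_lit 0x28192) (nat_lit 0) (p (nat_lit 0x30092)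 (nat_lit 0) (p (nat_lit 0x18012) (nat_lit 0) pn))))))))))))))))))))))))) :=
  Cl.node (nat_lit 0x89) (nat_lit 2) (by decide +kernel) (ClAll.succ (ClAll.succ ClAll.zero n59) n60)

def n90 : Cl (O (nat_lit 3)) (R (nat_lit 135377))
    (p (nat_lit 0xc1) (nat_lit 0) (p (nat_lit 0x101) (nat_lit 1) (p (nat_lit 0x119) (nat_lit 0) (p (nat_lit 0xd1) (nat_lit 0) (p (nat_lit 0x81) (nat_lit 0) (p (nat_lit 0x41) (nat_lit 1) (p (nat_lit 0x8b0a09890a9a) (nat_lit 0) (p (nat_lit 0xa8989088a1a) (nat_lit 0) (p (nat_lit 0x8a090888079a) (nat_lit 0) (p (nat_lit 0x9888807871a) (nat_lit 0) (p (nat_lit 0x80000800090787088a) (nat_lit 0) (p (nat_lit 0x80000800088706860a) (nat_lit 0) (p (nat_lit 0x8706860782) (nat_lit 0) (p (nat_lit 0x686058702) (nat_lit 0) (p (nat_lit 0x8605850482) (nat_lit 0) (p (nat_lit 0x585048402) (nat_lit 0) (p (nat_lit 0x160014) (nat_lit 0) (p (nat_lit 0x60592) (nat_lit 0) (p (nat_lit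 0x48512) (nat_lit 0) (p (nat_lit 0x50392) (nat_lit 0) (p (nat_lit 0x38312) (nat_lit 0) (p (nat_lit 0x40212) (nat_lit 0) (p (nat_lit 0x28192) (nat_lit 0) (p (nat_lit 0x30092) (nat_lit 0) (p (nat_lit 0x18012) (nat_lit 0) pn))))))))))))))))))))))))) :=
  Cl.node (nat_lit 0x89) (nat_lit 2) (by decide +kernel) (ClAll.succ (ClAll.succ ClAll.zero s69) n61)

def n91 : Cl (O (nat_lit 3)) (R (nat_lit 135377))
    (p (nat_lit 0xc1) (nat_lit 1) (p (nat_lit 0x101) (nat_lit 1) (p (nat_lit 0x119) (nat_lit 0) (p (nat_lit 0xd1) (nat_lit 0) (p (nat_lit 0x81) (nat_lit 0) (p (nat_lit 0x41) (nat_lit 1) (p (nat_lit 0x8b0a09890a9a) (nat_lit 0) (p (nat_lit 0xa8989088a1a) (nat_lit 0) (p (nat_lit 0x8a090888079a) (nat_lit 0) (p (nat_lit 0x9888807871a) (nat_lit 0) (p (nat_lit 0x80000800090787088a) (nat_lit 0) (p (nat_lit 0x80000800088706860a) (nat_lit 0) (p (nat_lit 0x8706860782) (nat_lit 0) (p (nat_lit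 0x686058702) (nat_lit 0) (p (nat_lit 0x8605850482) (nat_lit 0) (p (nat_lit 0x585048402) (nat_lit 0) (p (nat_lit 0x160014) (nat_lit 0) (p (nat_lit 0x60592) (nat_lit 0) (p (nat_lit 0x48512) (nat_lit 0) (p (nat_lit 0x50392) (nat_lit 0) (p (nat_lit 0x38312) (nat_lit 0) (p (nat_lit 0x40212) (nat_lit 0) (p (nat_lit 0x28192) (nat_lit 0) (p (nat_lit 0x30092) (nat_lit 0) (p (nat_lit 0x18012) (nat_lit 0) pn))))))))))))))))))))))))) :=
  Cl.node (nat_lit 0x89) (nat_lit 2) (by decide +kernel) (ClAll.succ (ClAll.succ ClAll.zero s76) n62)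

def n92 : Cl (O (nat_lit 3)) (R (nat_lit 135377))
    (p (nat_lit 0xc9) (nat_lit 1) (p (nat_lit 0xc1) (nat_lit 0) (p (nat_lit 0x119) (nat_lit 1) (p (nat_lit 0xd1) (nat_lit 0) (p (nat_lit 0x81) (nat_lit 0) (p (nat_lit 0x41) (nat_lit 1) (p (nat_lit 0x8b0a09890a9a) (nat_lit 0) (p (nat_lit 0xa8989088a1a) (nat_lit 0) (p (nat_lit 0x8a090888079a) (nat_lit 0) (p (nat_lit 0x9888807871a) (nat_lit 0) (p (nat_lit 0x80000800090787088a) (nat_lit 0) (p (nat_lit 0x80000800088706860a) (nat_lit 0) (p (nat_lit 0x8706860782) (nat_lit 0) (p (nat_lit 0x686058702) (nat_lit 0) (p (nat_lit 0x8605850482) (nat_lit 0) (p (nat_lit 0x585048402) (nat_lit 0) (p (nat_lit 0x160014) (nat_lit 0) (p (nat_lit 0x60592) (nat_lit 0) (p (nat_lit 0x48512) (nat_lit 0) (p (nat_lit 0x50392) (nat_lit 0) (p (nat_lit 0x38312) (nat_lit 0) (p (nat_lit 0x40212) (nat_lit 0) (p (nat_lit 0x28192) (nat_lit 0) (p (nat_lit 0x30092)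 (nat_lit 0) (p (nat_lit 0x18012) (nat_lit 0) pn))))))))))))))))))))))))) :=
  Cl.node (nat_lit 0x89) (nat_lit 2) (by decide +kernel) (ClAll.succ (ClAll.succ ClAll.zero s88) n63)

def n93 : Cl (O (nat_lit 3)) (R (nat_lit 135377))
    (p (nat_lit 0x101) (nat_lit 0) (p (nat_lit 0xc1) (nat_lit 1) (p (nat_lit 0x119) (nat_lit 1) (p (nat_lit 0xd1) (nat_lit 0) (p (nat_lit 0x81) (nat_lit 0) (p (nat_lit 0x41) (nat_lit 1) (p (nat_lit 0x8b0a09890a9a) (nat_lit 0) (p (nat_lit 0xa8989088a1a) (nat_lit 0) (p (nat_lit 0x8a090888079a) (nat_lit 0) (p (nat_lit 0x9888807871a) (nat_lit 0) (p (nat_lit 0x80000800090787088a) (nat_lit 0) (p (nat_lit 0x80000800088706860a) (nat_lit 0) (p (nat_lit 0x8706860782) (nat_lit 0) (p (nat_lit 0x686058702) (nat_lit 0) (p (nat_lit 0x8605850482) (nat_lit 0) (p (nat_lit 0x585048402) (nat_lit 0) (p (nat_lit 0x160014) (nat_lit 0) (p (nat_lit 0x60592) (nat_lit 0) (p (nat_lit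 0x48512) (nat_lit 0) (p (nat_lit 0x50392) (nat_lit 0) (p (nat_lit 0x38312) (nat_lit 0) (p (nat_lit 0x40212) (nat_lit 0) (p (nat_lit 0x28192) (nat_lit 0) (p (nat_lit 0x30092) (nat_lit 0) (p (nat_lit 0x18012) (nat_lit 0) pn))))))))))))))))))))))))) :=
  Cl.node (nat_lit 0x89) (nat_lit 2) (by decide +kernel) (ClAll.succ (ClAll.succ ClAll.zero s92) n64)

def n94 : Cl (O (nat_lit 3)) (R (nat_lit 135377))
    (p (nat_lit 0x101) (nat_lit 1) (p (nat_lit 0xc1) (nat_lit 1) (p (nat_lit 0x119) (nat_lit 1) (p (nat_lit 0xd1) (nat_lit 0) (p (nat_lit 0x81) (nat_lit 0) (p (nat_lit 0x41) (nat_lit 1) (p (nat_lit 0x8b0a09890a9a) (nat_lit 0) (p (nat_lit 0xa8989088a1a) (nat_lit 0) (p (nat_lit 0x8a090888079a) (nat_lit 0) (p (nat_lit 0x9888807871a) (nat_lit 0) (p (nat_lit 0x80000800090787088a) (nat_lit 0) (p (nat_lit 0x80000800088706860a) (nat_lit 0) (p (nat_lit 0x8706860782) (nat_lit 0) (p (nat_lit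 0x686058702) (nat_lit 0) (p (nat_lit 0x8605850482) (nat_lit 0) (p (nat_lit 0x585048402) (nat_lit 0) (p (nat_lit 0x160014) (nat_lit 0) (p (nat_lit 0x60592) (nat_lit 0) (p (nat_lit 0x48512) (nat_lit 0) (p (nat_lit 0x50392) (nat_lit 0) (p (nat_lit 0x38312) (nat_lit 0) (p (nat_lit 0x40212) (nat_lit 0) (p (nat_lit 0x28192) (nat_lit 0) (p (nat_lit 0x30092) (nat_lit 0) (p (nat_lit 0x18012) (nat_lit 0) pn))))))))))))))))))))))))) :=
  Cl.node (nat_lit 0x89) (nat_lit 2) (by decide +kernel) (ClAll.succ (ClAll.succ ClAll.zero s98) n65)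

def n95 : Cl (O (nat_lit 3)) (R (nat_lit 135377))
    (p (nat_lit 0x109) (nat_lit 1) (p (nat_lit 0x101) (nat_lit 0) (p (nat_lit 0x111) (nat_lit 0) (p (nat_lit 0xd1) (nat_lit 1) (p (nat_lit 0x81) (nat_lit 0) (p (nat_lit 0x41) (nat_lit 1) (p (nat_lit 0x8b0a09890a9a) (nat_lit 0) (p (nat_lit 0xa8989088a1a) (nat_lit 0) (p (nat_lit 0x8a090888079a) (nat_lit 0) (p (nat_lit 0x9888807871a) (nat_lit 0) (p (nat_lit 0x80000800090787088a) (nat_lit 0) (p (nat_lit 0x80000800088706860a) (nat_lit 0) (p (nat_lit 0x8706860782) (nat_lit 0) (p (nat_lit 0x686058702) (nat_lit 0) (p (nat_lit 0x8605850482) (nat_lit 0) (p (nat_lit 0x585048402) (nat_lit 0) (p (nat_lit 0x160014) (nat_lit 0) (p (nat_lit 0x60592) (nat_lit 0) (p (nat_lit 0x48512) (nat_lit 0) (p (nat_lit 0x50392) (nat_lit 0) (p (nat_lit 0x38312) (nat_lit 0) (p (nat_lit 0x40212) (nat_lit 0) (p (nat_lit 0x28192) (nat_lit 0) (p (nat_lit 0x30092)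 (nat_lit 0) (p (nat_lit 0x18012) (nat_lit 0) pn))))))))))))))))))))))))) :=
  Cl.node (nat_lit 0x89) (nat_lit 2) (by decide +kernel) (ClAll.succ (ClAll.succ ClAll.zero s106) n66)

def n96 : Cl (O (nat_lit 3)) (R (nat_lit 135377))
    (p (nat_lit 0x89) (nat_lit 0) (p (nat_lit 0x101) (nat_lit 1) (p (nat_lit 0x111) (nat_lit 0) (p (nat_lit 0xd1) (nat_lit 1) (p (nat_lit 0x81) (nat_lit 0) (p (nat_lit 0x41) (nat_lit 1) (p (nat_lit 0x8b0a09890a9a) (nat_lit 0) (p (nat_lit 0xa8989088a1a) (nat_lit 0) (p (nat_lit 0x8a090888079a) (nat_lit 0) (p (nat_lit 0x9888807871a) (nat_lit 0) (p (nat_lit 0x80000800090787088a) (nat_lit 0) (p (nat_lit 0x80000800088706860a) (nat_lit 0) (p (nat_lit 0x8706860782) (nat_lit 0) (p (nat_lit 0x686058702) (nat_lit 0) (p (nat_lit 0x8605850482) (nat_lit 0) (p (nat_lit 0x585048402) (nat_lit 0) (p (nat_lit 0x160014) (nat_lit 0) (p (nat_lit 0x60592) (nat_lit 0) (p (nat_lit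 0x48512) (nat_lit 0) (p (nat_lit 0x50392) (nat_lit 0) (p (nat_lit 0x38312) (nat_lit 0) (p (nat_lit 0x40212) (nat_lit 0) (p (nat_lit 0x28192) (nat_lit 0) (p (nat_lit 0x30092) (nat_lit 0) (p (nat_lit 0x18012) (nat_lit 0) pn))))))))))))))))))))))))) :=
  Cl.node (nat_lit 0x200004) (nat_lit 2) (by decide +kernel) (ClAll.succ (ClAll.succ ClAll.zero s114) s115)

def n97 : Cl (O (nat_lit 3)) (R (nat_lit 135377))
    (p (nat_lit 0x89) (nat_lit 1) (p (nat_lit 0x101) (nat_lit 1) (p (nat_lit 0x111) (nat_lit 0) (p (nat_lit 0xd1) (nat_lit 1) (p (nat_lit 0x81) (nat_lit 0) (p (nat_lit 0x41) (nat_lit 1) (p (nat_lit 0x8b0a09890a9a) (nat_lit 0) (p (nat_lit 0xa8989088a1a) (nat_lit 0) (p (nat_lit 0x8a090888079a) (nat_lit 0) (p (nat_lit 0x9888807871a) (nat_lit 0) (p (nat_lit 0x80000800090787088a) (nat_lit 0) (p (nat_lit 0x80000800088706860a) (nat_lit 0) (p (nat_lit 0x8706860782) (nat_lit 0) (p (nat_lit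 0x686058702) (nat_lit 0) (p (nat_lit 0x8605850482) (nat_lit 0) (p (nat_lit 0x585048402) (nat_lit 0) (p (nat_lit 0x160014) (nat_lit 0) (p (nat_lit 0x60592) (nat_lit 0) (p (nat_lit 0x48512) (nat_lit 0) (p (nat_lit 0x50392) (nat_lit 0) (p (nat_lit 0x38312) (nat_lit 0) (p (nat_lit 0x40212) (nat_lit 0) (p (nat_lit 0x28192) (nat_lit 0) (p (nat_lit 0x30092) (nat_lit 0) (p (nat_lit 0x18012) (nat_lit 0) pn))))))))))))))))))))))))) :=
  Cl.node (nat_lit 0xc9) (nat_lit 2) (by decide +kernel) (ClAll.succ (ClAll.succ ClAll.zero n67) s124)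

def n98 : Cl (O (nat_lit 3)) (R (nat_lit 135377))
    (p (nat_lit 0xc9) (nat_lit 1) (p (nat_lit 0x89) (nat_lit 1) (p (nat_lit 0x111) (nat_lit 1) (p (nat_lit 0xd1) (nat_lit 1) (p (nat_lit 0x81) (nat_lit 0) (p (nat_lit 0x41) (nat_lit 1) (p (nat_lit 0x8b0a09890a9a) (nat_lit 0) (p (nat_lit 0xa8989088a1a) (nat_lit 0) (p (nat_lit 0x8a090888079a) (nat_lit 0) (p (nat_lit 0x9888807871a) (nat_lit 0) (p (nat_lit 0x80000800090787088a) (nat_lit 0) (p (nat_lit 0x80000800088706860a) (nat_lit 0) (p (nat_lit 0x8706860782) (nat_lit 0) (p (nat_lit 0x686058702) (nat_lit 0) (p (nat_lit 0x8605850482) (nat_lit 0) (p (nat_lit 0x585048402) (nat_lit 0) (p (nat_lit 0x160014) (nat_lit 0) (p (nat_lit 0x60592) (nat_lit 0) (p (nat_lit 0x48512) (nat_lit 0) (p (nat_lit 0x50392) (nat_lit 0) (p (nat_lit 0x38312) (nat_lit 0) (p (nat_lit 0x40212) (nat_lit 0) (p (nat_lit 0x28192) (nat_lit 0) (p (nat_lit 0x30092)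 (nat_lit 0) (p (nat_lit 0x18012) (nat_lit 0) pn))))))))))))))))))))))))) :=
  Cl.node (nat_lit 0x109) (nat_lit 2) (by decide +kernel) (ClAll.succ (ClAll.succ ClAll.zero n68) s129)

def n99 : Cl (O (nat_lit 3)) (R (nat_lit 135377))
    (p (nat_lit 0x109) (nat_lit 0) (p (nat_lit 0x101) (nat_lit 0) (p (nat_lit 0x119) (nat_lit 0) (p (nat_lit 0xc1) (nat_lit 0) (p (nat_lit 0x81) (nat_lit 1) (p (nat_lit 0x41) (nat_lit 1) (p (nat_lit 0x8b0a09890a9a) (nat_lit 0) (p (nat_lit 0xa8989088a1a) (nat_lit 0) (p (nat_lit 0x8a090888079a) (nat_lit 0) (p (nat_lit 0x9888807871a) (nat_lit 0) (p (nat_lit 0x80000800090787088a) (nat_lit 0) (p (nat_lit 0x80000800088706860a) (nat_lit 0) (p (nat_lit 0x8706860782) (nat_lit 0) (p (nat_lit 0x686058702) (nat_lit 0) (p (nat_lit 0x8605850482) (nat_lit 0) (p (nat_lit 0x585048402) (nat_lit 0) (p (nat_lit 0x160014) (nat_lit 0) (p (nat_lit 0x60592) (nat_lit 0) (p (nat_lit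 0x48512) (nat_lit 0) (p (nat_lit 0x50392) (nat_lit 0) (p (nat_lit 0x38312) (nat_lit 0) (p (nat_lit 0x40212) (nat_lit 0) (p (nat_lit 0x28192) (nat_lit 0) (p (nat_lit 0x30092) (nat_lit 0) (p (nat_lit 0x18012) (nat_lit 0) pn))))))))))))))))))))))))) :=
  Cl.node (nat_lit 0x111) (nat_lit 2) (by decide +kernel) (ClAll.succ (ClAll.succ ClAll.zero s130) n69)

def n100 : Cl (O (nat_lit 3)) (R (nat_lit 135377))
    (p (nat_lit 0x109) (nat_lit 1) (p (nat_lit 0x101) (nat_lit 0) (p (nat_lit 0x119) (nat_lit 0) (p (nat_lit 0xc1) (nat_lit 0) (p (nat_lit 0x81) (nat_lit 1) (p (nat_lit 0x41) (nat_lit 1) (p (nat_lit 0x8b0a09890a9a) (nat_lit 0) (p (nat_lit 0xa8989088a1a) (nat_lit 0) (p (nat_lit 0x8a090888079a) (nat_lit 0) (p (nat_lit 0x9888807871a) (nat_lit 0) (p (nat_lit 0x80000800090787088a) (nat_lit 0) (p (nat_lit 0x80000800088706860a) (nat_lit 0) (p (nat_lit 0x8706860782) (nat_lit 0) (p (nat_lit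 0x686058702) (nat_lit 0) (p (nat_lit 0x8605850482) (nat_lit 0) (p (nat_lit 0x585048402) (nat_lit 0) (p (nat_lit 0x160014) (nat_lit 0) (p (nat_lit 0x60592) (nat_lit 0) (p (nat_lit 0x48512) (nat_lit 0) (p (nat_lit 0x50392) (nat_lit 0) (p (nat_lit 0x38312) (nat_lit 0) (p (nat_lit 0x40212) (nat_lit 0) (p (nat_lit 0x28192) (nat_lit 0) (p (nat_lit 0x30092) (nat_lit 0) (p (nat_lit 0x18012) (nat_lit 0) pn))))))))))))))))))))))))) :=
  Cl.node (nat_lit 0xc9) (nat_lit 2) (by decide +kernel) (ClAll.succ (ClAll.succ ClAll.zero n70) s137)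

def n101 : Cl (O (nat_lit 3)) (R (nat_lit 135377))
    (p (nat_lit 0xc9) (nat_lit 0) (p (nat_lit 0x101) (nat_lit 1) (p (nat_lit 0x119) (nat_lit 0) (p (nat_lit 0xc1) (nat_lit 0) (p (nat_lit 0x81) (nat_lit 1) (p (nat_lit 0x41) (nat_lit 1) (p (nat_lit 0x8b0a09890a9a) (nat_lit 0) (p (nat_lit 0xa8989088a1a) (nat_lit 0) (p (nat_lit 0x8a090888079a) (nat_lit 0) (p (nat_lit 0x9888807871a) (nat_lit 0) (p (nat_lit 0x80000800090787088a) (nat_lit 0) (p (nat_lit 0x80000800088706860a) (nat_lit 0) (p (nat_lit 0x8706860782) (nat_lit 0) (p (nat_lit 0x686058702) (nat_lit 0) (p (nat_lit 0x8605850482) (nat_lit 0) (p (nat_lit 0x585048402) (nat_lit 0) (p (nat_lit 0x160014) (nat_lit 0) (p (nat_lit 0x60592) (nat_lit 0) (p (nat_lit 0x48512) (nat_lit 0) (p (nat_lit 0x50392) (nat_lit 0) (p (nat_lit 0x38312) (nat_lit 0) (p (nat_lit 0x40212) (nat_lit 0) (p (nat_lit 0x28192) (nat_lit 0) (p (nat_lit 0x30092)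 (nat_lit 0) (p (nat_lit 0x18012) (nat_lit 0) pn))))))))))))))))))))))))) :=
  Cl.node (nat_lit 0xd1) (nat_lit 2) (by decide +kernel) (ClAll.succ (ClAll.succ ClAll.zero s138) n71)

def n102 : Cl (O (nat_lit 3)) (R (nat_lit 135377))
    (p (nat_lit 0xd1) (nat_lit 1) (p (nat_lit 0xc9) (nat_lit 0) (p (nat_lit 0x119) (nat_lit 1) (p (nat_lit 0xc1) (nat_lit 0) (p (nat_lit 0x81) (nat_lit 1) (p (nat_lit 0x41) (nat_lit 1) (p (nat_lit 0x8b0a09890a9a) (nat_lit 0) (p (nat_lit 0xa8989088a1a) (nat_lit 0) (p (nat_lit 0x8a090888079a) (nat_lit 0) (p (nat_lit 0x9888807871a) (nat_lit 0) (p (nat_lit 0x80000800090787088a) (nat_lit 0) (p (nat_lit 0x80000800088706860a) (nat_lit 0) (p (nat_lit 0x8706860782) (nat_lit 0) (p (nat_lit 0x686058702) (nat_lit 0) (p (nat_lit 0x8605850482) (nat_lit 0) (p (nat_lit 0x585048402) (nat_lit 0) (p (nat_lit 0x160014) (nat_lit 0) (p (nat_lit 0x60592) (nat_lit 0) (p (nat_lit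 0x48512) (nat_lit 0) (p (nat_lit 0x50392) (nat_lit 0) (p (nat_lit 0x38312) (nat_lit 0) (p (nat_lit 0x40212) (nat_lit 0) (p (nat_lit 0x28192) (nat_lit 0) (p (nat_lit 0x30092) (nat_lit 0) (p (nat_lit 0x18012) (nat_lit 0) pn))))))))))))))))))))))))) :=
  Cl.node (nat_lit 0x111) (nat_lit 2) (by decide +kernel) (ClAll.succ (ClAll.succ ClAll.zero s143) n72)

def n103 : Cl (O (nat_lit 3)) (R (nat_lit 135377))
    (p (nat_lit 0x109) (nat_lit 0) (p (nat_lit 0xc9) (nat_lit 1) (p (nat_lit 0x119) (nat_lit 1) (p (nat_lit 0xc1) (nat_lit 0) (p (nat_lit 0x81) (nat_lit 1) (p (nat_lit 0x41) (nat_lit 1) (p (nat_lit 0x8b0a09890a9a) (nat_lit 0) (p (nat_lit 0xa8989088a1a) (nat_lit 0) (p (nat_lit 0x8a090888079a) (nat_lit 0) (p (nat_lit 0x9888807871a) (nat_lit 0) (p (nat_lit 0x80000800090787088a) (nat_lit 0) (p (nat_lit 0x80000800088706860a) (nat_lit 0) (p (nat_lit 0x8706860782) (nat_lit 0) (p (nat_lit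 0x686058702) (nat_lit 0) (p (nat_lit 0x8605850482) (nat_lit 0) (p (nat_lit 0x585048402) (nat_lit 0) (p (nat_lit 0x160014) (nat_lit 0) (p (nat_lit 0x60592) (nat_lit 0) (p (nat_lit 0x48512) (nat_lit 0) (p (nat_lit 0x50392) (nat_lit 0) (p (nat_lit 0x38312) (nat_lit 0) (p (nat_lit 0x40212) (nat_lit 0) (p (nat_lit 0x28192) (nat_lit 0) (p (nat_lit 0x30092) (nat_lit 0) (p (nat_lit 0x18012) (nat_lit 0) pn))))))))))))))))))))))))) :=
  Cl.node (nat_lit 0x111) (nat_lit 2) (by decide +kernel) (ClAll.succ (ClAll.succ ClAll.zero s147) n73)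

def n104 : Cl (O (nat_lit 3)) (R (nat_lit 135377))
    (p (nat_lit 0x101) (nat_lit 0) (p (nat_lit 0x119) (nat_lit 0) (p (nat_lit 0xd1) (nat_lit 0) (p (nat_lit 0x89) (nat_lit 0) (p (nat_lit 0x41) (nat_lit 0) (p (nat_lit 0x8b0a09890a9a) (nat_lit 0) (p (nat_lit 0xa8989088a1a) (nat_lit 0) (p (nat_lit 0x8a090888079a) (nat_lit 0) (p (nat_lit 0x9888807871a) (nat_lit 0) (p (nat_lit 0x80000800090787088a) (nat_lit 0) (p (nat_lit 0x80000800088706860a) (nat_lit 0) (p (nat_lit 0x8706860782) (nat_lit 0) (p (nat_lit 0x686058702) (nat_lit 0) (p (nat_lit 0x8605850482) (nat_lit 0) (p (nat_lit 0x585048402) (nat_lit 0) (p (nat_lit 0x160014) (nat_lit 0) (p (nat_lit 0x60592) (nat_lit 0) (p (nat_lit 0x48512) (nat_lit 0) (p (nat_lit 0x50392) (nat_lit 0) (p (nat_lit 0x38312) (nat_lit 0) (p (nat_lit 0x40212) (nat_lit 0) (p (nat_lit 0x28192) (nat_lit 0) (p (nat_lit 0x30092) (nat_lit 0) (p (nat_lit 0x18012)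 (nat_lit 0) pn)))))))))))))))))))))))) :=
  Cl.node (nat_lit 0x109) (nat_lit 2) (by decide +kernel) (ClAll.succ (ClAll.succ ClAll.zero s0) n74)

def n105 : Cl (O (nat_lit 3)) (R (nat_lit 135377))
    (p (nat_lit 0x101) (nat_lit 1) (p (nat_lit 0x119) (nat_lit 0) (p (nat_lit 0xd1) (nat_lit 0) (p (nat_lit 0x89) (nat_lit 0) (p (nat_lit 0x41) (nat_lit 0) (p (nat_lit 0x8b0a09890a9a) (nat_lit 0) (p (nat_lit 0xa8989088a1a) (nat_lit 0) (p (nat_lit 0x8a090888079a) (nat_lit 0) (p (nat_lit 0x9888807871a) (nat_lit 0) (p (nat_lit 0x80000800090787088a) (nat_lit 0) (p (nat_lit 0x80000800088706860a) (nat_lit 0) (p (nat_lit 0x8706860782) (nat_lit 0) (p (nat_lit 0x686058702) (nat_lit 0) (p (nat_lit 0x8605850482) (nat_lit 0) (p (nat_lit 0x585048402) (nat_lit 0) (p (nat_lit 0x160014) (nat_lit 0) (p (nat_lit 0x60592) (nat_lit 0) (p (nat_lit 0x48512) (nat_lit 0) (p (nat_lit 0x50392) (nat_lit 0) (p (nat_lit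 0x38312) (nat_lit 0) (p (nat_lit 0x40212) (nat_lit 0) (p (nat_lit 0x28192) (nat_lit 0) (p (nat_lit 0x30092) (nat_lit 0) (p (nat_lit 0x18012) (nat_lit 0) pn)))))))))))))))))))))))) :=
  Cl.node (nat_lit 0x81) (nat_lit 2) (by decide +kernel) (ClAll.succ (ClAll.succ ClAll.zero n75) n76)

def n106 : Cl (O (nat_lit 3)) (R (nat_lit 135377))
    (p (nat_lit 0xc1) (nat_lit 0) (p (nat_lit 0x119) (nat_lit 1) (p (nat_lit 0xd1) (nat_lit 0) (p (nat_lit 0x89) (nat_lit 0) (p (nat_lit 0x41) (nat_lit 0) (p (nat_lit 0x8b0a09890a9a) (nat_lit 0) (p (nat_lit 0xa8989088a1a) (nat_lit 0) (p (nat_lit 0x8a090888079a) (nat_lit 0) (p (nat_lit 0x9888807871a) (nat_lit 0) (p (nat_lit 0x80000800090787088a) (nat_lit 0) (p (nat_lit 0x80000800088706860a) (nat_lit 0) (p (nat_lit 0x8706860782) (nat_lit 0) (p (nat_lit 0x686058702) (nat_lit 0) (p (nat_lit 0x8605850482) (nat_lit 0) (p (nat_lit 0x585048402) (nat_lit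 0) (p (nat_lit 0x160014) (nat_lit 0) (p (nat_lit 0x60592) (nat_lit 0) (p (nat_lit 0x48512) (nat_lit 0) (p (nat_lit 0x50392) (nat_lit 0) (p (nat_lit 0x38312) (nat_lit 0) (p (nat_lit 0x40212) (nat_lit 0) (p (nat_lit 0x28192) (nat_lit 0) (p (nat_lit 0x30092) (nat_lit 0) (p (nat_lit 0x18012) (nat_lit 0) pn)))))))))))))))))))))))) :=
  Cl.node (nat_lit 0xc9) (nat_lit 2) (by decide +kernel) (ClAll.succ (ClAll.succ ClAll.zero s15) n77)

def n107 : Cl (O (nat_lit 3)) (R (nat_lit 135377))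
    (p (nat_lit 0xc1) (nat_lit 1) (p (nat_lit 0x119) (nat_lit 1) (p (nat_lit 0xd1) (nat_lit 0) (p (nat_lit 0x89) (nat_lit 0) (p (nat_lit 0x41) (nat_lit 0) (p (nat_lit 0x8b0a09890a9a) (nat_lit 0) (p (nat_lit 0xa8989088a1a) (nat_lit 0) (p (nat_lit 0x8a090888079a) (nat_lit 0) (p (nat_lit 0x9888807871a) (nat_lit 0) (p (nat_lit 0x80000800090787088a) (nat_lit 0) (p (nat_lit 0x80000800088706860a) (nat_lit 0) (p (nat_lit 0x8706860782) (nat_lit 0) (p (nat_lit 0x686058702) (nat_lit 0) (p (nat_lit 0x8605850482) (nat_lit 0) (p (nat_lit 0x585048402) (nat_lit 0) (p (nat_lit 0x160014) (nat_lit 0) (p (nat_lit 0x60592) (nat_lit 0) (p (nat_lit 0x48512) (nat_lit 0) (p (nat_lit 0x50392) (nat_lit 0) (p (nat_lit 0x38312) (nat_lit 0) (p (nat_lit 0x40212) (nat_lit 0) (p (nat_lit 0x28192) (nat_lit 0) (p (nat_lit 0x30092) (nat_lit 0) (p (nat_lit 0x18012) (nat_lit 0) pn)))))))))))))))))))))))) :=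
  Cl.node (nat_lit 0x81) (nat_lit 2) (by decide +kernel) (ClAll.succ (ClAll.succ ClAll.zero n78) n79)

def n108 : Cl (O (nat_lit 3)) (R (nat_lit 135377))
    (p (nat_lit 0x101) (nat_lit 0) (p (nat_lit 0x111) (nat_lit 0) (p (nat_lit 0xd1) (nat_lit 1) (p (nat_lit 0x89) (nat_lit 0) (p (nat_lit 0x41) (nat_lit 0) (p (nat_lit 0x8b0a09890a9a) (nat_lit 0) (p (nat_lit 0xa8989088a1a) (nat_lit 0) (p (nat_lit 0x8a090888079a) (nat_lit 0) (p (nat_lit 0x9888807871a) (nat_lit 0) (p (nat_lit 0x80000800090787088a) (nat_lit 0) (p (nat_lit 0x80000800088706860a) (nat_lit 0) (p (nat_lit 0x8706860782) (nat_lit 0) (p (nat_lit 0x686058702) (nat_lit 0) (p (nat_lit 0x8605850482) (nat_lit 0) (p (nat_lit 0x585048402) (nat_lit 0) (p (nat_lit 0x160014) (nat_lit 0) (p (nat_lit 0x60592) (nat_lit 0) (p (nat_lit 0x48512) (nat_lit 0) (p (nat_lit 0x50392) (nat_lit 0) (p (nat_lit 0x38312) (nat_lit 0) (p (nat_lit 0x40212)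 (nat_lit 0) (p (nat_lit 0x28192) (nat_lit 0) (p (nat_lit 0x30092) (nat_lit 0) (p (nat_lit 0x18012) (nat_lit 0) pn)))))))))))))))))))))))) :=
  Cl.node (nat_lit 0x109) (nat_lit 2) (by decide +kernel) (ClAll.succ (ClAll.succ ClAll.zero s26) n80)

def n109 : Cl (O (nat_lit 3)) (R (nat_lit 135377))
    (p (nat_lit 0x101) (nat_lit 1) (p (nat_lit 0x111) (nat_lit 0) (p (nat_lit 0xd1) (nat_lit 1) (p (nat_lit 0x89) (nat_lit 0) (p (nat_lit 0x41) (nat_lit 0) (p (nat_lit 0x8b0a09890a9a) (nat_lit 0) (p (nat_lit 0xa8989088a1a) (nat_lit 0) (p (nat_lit 0x8a090888079a) (nat_lit 0) (p (nat_lit 0x9888807871a) (nat_lit 0) (p (nat_lit 0x80000800090787088a) (nat_lit 0) (p (nat_lit 0x80000800088706860a) (nat_lit 0) (p (nat_lit 0x8706860782) (nat_lit 0) (p (nat_lit 0x686058702) (nat_lit 0) (p (nat_lit 0x8605850482) (nat_lit 0) (p (nat_lit 0x585048402) (nat_lit 0) (p (nat_lit 0x160014) (nat_lit 0) (p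 (nat_lit 0x60592) (nat_lit 0) (p (nat_lit 0x48512) (nat_lit 0) (p (nat_lit 0x50392) (nat_lit 0) (p (nat_lit 0x38312) (nat_lit 0) (p (nat_lit 0x40212) (nat_lit 0) (p (nat_lit 0x28192) (nat_lit 0) (p (nat_lit 0x30092) (nat_lit 0) (p (nat_lit 0x18012) (nat_lit 0) pn)))))))))))))))))))))))) :=
  Cl.node (nat_lit 0x81) (nat_lit 2) (by decide +kernel) (ClAll.succ (ClAll.succ ClAll.zero n81) n82)

def n110 : Cl (O (nat_lit 3)) (R (nat_lit 135377))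
    (p (nat_lit 0x81) (nat_lit 1) (p (nat_lit 0x111) (nat_lit 1) (p (nat_lit 0xd1) (nat_lit 1) (p (nat_lit 0x89) (nat_lit 0) (p (nat_lit 0x41) (nat_lit 0) (p (nat_lit 0x8b0a09890a9a) (nat_lit 0) (p (nat_lit 0xa8989088a1a) (nat_lit 0) (p (nat_lit 0x8a090888079a) (nat_lit 0) (p (nat_lit 0x9888807871a) (nat_lit 0) (p (nat_lit 0x80000800090787088a) (nat_lit 0) (p (nat_lit 0x80000800088706860a) (nat_lit 0) (p (nat_lit 0x8706860782) (nat_lit 0) (p (nat_lit 0x686058702) (nat_lit 0) (p (nat_lit 0x8605850482) (nat_lit 0) (p (nat_lit 0x585048402) (nat_lit 0) (p (nat_lit 0x160014) (nat_lit 0) (p (nat_lit 0x60592) (nat_lit 0) (p (nat_lit 0x48512) (nat_lit 0) (p (nat_lit 0x50392) (nat_lit 0) (p (nat_lit 0x38312) (nat_lit 0) (p (nat_lit 0x40212) (nat_lit 0) (p (nat_lit 0x28192) (nat_lit 0) (p (nat_lit 0x30092) (nat_lit 0) (p (nat_lit 0x18012) (nat_lit 0) pn)))))))))))))))))))))))) :=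
  Cl.node (nat_lit 0xc1) (nat_lit 2) (by decide +kernel) (ClAll.succ (ClAll.succ ClAll.zero s40) n83)

def n111 : Cl (O (nat_lit 3)) (R (nat_lit 135377))
    (p (nat_lit 0x101) (nat_lit 0) (p (nat_lit 0x119) (nat_lit 0) (p (nat_lit 0xc9) (nat_lit 0) (p (nat_lit 0x89) (nat_lit 1) (p (nat_lit 0x41) (nat_lit 0) (p (nat_lit 0x8b0a09890a9a) (nat_lit 0) (p (nat_lit 0xa8989088a1a) (nat_lit 0) (p (nat_lit 0x8a090888079a) (nat_lit 0) (p (nat_lit 0x9888807871a) (nat_lit 0) (p (nat_lit 0x80000800090787088a) (nat_lit 0) (p (nat_lit 0x80000800088706860a) (nat_lit 0) (p (nat_lit 0x8706860782) (nat_lit 0) (p (nat_lit 0x686058702) (nat_lit 0) (p (nat_lit 0x8605850482) (nat_lit 0) (p (nat_lit 0x585048402) (nat_lit 0) (p (nat_lit 0x160014) (nat_lit 0) (p (nat_lit 0x60592) (nat_lit 0) (p (nat_lit 0x48512) (nat_lit 0) (p (nat_lit 0x50392) (nat_lit 0) (p (nat_lit 0x38312) (nat_lit 0) (p (nat_lit 0x40212)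 (nat_lit 0) (p (nat_lit 0x28192) (nat_lit 0) (p (nat_lit 0x30092) (nat_lit 0) (p (nat_lit 0x18012) (nat_lit 0) pn)))))))))))))))))))))))) :=
  Cl.node (nat_lit 0x109) (nat_lit 2) (by decide +kernel) (ClAll.succ (ClAll.succ ClAll.zero n84) n85)

def n112 : Cl (O (nat_lit 3)) (R (nat_lit 135377))
    (p (nat_lit 0x101) (nat_lit 1) (p (nat_lit 0x119) (nat_lit 0) (p (nat_lit 0xc9) (nat_lit 0) (p (nat_lit 0x89) (nat_lit 1) (p (nat_lit 0x41) (nat_lit 0) (p (nat_lit 0x8b0a09890a9a) (nat_lit 0) (p (nat_lit 0xa8989088a1a) (nat_lit 0) (p (nat_lit 0x8a090888079a) (nat_lit 0) (p (nat_lit 0x9888807871a) (nat_lit 0) (p (nat_lit 0x80000800090787088a) (nat_lit 0) (p (nat_lit 0x80000800088706860a) (nat_lit 0) (p (nat_lit 0x8706860782) (nat_lit 0) (p (nat_lit 0x686058702) (nat_lit 0) (p (nat_lit 0x8605850482) (nat_lit 0) (p (nat_lit 0x585048402) (nat_lit 0) (p (nat_lit 0x160014) (nat_lit 0) (p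 (nat_lit 0x60592) (nat_lit 0) (p (nat_lit 0x48512) (nat_lit 0) (p (nat_lit 0x50392) (nat_lit 0) (p (nat_lit 0x38312) (nat_lit 0) (p (nat_lit 0x40212) (nat_lit 0) (p (nat_lit 0x28192) (nat_lit 0) (p (nat_lit 0x30092) (nat_lit 0) (p (nat_lit 0x18012) (nat_lit 0) pn)))))))))))))))))))))))) :=
  Cl.node (nat_lit 0xc1) (nat_lit 2) (by decide +kernel) (ClAll.succ (ClAll.succ ClAll.zero n86) s53)

def n113 : Cl (O (nat_lit 3)) (R (nat_lit 135377))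
    (p (nat_lit 0xc1) (nat_lit 0) (p (nat_lit 0x119) (nat_lit 1) (p (nat_lit 0xc9) (nat_lit 0) (p (nat_lit 0x89) (nat_lit 1) (p (nat_lit 0x41) (nat_lit 0) (p (nat_lit 0x8b0a09890a9a) (nat_lit 0) (p (nat_lit 0xa8989088a1a) (nat_lit 0) (p (nat_lit 0x8a090888079a) (nat_lit 0) (p (nat_lit 0x9888807871a) (nat_lit 0) (p (nat_lit 0x80000800090787088a) (nat_lit 0) (p (nat_lit 0x80000800088706860a) (nat_lit 0) (p (nat_lit 0x8706860782) (nat_lit 0) (p (nat_lit 0x686058702) (nat_lit 0) (p (nat_lit 0x8605850482) (nat_lit 0) (p (nat_lit 0x585048402) (nat_lit 0) (p (nat_lit 0x160014) (nat_lit 0) (p (nat_lit 0x60592) (nat_lit 0) (p (nat_lit 0x48512) (nat_lit 0) (p (nat_lit 0x50392) (nat_lit 0) (p (nat_lit 0x38312) (nat_lit 0) (p (nat_lit 0x40212) (nat_lit 0) (p (nat_lit 0x28192) (nat_lit 0) (p (nat_lit 0x30092) (nat_lit 0) (p (nat_lit 0x18012) (nat_lit 0) pn)))))))))))))))))))))))) :=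
  Cl.node (nat_lit 0xd1) (nat_lit 2) (by decide +kernel) (ClAll.succ (ClAll.succ ClAll.zero s54) n87)

def n114 : Cl (O (nat_lit 3)) (R (nat_lit 135377))
    (p (nat_lit 0xc1) (nat_lit 1) (p (nat_lit 0x119) (nat_lit 1) (p (nat_lit 0xc9) (nat_lit 0) (p (nat_lit 0x89) (nat_lit 1) (p (nat_lit 0x41) (nat_lit 0) (p (nat_lit 0x8b0a09890a9a) (nat_lit 0) (p (nat_lit 0xa8989088a1a) (nat_lit 0) (p (nat_lit 0x8a090888079a) (nat_lit 0) (p (nat_lit 0x9888807871a) (nat_lit 0) (p (nat_lit 0x80000800090787088a) (nat_lit 0) (p (nat_lit 0x80000800088706860a) (nat_lit 0) (p (nat_lit 0x8706860782) (nat_lit 0) (p (nat_lit 0x686058702) (nat_lit 0) (p (nat_lit 0x8605850482) (nat_lit 0) (p (nat_lit 0x585048402) (nat_lit 0) (p (nat_lit 0x160014) (nat_lit 0) (p (nat_lit 0x60592) (nat_lit 0) (p (nat_lit 0x48512) (nat_lit 0) (p (nat_lit 0x50392) (nat_lit 0) (p (nat_lit 0x38312) (nat_lit 0) (p (nat_lit 0x40212)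 (nat_lit 0) (p (nat_lit 0x28192) (nat_lit 0) (p (nat_lit 0x30092) (nat_lit 0) (p (nat_lit 0x18012) (nat_lit 0) pn)))))))))))))))))))))))) :=
  Cl.node (nat_lit 0x101) (nat_lit 2) (by decide +kernel) (ClAll.succ (ClAll.succ ClAll.zero n88) s60)

def n115 : Cl (O (nat_lit 3)) (R (nat_lit 135377))
    (p (nat_lit 0x101) (nat_lit 0) (p (nat_lit 0x119) (nat_lit 0) (p (nat_lit 0xd1) (nat_lit 0) (p (nat_lit 0x81) (nat_lit 0) (p (nat_lit 0x41) (nat_lit 1) (p (nat_lit 0x8b0a09890a9a) (nat_lit 0) (p (nat_lit 0xa8989088a1a) (nat_lit 0) (p (nat_lit 0x8a090888079a) (nat_lit 0) (p (nat_lit 0x9888807871a) (nat_lit 0) (p (nat_lit 0x80000800090787088a) (nat_lit 0) (p (nat_lit 0x80000800088706860a) (nat_lit 0) (p (nat_lit 0x8706860782) (nat_lit 0) (p (nat_lit 0x686058702) (nat_lit 0) (p (nat_lit 0x8605850482) (nat_lit 0) (p (nat_lit 0x585048402) (nat_lit 0) (p (nat_lit 0x160014) (nat_lit 0) (p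 (nat_lit 0x60592) (nat_lit 0) (p (nat_lit 0x48512) (nat_lit 0) (p (nat_lit 0x50392) (nat_lit 0) (p (nat_lit 0x38312) (nat_lit 0) (p (nat_lit 0x40212) (nat_lit 0) (p (nat_lit 0x28192) (nat_lit 0) (p (nat_lit 0x30092) (nat_lit 0) (p (nat_lit 0x18012) (nat_lit 0) pn)))))))))))))))))))))))) :=
  Cl.node (nat_lit 0x109) (nat_lit 2) (by decide +kernel) (ClAll.succ (ClAll.succ ClAll.zero s62) n89)

def n116 : Cl (O (nat_lit 3)) (R (nat_lit 135377))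
    (p (nat_lit 0x101) (nat_lit 1) (p (nat_lit 0x119) (nat_lit 0) (p (nat_lit 0xd1) (nat_lit 0) (p (nat_lit 0x81) (nat_lit 0) (p (nat_lit 0x41) (nat_lit 1) (p (nat_lit 0x8b0a09890a9a) (nat_lit 0) (p (nat_lit 0xa8989088a1a) (nat_lit 0) (p (nat_lit 0x8a090888079a) (nat_lit 0) (p (nat_lit 0x9888807871a) (nat_lit 0) (p (nat_lit 0x80000800090787088a) (nat_lit 0) (p (nat_lit 0x80000800088706860a) (nat_lit 0) (p (nat_lit 0x8706860782) (nat_lit 0) (p (nat_lit 0x686058702) (nat_lit 0) (p (nat_lit 0x8605850482) (nat_lit 0) (p (nat_lit 0x585048402) (nat_lit 0) (p (nat_lit 0x160014) (nat_lit 0) (p (nat_lit 0x60592) (nat_lit 0) (p (nat_lit 0x48512) (nat_lit 0) (p (nat_lit 0x50392) (nat_lit 0) (p (nat_lit 0x38312) (nat_lit 0) (p (nat_lit 0x40212) (nat_lit 0) (p (nat_lit 0x28192) (nat_lit 0) (p (nat_lit 0x30092) (nat_lit 0) (p (nat_lit 0x18012) (nat_lit 0) pn)))))))))))))))))))))))) :=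
  Cl.node (nat_lit 0xc1) (nat_lit 2) (by decide +kernel) (ClAll.succ (ClAll.succ ClAll.zero n90) n91)

def n117 : Cl (O (nat_lit 3)) (R (nat_lit 135377))
    (p (nat_lit 0xc1) (nat_lit 0) (p (nat_lit 0x119) (nat_lit 1) (p (nat_lit 0xd1) (nat_lit 0) (p (nat_lit 0x81) (nat_lit 0) (p (nat_lit 0x41) (nat_lit 1) (p (nat_lit 0x8b0a09890a9a) (nat_lit 0) (p (nat_lit 0xa8989088a1a) (nat_lit 0) (p (nat_lit 0x8a090888079a) (nat_lit 0) (p (nat_lit 0x9888807871a) (nat_lit 0) (p (nat_lit 0x80000800090787088a) (nat_lit 0) (p (nat_lit 0x80000800088706860a) (nat_lit 0) (p (nat_lit 0x8706860782) (nat_lit 0) (p (nat_lit 0x686058702) (nat_lit 0) (p (nat_lit 0x8605850482) (nat_lit 0) (p (nat_lit 0x585048402) (nat_lit 0) (p (nat_lit 0x160014) (nat_lit 0) (p (nat_lit 0x60592) (nat_lit 0) (p (nat_lit 0x48512) (nat_lit 0) (p (nat_lit 0x50392) (nat_lit 0) (p (nat_lit 0x38312) (nat_lit 0) (p (nat_lit 0x40212)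 (nat_lit 0) (p (nat_lit 0x28192) (nat_lit 0) (p (nat_lit 0x30092) (nat_lit 0) (p (nat_lit 0x18012) (nat_lit 0) pn)))))))))))))))))))))))) :=
  Cl.node (nat_lit 0xc9) (nat_lit 2) (by decide +kernel) (ClAll.succ (ClAll.succ ClAll.zero s87) n92)

def n118 : Cl (O (nat_lit 3)) (R (nat_lit 135377))
    (p (nat_lit 0xc1) (nat_lit 1) (p (nat_lit 0x119) (nat_lit 1) (p (nat_lit 0xd1) (nat_lit 0) (p (nat_lit 0x81) (nat_lit 0) (p (nat_lit 0x41) (nat_lit 1) (p (nat_lit 0x8b0a09890a9a) (nat_lit 0) (p (nat_lit 0xa8989088a1a) (nat_lit 0) (p (nat_lit 0x8a090888079a) (nat_lit 0) (p (nat_lit 0x9888807871a) (nat_lit 0) (p (nat_lit 0x80000800090787088a) (nat_lit 0) (p (nat_lit 0x80000800088706860a) (nat_lit 0) (p (nat_lit 0x8706860782) (nat_lit 0) (p (nat_lit 0x686058702) (nat_lit 0) (p (nat_lit 0x8605850482) (nat_lit 0) (p (nat_lit 0x585048402) (nat_lit 0) (p (nat_lit 0x160014) (nat_lit 0) (p (nat_lit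 0x60592) (nat_lit 0) (p (nat_lit 0x48512) (nat_lit 0) (p (nat_lit 0x50392) (nat_lit 0) (p (nat_lit 0x38312) (nat_lit 0) (p (nat_lit 0x40212) (nat_lit 0) (p (nat_lit 0x28192) (nat_lit 0) (p (nat_lit 0x30092) (nat_lit 0) (p (nat_lit 0x18012) (nat_lit 0) pn)))))))))))))))))))))))) :=
  Cl.node (nat_lit 0x101) (nat_lit 2) (by decide +kernel) (ClAll.succ (ClAll.succ ClAll.zero n93) n94)

def n119 : Cl (O (nat_lit 3)) (R (nat_lit 135377))
    (p (nat_lit 0x101) (nat_lit 0) (p (nat_lit 0x111) (nat_lit 0) (p (nat_lit 0xd1) (nat_lit 1) (p (nat_lit 0x81) (nat_lit 0) (p (nat_lit 0x41) (nat_lit 1) (p (nat_lit 0x8b0a09890a9a) (nat_lit 0) (p (nat_lit 0xa8989088a1a) (nat_lit 0) (p (nat_lit 0x8a090888079a) (nat_lit 0) (p (nat_lit 0x9888807871a) (nat_lit 0) (p (nat_lit 0x80000800090787088a) (nat_lit 0) (p (nat_lit 0x80000800088706860a) (nat_lit 0) (p (nat_lit 0x8706860782) (nat_lit 0) (p (nat_lit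 0x686058702) (nat_lit 0) (p (nat_lit 0x8605850482) (nat_lit 0) (p (nat_lit 0x585048402) (nat_lit 0) (p (nat_lit 0x160014) (nat_lit 0) (p (nat_lit 0x60592) (nat_lit 0) (p (nat_lit 0x48512) (nat_lit 0) (p (nat_lit 0x50392) (nat_lit 0) (p (nat_lit 0x38312) (nat_lit 0) (p (nat_lit 0x40212) (nat_lit 0) (p (nat_lit 0x28192) (nat_lit 0) (p (nat_lit 0x30092) (nat_lit 0) (p (nat_lit 0x18012) (nat_lit 0) pn)))))))))))))))))))))))) :=
  Cl.node (nat_lit 0x109) (nat_lit 2) (by decide +kernel) (ClAll.succ (ClAll.succ ClAll.zero s105) n95)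

def n120 : Cl (O (nat_lit 3)) (R (nat_lit 135377))
    (p (nat_lit 0x101) (nat_lit 1) (p (nat_lit 0x111) (nat_lit 0) (p (nat_lit 0xd1) (nat_lit 1) (p (nat_lit 0x81) (nat_lit 0) (p (nat_lit 0x41) (nat_lit 1) (p (nat_lit 0x8b0a09890a9a) (nat_lit 0) (p (nat_lit 0xa8989088a1a) (nat_lit 0) (p (nat_lit 0x8a090888079a) (nat_lit 0) (p (nat_lit 0x9888807871a) (nat_lit 0) (p (nat_lit 0x80000800090787088a) (nat_lit 0) (p (nat_lit 0x80000800088706860a) (nat_lit 0) (p (nat_lit 0x8706860782) (nat_lit 0) (p (nat_lit 0x686058702) (nat_lit 0) (p (nat_lit 0x8605850482) (nat_lit 0) (p (nat_lit 0x585048402) (nat_lit 0) (p (nat_lit 0x160014) (nat_lit 0) (p (nat_lit 0x60592) (nat_lit 0) (p (nat_lit 0x48512) (nat_lit 0) (p (nat_lit 0x50392) (nat_lit 0) (p (nat_lit 0x38312) (nat_lit 0) (p (nat_lit 0x40212) (nat_lit 0) (p (nat_lit 0x28192) (nat_lit 0) (p (nat_lit 0x30092) (nat_lit 0) (p (nat_lit 0x18012)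 (nat_lit 0) pn)))))))))))))))))))))))) :=
  Cl.node (nat_lit 0x89) (nat_lit 2) (by decide +kernel) (ClAll.succ (ClAll.succ ClAll.zero n96) n97)

def n121 : Cl (O (nat_lit 3)) (R (nat_lit 135377))
    (p (nat_lit 0x89) (nat_lit 1) (p (nat_lit 0x111) (nat_lit 1) (p (nat_lit 0xd1) (nat_lit 1) (p (nat_lit 0x81) (nat_lit 0) (p (nat_lit 0x41) (nat_lit 1) (p (nat_lit 0x8b0a09890a9a) (nat_lit 0) (p (nat_lit 0xa8989088a1a) (nat_lit 0) (p (nat_lit 0x8a090888079a) (nat_lit 0) (p (nat_lit 0x9888807871a) (nat_lit 0) (p (nat_lit 0x80000800090787088a) (nat_lit 0) (p (nat_lit 0x80000800088706860a) (nat_lit 0) (p (nat_lit 0x8706860782) (nat_lit 0) (p (nat_lit 0x686058702) (nat_lit 0) (p (nat_lit 0x8605850482) (nat_lit 0) (p (nat_lit 0x585048402) (nat_lit 0) (p (nat_lit 0x160014) (nat_lit 0) (p (nat_lit 0x60592) (nat_lit 0) (p (nat_lit 0x48512) (nat_lit 0) (p (nat_lit 0x50392) (nat_lit 0) (p (nat_lit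 0x38312) (nat_lit 0) (p (nat_lit 0x40212) (nat_lit 0) (p (nat_lit 0x28192) (nat_lit 0) (p (nat_lit 0x30092) (nat_lit 0) (p (nat_lit 0x18012) (nat_lit 0) pn)))))))))))))))))))))))) :=
  Cl.node (nat_lit 0xc9) (nat_lit 2) (by decide +kernel) (ClAll.succ (ClAll.succ ClAll.zero s126) n98)

def n122 : Cl (O (nat_lit 3)) (R (nat_lit 135377))
    (p (nat_lit 0x101) (nat_lit 0) (p (nat_lit 0x119) (nat_lit 0) (p (nat_lit 0xc1) (nat_lit 0) (p (nat_lit 0x81) (nat_lit 1) (p (nat_lit 0x41) (nat_lit 1) (p (nat_lit 0x8b0a09890a9a) (nat_lit 0) (p (nat_lit 0xa8989088a1a) (nat_lit 0) (p (nat_lit 0x8a090888079a) (nat_lit 0) (p (nat_lit 0x9888807871a) (nat_lit 0) (p (nat_lit 0x80000800090787088a) (nat_lit 0) (p (nat_lit 0x80000800088706860a) (nat_lit 0) (p (nat_lit 0x8706860782) (nat_lit 0) (p (nat_lit 0x686058702) (nat_lit 0) (p (nat_lit 0x8605850482) (nat_lit 0) (p (nat_lit 0x585048402) (nat_lit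 0) (p (nat_lit 0x160014) (nat_lit 0) (p (nat_lit 0x60592) (nat_lit 0) (p (nat_lit 0x48512) (nat_lit 0) (p (nat_lit 0x50392) (nat_lit 0) (p (nat_lit 0x38312) (nat_lit 0) (p (nat_lit 0x40212) (nat_lit 0) (p (nat_lit 0x28192) (nat_lit 0) (p (nat_lit 0x30092) (nat_lit 0) (p (nat_lit 0x18012) (nat_lit 0) pn)))))))))))))))))))))))) :=
  Cl.node (nat_lit 0x109) (nat_lit 2) (by decide +kernel) (ClAll.succ (ClAll.succ ClAll.zero n99) n100)

def n123 : Cl (O (nat_lit 3)) (R (nat_lit 135377))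
    (p (nat_lit 0x101) (nat_lit 1) (p (nat_lit 0x119) (nat_lit 0) (p (nat_lit 0xc1) (nat_lit 0) (p (nat_lit 0x81) (nat_lit 1) (p (nat_lit 0x41) (nat_lit 1) (p (nat_lit 0x8b0a09890a9a) (nat_lit 0) (p (nat_lit 0xa8989088a1a) (nat_lit 0) (p (nat_lit 0x8a090888079a) (nat_lit 0) (p (nat_lit 0x9888807871a) (nat_lit 0) (p (nat_lit 0x80000800090787088a) (nat_lit 0) (p (nat_lit 0x80000800088706860a) (nat_lit 0) (p (nat_lit 0x8706860782) (nat_lit 0) (p (nat_lit 0x686058702) (nat_lit 0) (p (nat_lit 0x8605850482) (nat_lit 0) (p (nat_lit 0x585048402) (nat_lit 0) (p (nat_lit 0x160014) (nat_lit 0) (p (nat_lit 0x60592) (nat_lit 0) (p (nat_lit 0x48512) (nat_lit 0) (p (nat_lit 0x50392) (nat_lit 0) (p (nat_lit 0x38312) (nat_lit 0) (p (nat_lit 0x40212) (nat_lit 0) (p (nat_lit 0x28192) (nat_lit 0) (p (nat_lit 0x30092) (nat_lit 0) (p (nat_lit 0x18012) (nat_lit 0) pn)))))))))))))))))))))))) :=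
  Cl.node (nat_lit 0xc9) (nat_lit 2) (by decide +kernel) (ClAll.succ (ClAll.succ ClAll.zero n101) s141)

def n124 : Cl (O (nat_lit 3)) (R (nat_lit 135377))
    (p (nat_lit 0xc9) (nat_lit 0) (p (nat_lit 0x119) (nat_lit 1) (p (nat_lit 0xc1) (nat_lit 0) (p (nat_lit 0x81) (nat_lit 1) (p (nat_lit 0x41) (nat_lit 1) (p (nat_lit 0x8b0a09890a9a) (nat_lit 0) (p (nat_lit 0xa8989088a1a) (nat_lit 0) (p (nat_lit 0x8a090888079a) (nat_lit 0) (p (nat_lit 0x9888807871a) (nat_lit 0) (p (nat_lit 0x80000800090787088a) (nat_lit 0) (p (nat_lit 0x80000800088706860a) (nat_lit 0) (p (nat_lit 0x8706860782) (nat_lit 0) (p (nat_lit 0x686058702) (nat_lit 0) (p (nat_lit 0x8605850482) (nat_lit 0) (p (nat_lit 0x585048402) (nat_lit 0) (p (nat_lit 0x160014) (nat_lit 0) (p (nat_lit 0x60592) (nat_lit 0) (p (nat_lit 0x48512) (nat_lit 0) (p (nat_lit 0x50392) (nat_lit 0) (p (nat_lit 0x38312) (nat_lit 0) (p (nat_lit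 0x40212) (nat_lit 0) (p (nat_lit 0x28192) (nat_lit 0) (p (nat_lit 0x30092) (nat_lit 0) (p (nat_lit 0x18012) (nat_lit 0) pn)))))))))))))))))))))))) :=
  Cl.node (nat_lit 0xd1) (nat_lit 2) (by decide +kernel) (ClAll.succ (ClAll.succ ClAll.zero s142) n102)

def n125 : Cl (O (nat_lit 3)) (R (nat_lit 135377))
    (p (nat_lit 0xc9) (nat_lit 1) (p (nat_lit 0x119) (nat_lit 1) (p (nat_lit 0xc1) (nat_lit 0) (p (nat_lit 0x81) (nat_lit 1) (p (nat_lit 0x41) (nat_lit 1) (p (nat_lit 0x8b0a09890a9a) (nat_lit 0) (p (nat_lit 0xa8989088a1a) (nat_lit 0) (p (nat_lit 0x8a090888079a) (nat_lit 0) (p (nat_lit 0x9888807871a) (nat_lit 0) (p (nat_lit 0x80000800090787088a) (nat_lit 0) (p (nat_lit 0x80000800088706860a) (nat_lit 0) (p (nat_lit 0x8706860782) (nat_lit 0) (p (nat_lit 0x686058702) (nat_lit 0) (p (nat_lit 0x8605850482) (nat_lit 0) (p (nat_lit 0x585048402) (nat_lit 0) (p (nat_lit 0x160014) (nat_lit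 0) (p (nat_lit 0x60592) (nat_lit 0) (p (nat_lit 0x48512) (nat_lit 0) (p (nat_lit 0x50392) (nat_lit 0) (p (nat_lit 0x38312) (nat_lit 0) (p (nat_lit 0x40212) (nat_lit 0) (p (nat_lit 0x28192) (nat_lit 0) (p (nat_lit 0x30092) (nat_lit 0) (p (nat_lit 0x18012) (nat_lit 0) pn)))))))))))))))))))))))) :=
  Cl.node (nat_lit 0x109) (nat_lit 2) (by decide +kernel) (ClAll.succ (ClAll.succ ClAll.zero n103) s150)

def n126 : Cl (O (nat_lit 3)) (R (nat_lit 135377))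
    (p (nat_lit 0x119) (nat_lit 0) (p (nat_lit 0xd1) (nat_lit 0) (p (nat_lit 0x89) (nat_lit 0) (p (nat_lit 0x41) (nat_lit 0) (p (nat_lit 0x8b0a09890a9a) (nat_lit 0) (p (nat_lit 0xa8989088a1a) (nat_lit 0) (p (nat_lit 0x8a090888079a) (nat_lit 0) (p (nat_lit 0x9888807871a) (nat_lit 0) (p (nat_lit 0x80000800090787088a) (nat_lit 0) (p (nat_lit 0x80000800088706860a) (nat_lit 0) (p (nat_lit 0x8706860782) (nat_lit 0) (p (nat_lit 0x686058702) (nat_lit 0) (p (nat_lit 0x8605850482) (nat_lit 0) (p (nat_lit 0x585048402) (nat_lit 0) (p (nat_lit 0x160014) (nat_lit 0) (p (nat_lit 0x60592) (nat_lit 0) (p (nat_lit 0x48512) (nat_lit 0) (p (nat_lit 0x50392) (nat_lit 0) (p (nat_lit 0x38312) (nat_lit 0) (p (nat_lit 0x40212) (nat_lit 0) (p (nat_lit 0x28192) (nat_lit 0) (p (nat_lit 0x30092) (nat_lit 0) (p (nat_lit 0x18012) (nat_lit 0) pn))))))))))))))))))))))) :=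
  Cl.node (nat_lit 0x101) (nat_lit 2) (by decide +kernel) (ClAll.succ (ClAll.succ ClAll.zero n104) n105)

def n127 : Cl (O (nat_lit 3)) (R (nat_lit 135377))
    (p (nat_lit 0x119) (nat_lit 1) (p (nat_lit 0xd1) (nat_lit 0) (p (nat_lit 0x89) (nat_lit 0) (p (nat_lit 0x41) (nat_lit 0) (p (nat_lit 0x8b0a09890a9a) (nat_lit 0) (p (nat_lit 0xa8989088a1a) (nat_lit 0) (p (nat_lit 0x8a090888079a) (nat_lit 0) (p (nat_lit 0x9888807871a) (nat_lit 0) (p (nat_lit 0x80000800090787088a) (nat_lit 0) (p (nat_lit 0x80000800088706860a) (nat_lit 0) (p (nat_lit 0x8706860782) (nat_lit 0) (p (nat_lit 0x686058702) (nat_lit 0) (p (nat_lit 0x8605850482) (nat_lit 0) (p (nat_lit 0x585048402) (nat_lit 0) (p (nat_lit 0x160014) (nat_lit 0) (p (nat_lit 0x60592) (nat_lit 0) (p (nat_lit 0x48512) (nat_lit 0) (p (nat_lit 0x50392) (nat_lit 0) (p (nat_lit 0x38312) (nat_lit 0) (p (nat_lit 0x40212) (nat_lit 0) (p (nat_lit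 0x28192) (nat_lit 0) (p (nat_lit 0x30092) (nat_lit 0) (p (nat_lit 0x18012) (nat_lit 0) pn))))))))))))))))))))))) :=
  Cl.node (nat_lit 0xc1) (nat_lit 2) (by decide +kernel) (ClAll.succ (ClAll.succ ClAll.zero n106) n107)

def n128 : Cl (O (nat_lit 3)) (R (nat_lit 135377))
    (p (nat_lit 0x111) (nat_lit 0) (p (nat_lit 0xd1) (nat_lit 1) (p (nat_lit 0x89) (nat_lit 0) (p (nat_lit 0x41) (nat_lit 0) (p (nat_lit 0x8b0a09890a9a) (nat_lit 0) (p (nat_lit 0xa8989088a1a) (nat_lit 0) (p (nat_lit 0x8a090888079a) (nat_lit 0) (p (nat_lit 0x9888807871a) (nat_lit 0) (p (nat_lit 0x80000800090787088a) (nat_lit 0) (p (nat_lit 0x80000800088706860a) (nat_lit 0) (p (nat_lit 0x8706860782) (nat_lit 0) (p (nat_lit 0x686058702) (nat_lit 0) (p (nat_lit 0x8605850482) (nat_lit 0) (p (nat_lit 0x585048402) (nat_lit 0) (p (nat_lit 0x160014) (nat_lit 0) (p (nat_lit 0x60592) (nat_lit 0) (p (nat_lit 0x48512) (nat_lit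 0) (p (nat_lit 0x50392) (nat_lit 0) (p (nat_lit 0x38312) (nat_lit 0) (p (nat_lit 0x40212) (nat_lit 0) (p (nat_lit 0x28192) (nat_lit 0) (p (nat_lit 0x30092) (nat_lit 0) (p (nat_lit 0x18012) (nat_lit 0) pn))))))))))))))))))))))) :=
  Cl.node (nat_lit 0x101) (nat_lit 2) (by decide +kernel) (ClAll.succ (ClAll.succ ClAll.zero n108) n109)

def n129 : Cl (O (nat_lit 3)) (R (nat_lit 135377))
    (p (nat_lit 0x111) (nat_lit 1) (p (nat_lit 0xd1) (nat_lit 1) (p (nat_lit 0x89) (nat_lit 0) (p (nat_lit 0x41) (nat_lit 0) (p (nat_lit 0x8b0a09890a9a) (nat_lit 0) (p (nat_lit 0xa8989088a1a) (nat_lit 0) (p (nat_lit 0x8a090888079a) (nat_lit 0) (p (nat_lit 0x9888807871a) (nat_lit 0) (p (nat_lit 0x80000800090787088a) (nat_lit 0) (p (nat_lit 0x80000800088706860a) (nat_lit 0) (p (nat_lit 0x8706860782) (nat_lit 0) (p (nat_lit 0x686058702) (nat_lit 0) (p (nat_lit 0x8605850482) (nat_lit 0) (p (nat_lit 0x585048402)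 (nat_lit 0) (p (nat_lit 0x160014) (nat_lit 0) (p (nat_lit 0x60592) (nat_lit 0) (p (nat_lit 0x48512) (nat_lit 0) (p (nat_lit 0x50392) (nat_lit 0) (p (nat_lit 0x38312) (nat_lit 0) (p (nat_lit 0x40212) (nat_lit 0) (p (nat_lit 0x28192) (nat_lit 0) (p (nat_lit 0x30092) (nat_lit 0) (p (nat_lit 0x18012) (nat_lit 0) pn))))))))))))))))))))))) :=
  Cl.node (nat_lit 0x81) (nat_lit 2) (by decide +kernel) (ClAll.succ (ClAll.succ ClAll.zero s39) n110)

def n130 : Cl (O (nat_lit 3)) (R (nat_lit 135377))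
    (p (nat_lit 0x119) (nat_lit 0) (p (nat_lit 0xc9) (nat_lit 0) (p (nat_lit 0x89) (nat_lit 1) (p (nat_lit 0x41) (nat_lit 0) (p (nat_lit 0x8b0a09890a9a) (nat_lit 0) (p (nat_lit 0xa8989088a1a) (nat_lit 0) (p (nat_lit 0x8a090888079a) (nat_lit 0) (p (nat_lit 0x9888807871a) (nat_lit 0) (p (nat_lit 0x80000800090787088a) (nat_lit 0) (p (nat_lit 0x80000800088706860a) (nat_lit 0) (p (nat_lit 0x8706860782) (nat_lit 0) (p (nat_lit 0x686058702) (nat_lit 0) (p (nat_lit 0x8605850482) (nat_lit 0) (p (nat_lit 0x585048402) (nat_lit 0) (p (nat_lit 0x160014) (nat_lit 0) (p (nat_lit 0x60592) (nat_lit 0) (p (nat_lit 0x48512) (nat_lit 0) (p (nat_lit 0x50392) (nat_lit 0) (p (nat_lit 0x38312) (nat_lit 0) (p (nat_lit 0x40212) (nat_lit 0) (p (nat_lit 0x28192) (nat_lit 0) (p (nat_lit 0x30092) (nat_lit 0) (p (nat_lit 0x18012) (nat_lit 0) pn))))))))))))))))))))))) :=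
  Cl.node (nat_lit 0x101) (nat_lit 2) (by decide +kernel) (ClAll.succ (ClAll.succ ClAll.zero n111) n112)

def n131 : Cl (O (nat_lit 3)) (R (nat_lit 135377))
    (p (nat_lit 0x119) (nat_lit 1) (p (nat_lit 0xc9) (nat_lit 0) (p (nat_lit 0x89) (nat_lit 1) (p (nat_lit 0x41) (nat_lit 0) (p (nat_lit 0x8b0a09890a9a) (nat_lit 0) (p (nat_lit 0xa8989088a1a) (nat_lit 0) (p (nat_lit 0x8a090888079a) (nat_lit 0) (p (nat_lit 0x9888807871a) (nat_lit 0) (p (nat_lit 0x80000800090787088a) (nat_lit 0) (p (nat_lit 0x80000800088706860a) (nat_lit 0) (p (nat_lit 0x8706860782) (nat_lit 0) (p (nat_lit 0x686058702) (nat_lit 0) (p (nat_lit 0x8605850482) (nat_lit 0) (p (nat_lit 0x585048402) (nat_lit 0) (p (nat_lit 0x160014) (nat_lit 0) (p (nat_lit 0x60592) (nat_lit 0) (p (nat_lit 0x48512) (nat_lit 0) (p (nat_lit 0x50392) (nat_lit 0) (p (nat_lit 0x38312) (nat_lit 0) (p (nat_lit 0x40212) (nat_lit 0) (p (nat_lit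 0x28192) (nat_lit 0) (p (nat_lit 0x30092) (nat_lit 0) (p (nat_lit 0x18012) (nat_lit 0) pn))))))))))))))))))))))) :=
  Cl.node (nat_lit 0xc1) (nat_lit 2) (by decide +kernel) (ClAll.succ (ClAll.succ ClAll.zero n113) n114)

def n132 : Cl (O (nat_lit 3)) (R (nat_lit 135377))
    (p (nat_lit 0x119) (nat_lit 0) (p (nat_lit 0xd1) (nat_lit 0) (p (nat_lit 0x81) (nat_lit 0) (p (nat_lit 0x41) (nat_lit 1) (p (nat_lit 0x8b0a09890a9a) (nat_lit 0) (p (nat_lit 0xa8989088a1a) (nat_lit 0) (p (nat_lit 0x8a090888079a) (nat_lit 0) (p (nat_lit 0x9888807871a) (nat_lit 0) (p (nat_lit 0x80000800090787088a) (nat_lit 0) (p (nat_lit 0x80000800088706860a) (nat_lit 0) (p (nat_lit 0x8706860782) (nat_lit 0) (p (nat_lit 0x686058702) (nat_lit 0) (p (nat_lit 0x8605850482) (nat_lit 0) (p (nat_lit 0x585048402) (nat_lit 0) (p (nat_lit 0x160014) (nat_lit 0) (p (nat_lit 0x60592) (nat_lit 0) (p (nat_lit 0x48512) (nat_lit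 0) (p (nat_lit 0x50392) (nat_lit 0) (p (nat_lit 0x38312) (nat_lit 0) (p (nat_lit 0x40212) (nat_lit 0) (p (nat_lit 0x28192) (nat_lit 0) (p (nat_lit 0x30092) (nat_lit 0) (p (nat_lit 0x18012) (nat_lit 0) pn))))))))))))))))))))))) :=
  Cl.node (nat_lit 0x101) (nat_lit 2) (by decide +kernel) (ClAll.succ (ClAll.succ ClAll.zero n115) n116)

def n133 : Cl (O (nat_lit 3)) (R (nat_lit 135377))
    (p (nat_lit 0x119) (nat_lit 1) (p (nat_lit 0xd1) (nat_lit 0) (p (nat_lit 0x81) (nat_lit 0) (p (nat_lit 0x41) (nat_lit 1) (p (nat_lit 0x8b0a09890a9a) (nat_lit 0) (p (nat_lit 0xa8989088a1a) (nat_lit 0) (p (nat_lit 0x8a090888079a) (nat_lit 0) (p (nat_lit 0x9888807871a) (nat_lit 0) (p (nat_lit 0x80000800090787088a) (nat_lit 0) (p (nat_lit 0x80000800088706860a) (nat_lit 0) (p (nat_lit 0x8706860782) (nat_lit 0) (p (nat_lit 0x686058702) (nat_lit 0) (p (nat_lit 0x8605850482) (nat_lit 0) (p (nat_lit 0x585048402)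 (nat_lit 0) (p (nat_lit 0x160014) (nat_lit 0) (p (nat_lit 0x60592) (nat_lit 0) (p (nat_lit 0x48512) (nat_lit 0) (p (nat_lit 0x50392) (nat_lit 0) (p (nat_lit 0x38312) (nat_lit 0) (p (nat_lit 0x40212) (nat_lit 0) (p (nat_lit 0x28192) (nat_lit 0) (p (nat_lit 0x30092) (nat_lit 0) (p (nat_lit 0x18012) (nat_lit 0) pn))))))))))))))))))))))) :=
  Cl.node (nat_lit 0xc1) (nat_lit 2) (by decide +kernel) (ClAll.succ (ClAll.succ ClAll.zero n117) n118)

def n134 : Cl (O (nat_lit 3)) (R (nat_lit 135377))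
    (p (nat_lit 0x111) (nat_lit 0) (p (nat_lit 0xd1) (nat_lit 1) (p (nat_lit 0x81) (nat_lit 0) (p (nat_lit 0x41) (nat_lit 1) (p (nat_lit 0x8b0a09890a9a) (nat_lit 0) (p (nat_lit 0xa8989088a1a) (nat_lit 0) (p (nat_lit 0x8a090888079a) (nat_lit 0) (p (nat_lit 0x9888807871a) (nat_lit 0) (p (nat_lit 0x80000800090787088a) (nat_lit 0) (p (nat_lit 0x80000800088706860a) (nat_lit 0) (p (nat_lit 0x8706860782) (nat_lit 0) (p (nat_lit 0x686058702) (nat_lit 0) (p (nat_lit 0x8605850482) (nat_lit 0) (p (nat_lit 0x585048402) (nat_lit 0) (p (nat_lit 0x160014) (nat_lit 0) (p (nat_lit 0x60592) (nat_lit 0) (p (nat_lit 0x48512) (nat_lit 0) (p (nat_lit 0x50392) (nat_lit 0) (p (nat_lit 0x38312) (nat_lit 0) (p (nat_lit 0x40212) (nat_lit 0) (p (nat_lit 0x28192) (nat_lit 0) (p (nat_lit 0x30092) (nat_lit 0) (p (nat_lit 0x18012) (nat_lit 0) pn))))))))))))))))))))))) :=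
  Cl.node (nat_lit 0x101) (nat_lit 2) (by decide +kernel) (ClAll.succ (ClAll.succ ClAll.zero n119) n120)

def n135 : Cl (O (nat_lit 3)) (R (nat_lit 135377))
    (p (nat_lit 0x111) (nat_lit 1) (p (nat_lit 0xd1) (nat_lit 1) (p (nat_lit 0x81) (nat_lit 0) (p (nat_lit 0x41) (nat_lit 1) (p (nat_lit 0x8b0a09890a9a) (nat_lit 0) (p (nat_lit 0xa8989088a1a) (nat_lit 0) (p (nat_lit 0x8a090888079a) (nat_lit 0) (p (nat_lit 0x9888807871a) (nat_lit 0) (p (nat_lit 0x80000800090787088a) (nat_lit 0) (p (nat_lit 0x80000800088706860a) (nat_lit 0) (p (nat_lit 0x8706860782) (nat_lit 0) (p (nat_lit 0x686058702) (nat_lit 0) (p (nat_lit 0x8605850482) (nat_lit 0) (p (nat_lit 0x585048402) (nat_lit 0) (p (nat_lit 0x160014) (nat_lit 0) (p (nat_lit 0x60592) (nat_lit 0) (p (nat_lit 0x48512) (nat_lit 0) (p (nat_lit 0x50392) (nat_lit 0) (p (nat_lit 0x38312) (nat_lit 0) (p (nat_lit 0x40212) (nat_lit 0) (p (nat_lit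 0x28192) (nat_lit 0) (p (nat_lit 0x30092) (nat_lit 0) (p (nat_lit 0x18012) (nat_lit 0) pn))))))))))))))))))))))) :=
  Cl.node (nat_lit 0x89) (nat_lit 2) (by decide +kernel) (ClAll.succ (ClAll.succ ClAll.zero s125) n121)

def n136 : Cl (O (nat_lit 3)) (R (nat_lit 135377))
    (p (nat_lit 0x119) (nat_lit 0) (p (nat_lit 0xc1) (nat_lit 0) (p (nat_lit 0x81) (nat_lit 1) (p (nat_lit 0x41) (nat_lit 1) (p (nat_lit 0x8b0a09890a9a) (nat_lit 0) (p (nat_lit 0xa8989088a1a) (nat_lit 0) (p (nat_lit 0x8a090888079a) (nat_lit 0) (p (nat_lit 0x9888807871a) (nat_lit 0) (p (nat_lit 0x80000800090787088a) (nat_lit 0) (p (nat_lit 0x80000800088706860a) (nat_lit 0) (p (nat_lit 0x8706860782) (nat_lit 0) (p (nat_lit 0x686058702) (nat_lit 0) (p (nat_lit 0x8605850482) (nat_lit 0) (p (nat_lit 0x585048402) (nat_lit 0) (p (nat_lit 0x160014) (nat_lit 0) (p (nat_lit 0x60592) (nat_lit 0) (p (nat_lit 0x48512) (nat_lit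 0) (p (nat_lit 0x50392) (nat_lit 0) (p (nat_lit 0x38312) (nat_lit 0) (p (nat_lit 0x40212) (nat_lit 0) (p (nat_lit 0x28192) (nat_lit 0) (p (nat_lit 0x30092) (nat_lit 0) (p (nat_lit 0x18012) (nat_lit 0) pn))))))))))))))))))))))) :=
  Cl.node (nat_lit 0x101) (nat_lit 2) (by decide +kernel) (ClAll.succ (ClAll.succ ClAll.zero n122) n123)

def n137 : Cl (O (nat_lit 3)) (R (nat_lit 135377))
    (p (nat_lit 0x119) (nat_lit 1) (p (nat_lit 0xc1) (nat_lit 0) (p (nat_lit 0x81) (nat_lit 1) (p (nat_lit 0x41) (nat_lit 1) (p (nat_lit 0x8b0a09890a9a) (nat_lit 0) (p (nat_lit 0xa8989088a1a) (nat_lit 0) (p (nat_lit 0x8a090888079a) (nat_lit 0) (p (nat_lit 0x9888807871a) (nat_lit 0) (p (nat_lit 0x80000800090787088a) (nat_lit 0) (p (nat_lit 0x80000800088706860a) (nat_lit 0) (p (nat_lit 0x8706860782) (nat_lit 0) (p (nat_lit 0x686058702) (nat_lit 0) (p (nat_lit 0x8605850482) (nat_lit 0) (p (nat_lit 0x585048402)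 (nat_lit 0) (p (nat_lit 0x160014) (nat_lit 0) (p (nat_lit 0x60592) (nat_lit 0) (p (nat_lit 0x48512) (nat_lit 0) (p (nat_lit 0x50392) (nat_lit 0) (p (nat_lit 0x38312) (nat_lit 0) (p (nat_lit 0x40212) (nat_lit 0) (p (nat_lit 0x28192) (nat_lit 0) (p (nat_lit 0x30092) (nat_lit 0) (p (nat_lit 0x18012) (nat_lit 0) pn))))))))))))))))))))))) :=
  Cl.node (nat_lit 0xc9) (nat_lit 2) (by decide +kernel) (ClAll.succ (ClAll.succ ClAll.zero n124) n125)

def n138 : Cl (O (nat_lit 3)) (R (nat_lit 135377))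
    (p (nat_lit 0xd1) (nat_lit 0) (p (nat_lit 0x89) (nat_lit 0) (p (nat_lit 0x41) (nat_lit 0) (p (nat_lit 0x8b0a09890a9a) (nat_lit 0) (p (nat_lit 0xa8989088a1a) (nat_lit 0) (p (nat_lit 0x8a090888079a) (nat_lit 0) (p (nat_lit 0x9888807871a) (nat_lit 0) (p (nat_lit 0x80000800090787088a) (nat_lit 0) (p (nat_lit 0x80000800088706860a) (nat_lit 0) (p (nat_lit 0x8706860782) (nat_lit 0) (p (nat_lit 0x686058702) (nat_lit 0) (p (nat_lit 0x8605850482) (nat_lit 0) (p (nat_lit 0x585048402) (nat_lit 0) (p (nat_lit 0x160014) (nat_lit 0) (p (nat_lit 0x60592) (nat_lit 0) (p (nat_lit 0x48512) (nat_lit 0) (p (nat_lit 0x50392) (nat_lit 0) (p (nat_lit 0x38312) (nat_lit 0) (p (nat_lit 0x40212) (nat_lit 0) (p (nat_lit 0x28192) (nat_lit 0) (p (nat_lit 0x30092) (nat_lit 0) (p (nat_lit 0x18012) (nat_lit 0) pn)))))))))))))))))))))) :=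
  Cl.node (nat_lit 0x119) (nat_lit 2) (by decide +kernel) (ClAll.succ (ClAll.succ ClAll.zero n126) n127)

def n139 : Cl (O (nat_lit 3)) (R (nat_lit 135377))
    (p (nat_lit 0xd1) (nat_lit 1) (p (nat_lit 0x89) (nat_lit 0) (p (nat_lit 0x41) (nat_lit 0) (p (nat_lit 0x8b0a09890a9a) (nat_lit 0) (p (nat_lit 0xa8989088a1a) (nat_lit 0) (p (nat_lit 0x8a090888079a) (nat_lit 0) (p (nat_lit 0x9888807871a) (nat_lit 0) (p (nat_lit 0x80000800090787088a) (nat_lit 0) (p (nat_lit 0x80000800088706860a) (nat_lit 0) (p (nat_lit 0x8706860782) (nat_lit 0) (p (nat_lit 0x686058702) (nat_lit 0) (p (nat_lit 0x8605850482) (nat_lit 0) (p (nat_lit 0x585048402) (nat_lit 0) (p (nat_lit 0x160014) (nat_lit 0) (p (nat_lit 0x60592) (nat_lit 0) (p (nat_lit 0x48512) (nat_lit 0) (p (nat_lit 0x50392) (nat_lit 0) (p (nat_lit 0x38312) (nat_lit 0) (p (nat_lit 0x40212) (nat_lit 0) (p (nat_lit 0x28192) (nat_lit 0) (p (nat_lit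 0x30092) (nat_lit 0) (p (nat_lit 0x18012) (nat_lit 0) pn)))))))))))))))))))))) :=
  Cl.node (nat_lit 0x111) (nat_lit 2) (by decide +kernel) (ClAll.succ (ClAll.succ ClAll.zero n128) n129)

def n140 : Cl (O (nat_lit 3)) (R (nat_lit 135377))
    (p (nat_lit 0xc9) (nat_lit 0) (p (nat_lit 0x89) (nat_lit 1) (p (nat_lit 0x41) (nat_lit 0) (p (nat_lit 0x8b0a09890a9a) (nat_lit 0) (p (nat_lit 0xa8989088a1a) (nat_lit 0) (p (nat_lit 0x8a090888079a) (nat_lit 0) (p (nat_lit 0x9888807871a) (nat_lit 0) (p (nat_lit 0x80000800090787088a) (nat_lit 0) (p (nat_lit 0x80000800088706860a) (nat_lit 0) (p (nat_lit 0x8706860782) (nat_lit 0) (p (nat_lit 0x686058702) (nat_lit 0) (p (nat_lit 0x8605850482) (nat_lit 0) (p (nat_lit 0x585048402) (nat_lit 0) (p (nat_lit 0x160014) (nat_lit 0) (p (nat_lit 0x60592) (nat_lit 0) (p (nat_lit 0x48512) (nat_lit 0) (p (nat_lit 0x50392) (nat_lit 0) (p (nat_lit 0x38312) (nat_lit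 0) (p (nat_lit 0x40212) (nat_lit 0) (p (nat_lit 0x28192) (nat_lit 0) (p (nat_lit 0x30092) (nat_lit 0) (p (nat_lit 0x18012) (nat_lit 0) pn)))))))))))))))))))))) :=
  Cl.node (nat_lit 0x119) (nat_lit 2) (by decide +kernel) (ClAll.succ (ClAll.succ ClAll.zero n130) n131)

def n141 : Cl (O (nat_lit 3)) (R (nat_lit 135377))
    (p (nat_lit 0xd1) (nat_lit 0) (p (nat_lit 0x81) (nat_lit 0) (p (nat_lit 0x41) (nat_lit 1) (p (nat_lit 0x8b0a09890a9a) (nat_lit 0) (p (nat_lit 0xa8989088a1a) (nat_lit 0) (p (nat_lit 0x8a090888079a) (nat_lit 0) (p (nat_lit 0x9888807871a) (nat_lit 0) (p (nat_lit 0x80000800090787088a) (nat_lit 0) (p (nat_lit 0x80000800088706860a) (nat_lit 0) (p (nat_lit 0x8706860782) (nat_lit 0) (p (nat_lit 0x686058702) (nat_lit 0) (p (nat_lit 0x8605850482) (nat_lit 0) (p (nat_lit 0x585048402) (nat_lit 0) (p (nat_lit 0x160014) (nat_lit 0) (p (nat_lit 0x60592) (nat_lit 0) (p (nat_lit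 0x48512) (nat_lit 0) (p (nat_lit 0x50392) (nat_lit 0) (p (nat_lit 0x38312) (nat_lit 0) (p (nat_lit 0x40212) (nat_lit 0) (p (nat_lit 0x28192) (nat_lit 0) (p (nat_lit 0x30092) (nat_lit 0) (p (nat_lit 0x18012) (nat_lit 0) pn)))))))))))))))))))))) :=
  Cl.node (nat_lit 0x119) (nat_lit 2) (by decide +kernel) (ClAll.succ (ClAll.succ ClAll.zero n132) n133)

def n142 : Cl (O (nat_lit 3)) (R (nat_lit 135377))
    (p (nat_lit 0xd1) (nat_lit 1) (p (nat_lit 0x81) (nat_lit 0) (p (nat_lit 0x41) (nat_lit 1) (p (nat_lit 0x8b0a09890a9a) (nat_lit 0) (p (nat_lit 0xa8989088a1a) (nat_lit 0) (p (nat_lit 0x8a090888079a) (nat_lit 0) (p (nat_lit 0x9888807871a) (nat_lit 0) (p (nat_lit 0x80000800090787088a) (nat_lit 0) (p (nat_lit 0x80000800088706860a) (nat_lit 0) (p (nat_lit 0x8706860782) (nat_lit 0) (p (nat_lit 0x686058702) (nat_lit 0) (p (nat_lit 0x8605850482) (nat_lit 0) (p (nat_lit 0x585048402) (nat_lit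 0) (p (nat_lit 0x160014) (nat_lit 0) (p (nat_lit 0x60592) (nat_lit 0) (p (nat_lit 0x48512) (nat_lit 0) (p (nat_lit 0x50392) (nat_lit 0) (p (nat_lit 0x38312) (nat_lit 0) (p (nat_lit 0x40212) (nat_lit 0) (p (nat_lit 0x28192) (nat_lit 0) (p (nat_lit 0x30092) (nat_lit 0) (p (nat_lit 0x18012) (nat_lit 0) pn)))))))))))))))))))))) :=
  Cl.node (nat_lit 0x111) (nat_lit 2) (by decide +kernel) (ClAll.succ (ClAll.succ ClAll.zero n134) n135)

def n143 : Cl (O (nat_lit 3)) (R (nat_lit 135377))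
    (p (nat_lit 0xc1) (nat_lit 0) (p (nat_lit 0x81) (nat_lit 1) (p (nat_lit 0x41) (nat_lit 1) (p (nat_lit 0x8b0a09890a9a) (nat_lit 0) (p (nat_lit 0xa8989088a1a) (nat_lit 0) (p (nat_lit 0x8a090888079a) (nat_lit 0) (p (nat_lit 0x9888807871a) (nat_lit 0) (p (nat_lit 0x80000800090787088a) (nat_lit 0) (p (nat_lit 0x80000800088706860a) (nat_lit 0) (p (nat_lit 0x8706860782) (nat_lit 0) (p (nat_lit 0x686058702) (nat_lit 0) (p (nat_lit 0x8605850482) (nat_lit 0) (p (nat_lit 0x585048402) (nat_lit 0) (p (nat_lit 0x160014) (nat_lit 0) (p (nat_lit 0x60592) (nat_lit 0) (p (nat_lit 0x48512) (nat_lit 0) (p (nat_lit 0x50392) (nat_lit 0) (p (nat_lit 0x38312) (nat_lit 0) (p (nat_lit 0x40212) (nat_lit 0) (p (nat_lit 0x28192) (nat_lit 0) (p (nat_lit 0x30092) (nat_lit 0) (p (nat_lit 0x18012) (nat_lit 0) pn)))))))))))))))))))))) :=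
  Cl.node (nat_lit 0x119) (nat_lit 2) (by decide +kernel) (ClAll.succ (ClAll.succ ClAll.zero n136) n137)

def n144 : Cl (O (nat_lit 3)) (R (nat_lit 135377))
    (p (nat_lit 0x89) (nat_lit 0) (p (nat_lit 0x41) (nat_lit 0) (p (nat_lit 0x8b0a09890a9a) (nat_lit 0) (p (nat_lit 0xa8989088a1a) (nat_lit 0) (p (nat_lit 0x8a090888079a) (nat_lit 0) (p (nat_lit 0x9888807871a) (nat_lit 0) (p (nat_lit 0x80000800090787088a) (nat_lit 0) (p (nat_lit 0x80000800088706860a) (nat_lit 0) (p (nat_lit 0x8706860782) (nat_lit 0) (p (nat_lit 0x686058702) (nat_lit 0) (p (nat_lit 0x8605850482) (nat_lit 0) (p (nat_lit 0x585048402) (nat_lit 0) (p (nat_lit 0x160014) (nat_lit 0) (p (nat_lit 0x60592) (nat_lit 0) (p (nat_lit 0x48512) (nat_lit 0) (p (nat_lit 0x50392) (nat_lit 0) (p (nat_lit 0x38312) (nat_lit 0) (p (nat_lit 0x40212) (nat_lit 0) (p (nat_lit 0x28192) (nat_lit 0) (p (nat_lit 0x30092) (nat_lit 0) (p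 (nat_lit 0x18012) (nat_lit 0) pn))))))))))))))))))))) :=
  Cl.node (nat_lit 0xd1) (nat_lit 2) (by decide +kernel) (ClAll.succ (ClAll.succ ClAll.zero n138) n139)

def n145 : Cl (O (nat_lit 3)) (R (nat_lit 135377))
    (p (nat_lit 0x89) (nat_lit 1) (p (nat_lit 0x41) (nat_lit 0) (p (nat_lit 0x8b0a09890a9a) (nat_lit 0) (p (nat_lit 0xa8989088a1a) (nat_lit 0) (p (nat_lit 0x8a090888079a) (nat_lit 0) (p (nat_lit 0x9888807871a) (nat_lit 0) (p (nat_lit 0x80000800090787088a) (nat_lit 0) (p (nat_lit 0x80000800088706860a) (nat_lit 0) (p (nat_lit 0x8706860782) (nat_lit 0) (p (nat_lit 0x686058702) (nat_lit 0) (p (nat_lit 0x8605850482) (nat_lit 0) (p (nat_lit 0x585048402) (nat_lit 0) (p (nat_lit 0x160014) (nat_lit 0) (p (nat_lit 0x60592) (nat_lit 0) (p (nat_lit 0x48512) (nat_lit 0) (p (nat_lit 0x50392) (nat_lit 0) (p (nat_lit 0x38312) (nat_lit 0) (p (nat_lit 0x40212) (nat_lit 0) (p (nat_lit 0x28192)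 (nat_lit 0) (p (nat_lit 0x30092) (nat_lit 0) (p (nat_lit 0x18012) (nat_lit 0) pn))))))))))))))))))))) :=
  Cl.node (nat_lit 0xc9) (nat_lit 2) (by decide +kernel) (ClAll.succ (ClAll.succ ClAll.zero n140) s61)

def n146 : Cl (O (nat_lit 3)) (R (nat_lit 135377))
    (p (nat_lit 0x81) (nat_lit 0) (p (nat_lit 0x41) (nat_lit 1) (p (nat_lit 0x8b0a09890a9a) (nat_lit 0) (p (nat_lit 0xa8989088a1a) (nat_lit 0) (p (nat_lit 0x8a090888079a) (nat_lit 0) (p (nat_lit 0x9888807871a) (nat_lit 0) (p (nat_lit 0x80000800090787088a) (nat_lit 0) (p (nat_lit 0x80000800088706860a) (nat_lit 0) (p (nat_lit 0x8706860782) (nat_lit 0) (p (nat_lit 0x686058702) (nat_lit 0) (p (nat_lit 0x8605850482) (nat_lit 0) (p (nat_lit 0x585048402) (nat_lit 0) (p (nat_lit 0x160014) (nat_lit 0) (p (nat_lit 0x60592) (nat_lit 0) (p (nat_lit 0x48512) (nat_lit 0) (p (nat_lit 0x50392) (nat_lit 0) (p (nat_lit 0x38312) (nat_lit 0)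 (p (nat_lit 0x40212) (nat_lit 0) (p (nat_lit 0x28192) (nat_lit 0) (p (nat_lit 0x30092) (nat_lit 0) (p (nat_lit 0x18012) (nat_lit 0) pn))))))))))))))))))))) :=
  Cl.node (nat_lit 0xd1) (nat_lit 2) (by decide +kernel) (ClAll.succ (ClAll.succ ClAll.zero n141) n142)

def n147 : Cl (O (nat_lit 3)) (R (nat_lit 135377))
    (p (nat_lit 0x81) (nat_lit 1) (p (nat_lit 0x41) (nat_lit 1) (p (nat_lit 0x8b0a09890a9a) (nat_lit 0) (p (nat_lit 0xa8989088a1a) (nat_lit 0) (p (nat_lit 0x8a090888079a) (nat_lit 0) (p (nat_lit 0x9888807871a) (nat_lit 0) (p (nat_lit 0x80000800090787088a) (nat_lit 0) (p (nat_lit 0x80000800088706860a) (nat_lit 0) (p (nat_lit 0x8706860782) (nat_lit 0) (p (nat_lit 0x686058702) (nat_lit 0) (p (nat_lit 0x8605850482) (nat_lit 0) (p (nat_lit 0x585048402) (nat_lit 0) (p (nat_lit 0x160014) (nat_lit 0) (p (nat_lit 0x60592) (nat_lit 0) (p (nat_lit 0x48512) (nat_lit 0) (p (nat_lit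 0x50392) (nat_lit 0) (p (nat_lit 0x38312) (nat_lit 0) (p (nat_lit 0x40212) (nat_lit 0) (p (nat_lit 0x28192) (nat_lit 0) (p (nat_lit 0x30092) (nat_lit 0) (p (nat_lit 0x18012) (nat_lit 0) pn))))))))))))))))))))) :=
  Cl.node (nat_lit 0xc1) (nat_lit 2) (by decide +kernel) (ClAll.succ (ClAll.succ ClAll.zero n143) s151)

def n148 : Cl (O (nat_lit 3)) (R (nat_lit 135377))
    (p (nat_lit 0x41) (nat_lit 0) (p (nat_lit 0x8b0a09890a9a) (nat_lit 0) (p (nat_lit 0xa8989088a1a) (nat_lit 0) (p (nat_lit 0x8a090888079a) (nat_lit 0) (p (nat_lit 0x9888807871a) (nat_lit 0) (p (nat_lit 0x80000800090787088a) (nat_lit 0) (p (nat_lit 0x80000800088706860a) (nat_lit 0) (p (nat_lit 0x8706860782) (nat_lit 0) (p (nat_lit 0x686058702) (nat_lit 0) (p (nat_lit 0x8605850482) (nat_lit 0) (p (nat_lit 0x585048402) (nat_lit 0) (p (nat_lit 0x160014) (nat_lit 0) (p (nat_lit 0x60592) (nat_lit 0) (p (nat_lit 0x48512)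 (nat_lit 0) (p (nat_lit 0x50392) (nat_lit 0) (p (nat_lit 0x38312) (nat_lit 0) (p (nat_lit 0x40212) (nat_lit 0) (p (nat_lit 0x28192) (nat_lit 0) (p (nat_lit 0x30092) (nat_lit 0) (p (nat_lit 0x18012) (nat_lit 0) pn)))))))))))))))))))) :=
  Cl.node (nat_lit 0x89) (nat_lit 2) (by decide +kernel) (ClAll.succ (ClAll.succ ClAll.zero n144) n145)

def n149 : Cl (O (nat_lit 3)) (R (nat_lit 135377))
    (p (nat_lit 0x41) (nat_lit 1) (p (nat_lit 0x8b0a09890a9a) (nat_lit 0) (p (nat_lit 0xa8989088a1a) (nat_lit 0) (p (nat_lit 0x8a090888079a) (nat_lit 0) (p (nat_lit 0x9888807871a) (nat_lit 0) (p (nat_lit 0x80000800090787088a) (nat_lit 0) (p (nat_lit 0x80000800088706860a) (nat_lit 0) (p (nat_lit 0x8706860782) (nat_lit 0) (p (nat_lit 0x686058702) (nat_lit 0) (p (nat_lit 0x8605850482) (nat_lit 0) (p (nat_lit 0x585048402) (nat_lit 0) (p (nat_lit 0x160014) (nat_lit 0) (p (nat_lit 0x60592) (nat_lit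 0) (p (nat_lit 0x48512) (nat_lit 0) (p (nat_lit 0x50392) (nat_lit 0) (p (nat_lit 0x38312) (nat_lit 0) (p (nat_lit 0x40212) (nat_lit 0) (p (nat_lit 0x28192) (nat_lit 0) (p (nat_lit 0x30092) (nat_lit 0) (p (nat_lit 0x18012) (nat_lit 0) pn)))))))))))))))))))) :=
  Cl.node (nat_lit 0x81) (nat_lit 2) (by decide +kernel) (ClAll.succ (ClAll.succ ClAll.zero n146) n147)

def n150 : Cl (O (nat_lit 3)) (R (nat_lit 135377))
    (p (nat_lit 0x8b0a09890a9a) (nat_lit 0) (p (nat_lit 0xa8989088a1a) (nat_lit 0) (p (nat_lit 0x8a090888079a) (nat_lit 0) (p (nat_lit 0x9888807871a) (nat_lit 0) (p (nat_lit 0x80000800090787088a) (nat_lit 0) (p (nat_lit 0x80000800088706860a) (nat_lit 0) (p (nat_lit 0x8706860782) (nat_lit 0) (p (nat_lit 0x686058702) (nat_lit 0) (p (nat_lit 0x8605850482) (nat_lit 0) (p (nat_lit 0x585048402) (nat_lit 0) (p (nat_lit 0x160014) (nat_lit 0) (p (nat_lit 0x60592) (nat_lit 0) (p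 (nat_lit 0x48512) (nat_lit 0) (p (nat_lit 0x50392) (nat_lit 0) (p (nat_lit 0x38312) (nat_lit 0) (p (nat_lit 0x40212) (nat_lit 0) (p (nat_lit 0x28192) (nat_lit 0) (p (nat_lit 0x30092) (nat_lit 0) (p (nat_lit 0x18012) (nat_lit 0) pn))))))))))))))))))) :=
  Cl.node (nat_lit 0x41) (nat_lit 2) (by decide +kernel) (ClAll.succ (ClAll.succ ClAll.zero n148) n149)

def n151 : Cl (O (nat_lit 3)) (R (nat_lit 135377))
    (p (nat_lit 0xa8989088a1a) (nat_lit 0) (p (nat_lit 0x8a090888079a) (nat_lit 0) (p (nat_lit 0x9888807871a) (nat_lit 0) (p (nat_lit 0x80000800090787088a) (nat_lit 0) (p (nat_lit 0x80000800088706860a) (nat_lit 0) (p (nat_lit 0x8706860782) (nat_lit 0) (p (nat_lit 0x686058702) (nat_lit 0) (p (nat_lit 0x8605850482) (nat_lit 0) (p (nat_lit 0x585048402) (nat_lit 0) (p (nat_lit 0x160014) (nat_lit 0) (p (nat_lit 0x60592) (nat_lit 0) (p (nat_lit 0x48512) (nat_lit 0) (p (nat_lit 0x50392)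 (nat_lit 0) (p (nat_lit 0x38312) (nat_lit 0) (p (nat_lit 0x40212) (nat_lit 0) (p (nat_lit 0x28192) (nat_lit 0) (p (nat_lit 0x30092) (nat_lit 0) (p (nat_lit 0x18012) (nat_lit 0) pn)))))))))))))))))) :=
  Cl.node (nat_lit 0x8b0a09890a9a) (nat_lit 1) (by decide +kernel) (ClAll.succ ClAll.zero n150)

def n152 : Cl (O (nat_lit 3)) (R (nat_lit 135377))
    (p (nat_lit 0x8a090888079a) (nat_lit 0) (p (nat_lit 0x9888807871a) (nat_lit 0) (p (nat_lit 0x80000800090787088a) (nat_lit 0) (p (nat_lit 0x80000800088706860a) (nat_lit 0) (p (nat_lit 0x8706860782) (nat_lit 0) (p (nat_lit 0x686058702) (nat_lit 0) (p (nat_lit 0x8605850482) (nat_lit 0) (p (nat_lit 0x585048402) (nat_lit 0) (p (nat_lit 0x160014) (nat_lit 0) (p (nat_lit 0x60592) (nat_lit 0) (p (nat_lit 0x48512) (nat_lit 0) (p (nat_lit 0x50392) (nat_lit 0) (p (nat_lit 0x38312) (nat_lit 0) (p (nat_lit 0x40212) (nat_lit 0) (p (nat_lit 0x28192)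 (nat_lit 0) (p (nat_lit 0x30092) (nat_lit 0) (p (nat_lit 0x18012) (nat_lit 0) pn))))))))))))))))) :=
  Cl.node (nat_lit 0xa8989088a1a) (nat_lit 1) (by decide +kernel) (ClAll.succ ClAll.zero n151)

def n153 : Cl (O (nat_lit 3)) (R (nat_lit 135377))
    (p (nat_lit 0x9888807871a) (nat_lit 0) (p (nat_lit 0x80000800090787088a) (nat_lit 0) (p (nat_lit 0x80000800088706860a) (nat_lit 0) (p (nat_lit 0x8706860782) (nat_lit 0) (p (nat_lit 0x686058702) (nat_lit 0) (p (nat_lit 0x8605850482) (nat_lit 0) (p (nat_lit 0x585048402) (nat_lit 0) (p (nat_lit 0x160014) (nat_lit 0) (p (nat_lit 0x60592) (nat_lit 0) (p (nat_lit 0x48512) (nat_lit 0) (p (nat_lit 0x50392) (nat_lit 0) (p (nat_lit 0x38312) (nat_lit 0) (p (nat_lit 0x40212) (nat_lit 0) (p (nat_lit 0x28192) (nat_lit 0) (p (nat_lit 0x30092) (nat_lit 0) (p (nat_lit 0x18012) (nat_lit 0) pn)))))))))))))))) :=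
  Cl.node (nat_lit 0x8a090888079a) (nat_lit 1) (by decide +kernel) (ClAll.succ ClAll.zero n152)

def n154 : Cl (O (nat_lit 3)) (R (nat_lit 135377))
    (p (nat_lit 0x80000800090787088a) (nat_lit 0) (p (nat_lit 0x80000800088706860a) (nat_lit 0) (p (nat_lit 0x8706860782) (nat_lit 0) (p (nat_lit 0x686058702) (nat_lit 0) (p (nat_lit 0x8605850482) (nat_lit 0) (p (nat_lit 0x585048402) (nat_lit 0) (p (nat_lit 0x160014) (nat_lit 0) (p (nat_lit 0x60592) (nat_lit 0) (p (nat_lit 0x48512) (nat_lit 0) (p (nat_lit 0x50392) (nat_lit 0) (p (nat_lit 0x38312) (nat_lit 0) (p (nat_lit 0x40212) (nat_lit 0) (p (nat_lit 0x28192) (nat_lit 0) (p (nat_lit 0x30092) (nat_lit 0) (p (nat_lit 0x18012) (nat_lit 0) pn))))))))))))))) :=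
  Cl.node (nat_lit 0x9888807871a) (nat_lit 1) (by decide +kernel) (ClAll.succ ClAll.zero n153)

def n155 : Cl (O (nat_lit 3)) (R (nat_lit 135377))
    (p (nat_lit 0x80000800088706860a) (nat_lit 0) (p (nat_lit 0x8706860782) (nat_lit 0) (p (nat_lit 0x686058702) (nat_lit 0) (p (nat_lit 0x8605850482) (nat_lit 0) (p (nat_lit 0x585048402) (nat_lit 0) (p (nat_lit 0x160014) (nat_lit 0) (p (nat_lit 0x60592) (nat_lit 0) (p (nat_lit 0x48512) (nat_lit 0) (p (nat_lit 0x50392) (nat_lit 0) (p (nat_lit 0x38312) (nat_lit 0) (p (nat_lit 0x40212) (nat_lit 0) (p (nat_lit 0x28192) (nat_lit 0) (p (nat_lit 0x30092) (nat_lit 0) (p (nat_lit 0x18012) (nat_lit 0) pn)))))))))))))) :=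
  Cl.node (nat_lit 0x80000800090787088a) (nat_lit 1) (by decide +kernel) (ClAll.succ ClAll.zero n154)

def n156 : Cl (O (nat_lit 3)) (R (nat_lit 135377))
    (p (nat_lit 0x8706860782) (nat_lit 0) (p (nat_lit 0x686058702) (nat_lit 0) (p (nat_lit 0x8605850482) (nat_lit 0) (p (nat_lit 0x585048402) (nat_lit 0) (p (nat_lit 0x160014) (nat_lit 0) (p (nat_lit 0x60592) (nat_lit 0) (p (nat_lit 0x48512) (nat_lit 0) (p (nat_lit 0x50392) (nat_lit 0) (p (nat_lit 0x38312) (nat_lit 0) (p (nat_lit 0x40212) (nat_lit 0) (p (nat_lit 0x28192) (nat_lit 0) (p (nat_lit 0x30092) (nat_lit 0) (p (nat_lit 0x18012) (nat_lit 0) pn))))))))))))) :=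
  Cl.node (nat_lit 0x80000800088706860a) (nat_lit 1) (by decide +kernel) (ClAll.succ ClAll.zero n155)

def n157 : Cl (O (nat_lit 3)) (R (nat_lit 135377))
    (p (nat_lit 0x686058702) (nat_lit 0) (p (nat_lit 0x8605850482) (nat_lit 0) (p (nat_lit 0x585048402) (nat_lit 0) (p (nat_lit 0x160014) (nat_lit 0) (p (nat_lit 0x60592) (nat_lit 0) (p (nat_lit 0x48512) (nat_lit 0) (p (nat_lit 0x50392) (nat_lit 0) (p (nat_lit 0x38312) (nat_lit 0) (p (nat_lit 0x40212) (nat_lit 0) (p (nat_lit 0x28192) (nat_lit 0) (p (nat_lit 0x30092) (nat_lit 0) (p (nat_lit 0x18012) (nat_lit 0) pn)))))))))))) :=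
  Cl.node (nat_lit 0x8706860782) (nat_lit 1) (by decide +kernel) (ClAll.succ ClAll.zero n156)

def n158 : Cl (O (nat_lit 3)) (R (nat_lit 135377))
    (p (nat_lit 0x8605850482) (nat_lit 0) (p (nat_lit 0x585048402) (nat_lit 0) (p (nat_lit 0x160014) (nat_lit 0) (p (nat_lit 0x60592) (nat_lit 0) (p (nat_lit 0x48512) (nat_lit 0) (p (nat_lit 0x50392) (nat_lit 0) (p (nat_lit 0x38312) (nat_lit 0) (p (nat_lit 0x40212) (nat_lit 0) (p (nat_lit 0x28192) (nat_lit 0) (p (nat_lit 0x30092) (nat_lit 0) (p (nat_lit 0x18012) (nat_lit 0) pn))))))))))) :=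
  Cl.node (nat_lit 0x686058702) (nat_lit 1) (by decide +kernel) (ClAll.succ ClAll.zero n157)

def n159 : Cl (O (nat_lit 3)) (R (nat_lit 135377))
    (p (nat_lit 0x585048402) (nat_lit 0) (p (nat_lit 0x160014) (nat_lit 0) (p (nat_lit 0x60592) (nat_lit 0) (p (nat_lit 0x48512) (nat_lit 0) (p (nat_lit 0x50392) (nat_lit 0) (p (nat_lit 0x38312) (nat_lit 0) (p (nat_lit 0x40212) (nat_lit 0) (p (nat_lit 0x28192) (nat_lit 0) (p (nat_lit 0x30092) (nat_lit 0) (p (nat_lit 0x18012) (nat_lit 0) pn)))))))))) :=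
  Cl.node (nat_lit 0x8605850482) (nat_lit 1) (by decide +kernel) (ClAll.succ ClAll.zero n158)

def n160 : Cl (O (nat_lit 3)) (R (nat_lit 135377))
    (p (nat_lit 0x160014) (nat_lit 0) (p (nat_lit 0x60592) (nat_lit 0) (p (nat_lit 0x48512) (nat_lit 0) (p (nat_lit 0x50392) (nat_lit 0) (p (nat_lit 0x38312) (nat_lit 0) (p (nat_lit 0x40212) (nat_lit 0) (p (nat_lit 0x28192) (nat_lit 0) (p (nat_lit 0x30092) (nat_lit 0) (p (nat_lit 0x18012) (nat_lit 0) pn))))))))) :=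
  Cl.node (nat_lit 0x585048402) (nat_lit 1) (by decide +kernel) (ClAll.succ ClAll.zero n159)

def n161 : Cl (O (nat_lit 3)) (R (nat_lit 135377))
    (p (nat_lit 0x60592) (nat_lit 0) (p (nat_lit 0x48512) (nat_lit 0) (p (nat_lit 0x50392) (nat_lit 0) (p (nat_lit 0x38312) (nat_lit 0) (p (nat_lit 0x40212) (nat_lit 0) (p (nat_lit 0x28192) (nat_lit 0) (p (nat_lit 0x30092) (nat_lit 0) (p (nat_lit 0x18012) (nat_lit 0) pn)))))))) :=
  Cl.node (nat_lit 0x160014) (nat_lit 2) (by decide +kernel) (ClAll.succ (ClAll.succ ClAll.zero n160) s152)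

def n162 : Cl (O (nat_lit 3)) (R (nat_lit 135377))
    (p (nat_lit 0x48512) (nat_lit 0) (p (nat_lit 0x50392) (nat_lit 0) (p (nat_lit 0x38312) (nat_lit 0) (p (nat_lit 0x40212) (nat_lit 0) (p (nat_lit 0x28192) (nat_lit 0) (p (nat_lit 0x30092) (nat_lit 0) (p (nat_lit 0x18012) (nat_lit 0) pn))))))) :=
  Cl.node (nat_lit 0x60592) (nat_lit 1) (by decide +kernel) (ClAll.succ ClAll.zero n161)

def n163 : Cl (O (nat_lit 3)) (R (nat_lit 135377))
    (p (nat_lit 0x50392) (nat_lit 0) (p (nat_lit 0x38312) (nat_lit 0) (p (nat_lit 0x40212) (nat_lit 0) (p (nat_lit 0x28192) (nat_lit 0) (p (nat_lit 0x30092) (nat_lit 0) (p (nat_lit 0x18012) (nat_lit 0) pn)))))) :=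
  Cl.node (nat_lit 0x48512) (nat_lit 1) (by decide +kernel) (ClAll.succ ClAll.zero n162)

def n164 : Cl (O (nat_lit 3)) (R (nat_lit 135377))
    (p (nat_lit 0x38312) (nat_lit 0) (p (nat_lit 0x40212) (nat_lit 0) (p (nat_lit 0x28192) (nat_lit 0) (p (nat_lit 0x30092) (nat_lit 0) (p (nat_lit 0x18012) (nat_lit 0) pn))))) :=
  Cl.node (nat_lit 0x50392) (nat_lit 1) (by decide +kernel) (ClAll.succ ClAll.zero n163)

def n165 : Cl (O (nat_lit 3)) (R (nat_lit 135377))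
    (p (nat_lit 0x40212) (nat_lit 0) (p (nat_lit 0x28192) (nat_lit 0) (p (nat_lit 0x30092) (nat_lit 0) (p (nat_lit 0x18012) (nat_lit 0) pn)))) :=
  Cl.node (nat_lit 0x38312) (nat_lit 1) (by decide +kernel) (ClAll.succ ClAll.zero n164)

def n166 : Cl (O (nat_lit 3)) (R (nat_lit 135377))
    (p (nat_lit 0x28192) (nat_lit 0) (p (nat_lit 0x30092) (nat_lit 0) (p (nat_lit 0x18012) (nat_lit 0) pn))) :=
  Cl.node (nat_lit 0x40212) (nat_lit 1) (by decide +kernel) (ClAll.succ ClAll.zero n165)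

def n167 : Cl (O (nat_lit 3)) (R (nat_lit 135377))
    (p (nat_lit 0x30092) (nat_lit 0) (p (nat_lit 0x18012) (nat_lit 0) pn)) :=
  Cl.node (nat_lit 0x28192) (nat_lit 1) (by decide +kernel) (ClAll.succ ClAll.zero n166)

def n168 : Cl (O (nat_lit 3)) (R (nat_lit 135377))
    (p (nat_lit 0x18012) (nat_lit 0) pn) :=
  Cl.node (nat_lit 0x30092) (nat_lit 1) (by decide +kernel) (ClAll.succ ClAll.zero n167)

def n169 : Cl (O (nat_lit 3)) (R (nat_lit 135377))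
    pn :=
  Cl.node (nat_lit 0x18012) (nat_lit 1) (by decide +kernel) (ClAll.succ ClAll.zero n168)

theorem top : Cl (O (nat_lit 3)) (R (nat_lit 135377)) pn := n169

end Pool.Agent.Gen.F5.X123C1Dm3
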